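import Pool.Agent.Work.MP_a23c49_lc.Ratio
import Pool.Agent.Work.TMLib.Lib2

/-!
# The procedure runs in polynomial time
-/

namespace Pool.Agent.Work.MP_a23c49_lc

open Turing Polynomial TMLib

set_option linter.unusedSimpArgs false
set_option linter.unusedSectionVars false

variable {α β γ δ : Type} [DE α] [DE β] [DE γ] [DE δ]

/-- the ternary relation given by a list of triples -/
def TL (L : List (ℕ × ℕ × ℕ)) (a b c : ℕ) : Bool :=
  !(L.filter fun y => decide (y = (a, b, c))).isEmpty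

theorem TL_iff (L : List (ℕ × ℕ × ℕ)) (a b c : ℕ) : TL L a b c = true ↔ (a, b, c) ∈ L := by
  unfold TL
  simp

theorem PolyF.TL' : PolyF (fun p : List (ℕ × ℕ × ℕ) × ℕ × ℕ × ℕ =>
    MP_a23c49_lc.TL p.1 p.2.1 p.2.2.1 p.2.2.2) := by
  unfold MP_a23c49_lc.TL
  refine PolyF.not (PolyF.isEmpty (PolyF.filter (f := fun (p : List (ℕ × ℕ × ℕ) × ℕ × ℕ × ℕ)
    (y : ℕ × ℕ × ℕ) => decide (y = (p.2.1, p.2.2.1, p.2.2.2))) (by fun_prop) ?_))
  fun_prop

@[fun_prop]
theorem PolyF.TL {L : α → List (ℕ × ℕ × ℕ)} {a b c : α → ℕ} (hL : PolyF L) (ha : PolyF a)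
    (hb : PolyF b) (hc : PolyF c) : PolyF (fun x => TL (L x) (a x) (b x) (c x)) :=
  PolyF.comp (f := fun p : List (ℕ × ℕ × ℕ) × ℕ × ℕ × ℕ => MP_a23c49_lc.TL p.1 p.2.1 p.2.2.1 p.2.2.2)
    (g := fun x => (L x, a x, b x, c x)) PolyF.TL' (by fun_prop)

theorem PolyF.canAdd' : PolyF (fun p : List (ℕ × ℕ × ℕ) × List ℕ × ℕ =>
    MP_a23c49_lc.canAdd (MP_a23c49_lc.TL p.1) p.2.1 p.2.2) := by
  unfold MP_a23c49_lc.canAdd
  refine PolyF.all (l := fun p : List (ℕ × ℕ × ℕ) × List ℕ × ℕ => p.2.1)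
    (f := fun p a => p.2.1.all fun b => !(MP_a23c49_lc.TL p.1 a b p.2.2)) (by fun_prop) ?_
  refine PolyF.all (l := fun q : (List (ℕ × ℕ × ℕ) × List ℕ × ℕ) × ℕ => q.1.2.1)
    (f := fun q b => !(MP_a23c49_lc.TL q.1.1 q.2 b q.1.2.2)) (by fun_prop) ?_
  fun_prop

@[fun_prop]
theorem PolyF.canAdd {L : α → List (ℕ × ℕ × ℕ)} {I : α → List ℕ} {v : α → ℕ} (hL : PolyF L)
    (hI : PolyF I) (hv : PolyF v) : PolyF (fun x => canAdd (MP_a23c49_lc.TL (L x)) (I x) (v x)) :=
  PolyF.comp (f := fun p : List (ℕ × ℕ × ℕ) × List ℕ × ℕ =>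
    MP_a23c49_lc.canAdd (MP_a23c49_lc.TL p.1) p.2.1 p.2.2)
    (g := fun x => (L x, I x, v x)) PolyF.canAdd' (by fun_prop)

@[fun_prop]
theorem PolyF.rem {v : α → ℕ} {I : α → List ℕ} (hv : PolyF v) (hI : PolyF I) :
    PolyF (fun x => rem (v x) (I x)) := by
  unfold MP_a23c49_lc.rem
  refine PolyF.filter (f := fun x a => !decide (a = v x)) hI ?_
  have : PolyF (fun p : α × ℕ => v p.1) := PolyF.comp (f := v) (g := fun p : α × ℕ => p.1) hv
    (by fun_prop)
  fun_prop

@[fun_prop]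
theorem PolyF.upd {L : α → List (ℕ × ℕ × ℕ)} {b : α → Bool} {I : α → List ℕ} {v : α → ℕ}
    (hL : PolyF L) (hb : PolyF b) (hv : PolyF v) (hI : PolyF I) :
    PolyF (fun x => upd (MP_a23c49_lc.TL (L x)) (b x) (v x) (I x)) := by
  unfold MP_a23c49_lc.upd
  fun_prop

@[fun_prop]
theorem PolyF.lg {B I : α → List ℕ} (hB : PolyF B) (hI : PolyF I) :
    PolyF (fun x => lg (B x) (I x)) := by
  unfold MP_a23c49_lc.lg
  fun_prop

theorem PolyF.stp' : PolyF (fun p : List (ℕ × ℕ × ℕ) × (List Bool × List ℕ × List ℕ) × ℕ =>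
    stp (MP_a23c49_lc.TL p.1) p.2.1 p.2.2) := by
  unfold stp
  fun_prop

theorem sz_filter_le (f : β → Bool) (l : List β) : sz (l.filter f) ≤ sz l := by
  induction l with
  | nil => simp
  | cons b l ih =>
    rw [List.filter_cons]
    cases f b
    · simp only [Bool.false_eq_true, if_false, sz_cons]; omega
    · simp only [if_true, sz_cons]; omega

theorem sz_tail_le' (l : List β) : sz l.tail ≤ sz l := by
  cases l <;> simp; omega

theorem sz_upd_le (T : ℕ → ℕ → ℕ → Bool) (b : Bool) (v : ℕ) (I : List ℕ) :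
    sz (upd T b v I) ≤ sz I + sz v + 1 := by
  unfold upd
  have h := sz_filter_le (fun a => !decide (a = v)) I
  cases canAdd T I v
  · simp only [cond_false]; omega
  · cases b
    · simp only [cond_true, cond_false]; unfold rem; omega
    · simp only [cond_true, sz_cons]; unfold rem; omega

theorem sz_lg_le (B I : List ℕ) : sz (lg B I) ≤ max (sz B) (sz I) := by
  rcases lg_cases B I with h | h
  · rw [h]; exact le_max_right _ _
  · rw [h]; exact le_max_left _ _

theorem sz_run (T : ℕ → ℕ → ℕ → Bool) {c : ℕ} (w : List ℕ) (hw : ∀ v ∈ w, sz v ≤ c) :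
    ∀ s : List Bool × List ℕ × List ℕ,
      sz (w.foldl (stp T) s).1 ≤ sz s.1 ∧
      sz (w.foldl (stp T) s).2.1 ≤ sz s.2.1 + w.length * (c + 1) ∧
      sz (w.foldl (stp T) s).2.2 ≤ max (sz s.2.2) (sz s.2.1 + w.length * (c + 1)) := by
  induction w with
  | nil => intro s; simp
  | cons v w ih =>
    intro s
    rw [List.foldl_cons]
    obtain ⟨h1, h2, h3⟩ := ih (fun u hu => hw u (List.mem_cons_of_mem _ hu)) (stp T s v)
    have hv := hw v List.mem_cons_self
    have a1 : sz (stp T s v).1 ≤ sz s.1 := sz_tail_le' s.1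
    have a2 : sz (stp T s v).2.1 ≤ sz s.2.1 + (c + 1) := by
      have := sz_upd_le T (s.1.headD false) v s.2.1
      simp only [stp]
      omega
    have a3 : sz (stp T s v).2.2 ≤ max (sz s.2.2) (sz s.2.1 + (c + 1)) := by
      have h := sz_lg_le s.2.2 (upd T (s.1.headD false) v s.2.1)
      simp only [stp] at a2 ⊢
      omega
    rw [List.length_cons, Nat.succ_mul]
    refine ⟨by omega, by omega, by omega⟩

/-! ### Sampling -/

@[fun_prop]
theorem PolyF.tk {s : α → List Bool × Bool} (hs : PolyF s) : PolyF (fun x => tk (s x)) := by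
  unfold MP_a23c49_lc.tk
  fun_prop

@[fun_prop]
theorem PolyF.tkIter {j : α → ℕ} {s : α → List Bool × Bool} (hj : PolyF j) (hs : PolyF s) :
    PolyF (fun x => MP_a23c49_lc.tk^[j x] (s x)) := by
  refine PolyF.iterate_add (h := fun _ s => MP_a23c49_lc.tk s) hj hs (by fun_prop) 3 ?_
  intro a s
  have h1 := sz_tail_le' s.1
  have h2 := sz_bool_le (s.2 && s.1.headD false)
  have h3 := sz_pos s.2
  simp only [MP_a23c49_lc.tk, sz_pair, eval_ofNat]
  omega

theorem sz_tkIter (j : ℕ) : ∀ s : List Bool × Bool, sz (MP_a23c49_lc.tk^[j] s).1 ≤ sz s.1 := by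
  induction j with
  | zero => intro s; exact le_refl _
  | succ j ih =>
    intro s
    rw [Function.iterate_succ_apply]
    exact (ih _).trans (sz_tail_le' s.1)

theorem PolyF.sst' : PolyF (fun p : ℕ × (List Bool × List ℕ) × ℕ => sst p.1 p.2.1 p.2.2) := by
  unfold sst
  fun_prop

@[fun_prop]
theorem PolyF.sample {j : α → ℕ} {V : α → List ℕ} {l : α → List Bool} (hj : PolyF j)
    (hV : PolyF V) (hl : PolyF l) :
    PolyF (fun x => (V x).foldl (sst (j x)) (l x, [])) := by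
  obtain ⟨qV, hqV⟩ := hV.size
  refine PolyF.foldl_add (l := V) (g := fun x => (l x, [])) (h := fun x s v => sst (j x) s v)
    hV (by fun_prop) ?_ (qV + 1) ?_
  · have : PolyF (fun p : α × (List Bool × List ℕ) × ℕ => j p.1) :=
      PolyF.comp (f := j) (g := fun p : α × (List Bool × List ℕ) × ℕ => p.1) hj (by fun_prop)
    exact PolyF.comp (f := fun p : ℕ × (List Bool × List ℕ) × ℕ => sst p.1 p.2.1 p.2.2)
      (g := fun p : α × (List Bool × List ℕ) × ℕ => (j p.1, p.2.1, p.2.2)) PolyF.sst' (by fun_prop)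
  · intro x s v hv
    have h1 := sz_tkIter (j x) (s.1, true)
    have h2 := sz_le_of_mem hv
    have h3 := hqV x
    simp only [sst, sz_pair, eval_add, eval_one]
    cases (MP_a23c49_lc.tk^[j x] (s.1, true)).2
    · simp only [cond_false] at *
      omega
    · simp only [cond_true, sz_cons] at *
      omega

/-! ### The dynamics -/

@[fun_prop]
theorem PolyF.run {L : α → List (ℕ × ℕ × ℕ)} {w : α → List ℕ} {l : α → List Bool} (hL : PolyF L)
    (hw : PolyF w) (hl : PolyF l) :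
    PolyF (fun x => (w x).foldl (stp (MP_a23c49_lc.TL (L x))) (l x, [], [])) := by
  obtain ⟨qw, hqw⟩ := hw.size
  obtain ⟨ql, hql⟩ := hl.size
  refine PolyF.foldl (l := w) (g := fun x => (l x, [], []))
    (h := fun x s v => stp (MP_a23c49_lc.TL (L x)) s v) hw (by fun_prop) ?_
    (ql + 2 * (1 + qw * (qw + 1)) + 2) ?_
  · have : PolyF (fun p : α × (List Bool × List ℕ × List ℕ) × ℕ => L p.1) :=
      PolyF.comp (f := L) (g := fun p : α × (List Bool × List ℕ × List ℕ) × ℕ => p.1) hL (by fun_prop)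
    exact PolyF.comp (f := fun p : List (ℕ × ℕ × ℕ) × (List Bool × List ℕ × List ℕ) × ℕ =>
      stp (MP_a23c49_lc.TL p.1) p.2.1 p.2.2)
      (g := fun p : α × (List Bool × List ℕ × List ℕ) × ℕ => (L p.1, p.2.1, p.2.2)) PolyF.stp'
      (by fun_prop)
  · intro x j hj
    have hmem : ∀ v ∈ (w x).take j, sz v ≤ qw.eval (sz x) := by
      intro v hv
      have := sz_le_of_mem (List.mem_of_mem_take hv)
      have := hqw x
      omega
    obtain ⟨h1, h2, h3⟩ := sz_run (MP_a23c49_lc.TL (L x)) ((w x).take j) hmem (l x, [], [])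
    have h4 : ((w x).take j).length ≤ qw.eval (sz x) := by
      have := length_lt_sz (w x)
      have := hqw x
      simp
      omega
    have h5 : ((w x).take j).length * (qw.eval (sz x) + 1) ≤
        qw.eval (sz x) * (qw.eval (sz x) + 1) := Nat.mul_le_mul_right _ h4
    have h6 := hql x
    simp only [sz_nil] at h1 h2 h3
    have e : (fun (s : List Bool × List ℕ × List ℕ) (v : ℕ) => stp (MP_a23c49_lc.TL (L x)) s v) =
        stp (MP_a23c49_lc.TL (L x)) := rfl
    simp only [sz_pair, eval_add, eval_mul, eval_ofNat, eval_one, e]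
    omega

theorem flatten_replicate_eq (K : ℕ) (w : List ℕ) :
    (List.replicate K w).flatten = (units K).flatMap fun _ => w := by
  induction K with
  | zero => rfl
  | succ K ih =>
    unfold units at ih ⊢
    rw [List.replicate_succ, List.flatten_cons, List.replicate_succ, List.flatMap_cons, ih]

@[fun_prop]
theorem PolyF.sweeps {K : α → ℕ} {w : α → List ℕ} (hK : PolyF K) (hw : PolyF w) :
    PolyF (fun x => (List.replicate (K x) (w x)).flatten) := by
  have h : PolyF (fun x => (units (K x)).flatMap fun _ => w x) := by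
    refine PolyF.flatMap (f := fun x _ => w x) (by fun_prop) ?_
    exact PolyF.comp (f := w) (g := fun p : α × Unit => p.1) hw (by fun_prop)
  exact h.congrF fun x => (flatten_replicate_eq _ _).symm

/-! ### Pruning -/

theorem PolyF.pst' : PolyF (fun p : (List (ℕ × ℕ × ℕ) × ℕ) × List ℕ × (ℕ × ℕ) =>
    pst (MP_a23c49_lc.TL p.1.1) p.1.2 p.2.1 p.2.2) := by
  unfold pst
  have h1 : PolyF (fun p : (List (ℕ × ℕ × ℕ) × ℕ) × List ℕ × (ℕ × ℕ) =>
      p.2.1.filter fun c => MP_a23c49_lc.TL p.1.1 p.2.2.1 p.2.2.2 c) := by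
    refine PolyF.filter (f := fun (p : (List (ℕ × ℕ × ℕ) × ℕ) × List ℕ × (ℕ × ℕ)) c =>
      MP_a23c49_lc.TL p.1.1 p.2.2.1 p.2.2.2 c) (by fun_prop) (by fun_prop)
  have h2 : PolyF (fun p : (List (ℕ × ℕ × ℕ) × ℕ) × List ℕ × (ℕ × ℕ) =>
      p.2.1.filter fun c => !(MP_a23c49_lc.TL p.1.1 p.2.2.1 p.2.2.2 c)) := by
    refine PolyF.filter (f := fun (p : (List (ℕ × ℕ × ℕ) × ℕ) × List ℕ × (ℕ × ℕ)) c =>
      !(MP_a23c49_lc.TL p.1.1 p.2.2.1 p.2.2.2 c)) (by fun_prop) (by fun_prop)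
  fun_prop

theorem sz_pst_le (T : ℕ → ℕ → ℕ → Bool) (t : ℕ) (cur : List ℕ) (x : ℕ × ℕ) :
    sz (pst T t cur x) ≤ sz cur := by
  unfold pst
  cases decide (t < (cur.filter fun c => T x.1 x.2 c).length)
  · exact le_refl _
  · exact sz_filter_le _ _

theorem PolyF.pairs : PolyF (fun S : List ℕ => S.flatMap fun a => S.map fun b => (a, b)) := by
  refine PolyF.flatMap (l := fun S : List ℕ => S) (f := fun S a => S.map fun b => (a, b))
    (by fun_prop) ?_
  exact PolyF.map (l := fun p : List ℕ × ℕ => p.1) (f := fun p b => (p.2, b)) (by fun_prop)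
    (by fun_prop)

theorem PolyF.prune' : PolyF (fun p : (List (ℕ × ℕ × ℕ) × ℕ) × List ℕ =>
    prune (MP_a23c49_lc.TL p.1.1) p.1.2 p.2) := by
  unfold prune
  refine PolyF.foldl_add (l := fun p : (List (ℕ × ℕ × ℕ) × ℕ) × List ℕ =>
    p.2.flatMap fun a => p.2.map fun b => (a, b)) (g := fun p => p.2)
    (h := fun p s x => pst (MP_a23c49_lc.TL p.1.1) p.1.2 s x) ?_ (by fun_prop) ?_ 0 ?_
  · exact PolyF.comp (f := fun S : List ℕ => S.flatMap fun a => S.map fun b => (a, b))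
      (g := fun p : (List (ℕ × ℕ × ℕ) × ℕ) × List ℕ => p.2) PolyF.pairs (by fun_prop)
  · exact PolyF.comp (f := fun p : (List (ℕ × ℕ × ℕ) × ℕ) × List ℕ × (ℕ × ℕ) =>
      pst (MP_a23c49_lc.TL p.1.1) p.1.2 p.2.1 p.2.2)
      (g := fun p : ((List (ℕ × ℕ × ℕ) × ℕ) × List ℕ) × List ℕ × (ℕ × ℕ) => (p.1.1, p.2.1, p.2.2))
      PolyF.pst' (by fun_prop)
  · intro p s x _
    have := sz_pst_le (MP_a23c49_lc.TL p.1.1) p.1.2 s x
    simpa using this

@[fun_prop]
theorem PolyF.prune {L : α → List (ℕ × ℕ × ℕ)} {t : α → ℕ} {S : α → List ℕ} (hL : PolyF L)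
    (ht : PolyF t) (hS : PolyF S) :
    PolyF (fun x => prune (MP_a23c49_lc.TL (L x)) (t x) (S x)) :=
  PolyF.comp (f := fun p : (List (ℕ × ℕ × ℕ) × ℕ) × List ℕ =>
    MP_a23c49_lc.prune (MP_a23c49_lc.TL p.1.1) p.1.2 p.2) (g := fun x => ((L x, t x), S x))
    PolyF.prune' (by fun_prop)

/-! ### The attempt, the greedy algorithm, the procedure -/

@[fun_prop]
theorem PolyF.att {L : α → List (ℕ × ℕ × ℕ)} {K t j : α → ℕ} {S : α → List ℕ}
    {l : α → List Bool} (hL : PolyF L) (hK : PolyF K) (ht : PolyF t) (hj : PolyF j)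
    (hS : PolyF S) (hl : PolyF l) :
    PolyF (fun x => att (MP_a23c49_lc.TL (L x)) (K x) (t x) (j x) (S x) (l x)) := by
  unfold MP_a23c49_lc.att
  simp only
  fun_prop

@[fun_prop]
theorem PolyF.grd {L : α → List (ℕ × ℕ × ℕ)} {S : α → List ℕ} (hL : PolyF L) (hS : PolyF S) :
    PolyF (fun x => grd (MP_a23c49_lc.TL (L x)) (S x)) := by
  obtain ⟨qS, hqS⟩ := hS.size
  unfold MP_a23c49_lc.grd
  refine PolyF.foldl_add (l := S) (g := fun _ => ([] : List ℕ)) (h := fun x G v =>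
    bif MP_a23c49_lc.canAdd (MP_a23c49_lc.TL (L x)) G v then v :: G else G) hS (by fun_prop) ?_ (qS + 1) ?_
  · have : PolyF (fun p : α × List ℕ × ℕ => L p.1) :=
      PolyF.comp (f := L) (g := fun p : α × List ℕ × ℕ => p.1) hL (by fun_prop)
    fun_prop
  · intro x G v hv
    have h2 := sz_le_of_mem hv
    have h3 := hqS x
    simp only [eval_add, eval_one]
    cases MP_a23c49_lc.canAdd (MP_a23c49_lc.TL (L x)) G v
    · simp only [cond_false]; omega
    · simp only [cond_true, sz_cons]; omega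

theorem PolyF.grid : PolyF (fun n : ℕ => (List.range (n + 1)).flatMap fun t =>
    (List.range (n + 1)).map fun j => (t, j)) := by
  refine PolyF.flatMap (l := fun n : ℕ => List.range (n + 1)) (f := fun n t =>
    (List.range (n + 1)).map fun j => (t, j)) (by fun_prop) ?_
  exact PolyF.map (l := fun p : ℕ × ℕ => List.range (p.1 + 1)) (f := fun p b => (p.2, b))
    (by fun_prop) (by fun_prop)

theorem PolyF.alg' : PolyF (fun p : List (ℕ × ℕ × ℕ) × ℕ × List ℕ × List Bool =>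
    alg (MP_a23c49_lc.TL p.1) p.2.1 p.2.2.1 p.2.2.2) := by
  have hatt : PolyF (fun p : (List (ℕ × ℕ × ℕ) × ℕ × List ℕ × List Bool) × (ℕ × ℕ) =>
      MP_a23c49_lc.att (MP_a23c49_lc.TL p.1.1) p.1.2.1 p.2.1 p.2.2 p.1.2.2.1 p.1.2.2.2) := by
    fun_prop
  obtain ⟨qa, hqa⟩ := hatt.size
  have hgrid : PolyF (fun p : List (ℕ × ℕ × ℕ) × ℕ × List ℕ × List Bool =>
      (List.range (p.2.2.1.length + 1)).flatMap fun t =>
      (List.range (p.2.2.1.length + 1)).map fun j => (t, j)) :=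
    PolyF.comp (f := fun n : ℕ => (List.range (n + 1)).flatMap fun t =>
      (List.range (n + 1)).map fun j => (t, j))
      (g := fun p : List (ℕ × ℕ × ℕ) × ℕ × List ℕ × List Bool => p.2.2.1.length)
      PolyF.grid (by fun_prop)
  obtain ⟨qg, hqg⟩ := hgrid.size
  unfold alg
  refine PolyF.foldl_add (l := fun p : List (ℕ × ℕ × ℕ) × ℕ × List ℕ × List Bool =>
      (List.range (p.2.2.1.length + 1)).flatMap fun t =>
      (List.range (p.2.2.1.length + 1)).map fun j => (t, j))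
    (g := fun p => MP_a23c49_lc.grd (MP_a23c49_lc.TL p.1) p.2.2.1)
    (h := fun p B x => MP_a23c49_lc.lg B (MP_a23c49_lc.att (MP_a23c49_lc.TL p.1) p.2.1 x.1 x.2
      p.2.2.1 p.2.2.2)) hgrid (by fun_prop) ?_ (qa.comp (X + qg + 1)) ?_
  · fun_prop
  · intro p B x hx
    have h1 := sz_lg_le B (MP_a23c49_lc.att (MP_a23c49_lc.TL p.1) p.2.1 x.1 x.2 p.2.2.1 p.2.2.2)
    have h2 := hqa (p, x)
    have h3 := sz_le_of_mem hx
    have h4 := hqg p
    have h5 : qa.eval (sz (p, x)) ≤ (qa.comp (X + qg + 1)).eval (sz p) := by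
      rw [eval_comp]
      apply poly_mono
      simp only [eval_add, eval_X, eval_one]
      have h6 : sz (p, x) = sz p + sz x + 1 := rfl
      omega
    simp only at h2
    omega

@[fun_prop]
theorem PolyF.alg {L : α → List (ℕ × ℕ × ℕ)} {K : α → ℕ} {S : α → List ℕ} {l : α → List Bool}
    (hL : PolyF L) (hK : PolyF K) (hS : PolyF S) (hl : PolyF l) :
    PolyF (fun x => alg (MP_a23c49_lc.TL (L x)) (K x) (S x) (l x)) :=
  PolyF.comp (f := fun p : List (ℕ × ℕ × ℕ) × ℕ × List ℕ × List Bool =>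
    MP_a23c49_lc.alg (MP_a23c49_lc.TL p.1) p.2.1 p.2.2.1 p.2.2.2)
    (g := fun x => (L x, K x, S x, l x)) PolyF.alg' (by fun_prop)

@[fun_prop]
theorem PolyF.KK {n : α → ℕ} (hn : PolyF n) : PolyF (fun x => KK (n x)) := by
  have h : PolyF (fun x => 64 * n x * ((12000 * (n x * n x * n x)) * (12000 * (n x * n x * n x)))) := by
    fun_prop
  refine h.congrF fun x => ?_
  unfold MP_a23c49_lc.KK
  rw [pow_two]
  congr 3 <;> ring

end Pool.Agent.Work.MP_a23c49_lc
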