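import Pool.Agent.Work.MP_a23c49_lc.Sample

/-!
# The algorithm, as a procedure on lists, and its analysis
-/

namespace Pool.Agent.Work.MP_a23c49_lc

open Finset

set_option linter.unusedSectionVars false

variable {X : Type} [DecidableEq X]

/-! ### Definitions -/

/-- can `v` be added to the list `I` -/
def canAdd (T : X → X → X → Bool) (I : List X) (v : X) : Bool :=
  I.all fun a => I.all fun b => !(T a b v)

/-- remove `v` from the list -/
def rem (v : X) (I : List X) : List X := I.filter fun a => !decide (a = v)

/-- one update of the dynamics -/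
def upd (T : X → X → X → Bool) (b : Bool) (v : X) (I : List X) : List X :=
  bif canAdd T I v then (bif b then v :: rem v I else rem v I) else I

/-- the longer of two lists -/
def lg (B I : List X) : List X := bif decide (B.length < I.length) then I else B

/-- one step: the state consists of the unused random bits, the current list, the longest list
seen so far -/
def stp (T : X → X → X → Bool) (s : List Bool × List X × List X) (v : X) :
    List Bool × List X × List X :=
  (s.1.tail, upd T (s.1.headD false) v s.2.1, lg s.2.2 (upd T (s.1.headD false) v s.2.1))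

/-- read a bit -/
def tk (s : List Bool × Bool) : List Bool × Bool := (s.1.tail, s.2 && s.1.headD false)

/-- one step of the sampling: `v` is included if the next `j` bits are all `true` -/
def sst (j : ℕ) (s : List Bool × List X) (v : X) : List Bool × List X :=
  ((tk^[j] (s.1, true)).1, bif (tk^[j] (s.1, true)).2 then v :: s.2 else s.2)

/-- delete the points of a line if there are more than `t` -/
def pst (T : X → X → X → Bool) (t : ℕ) (cur : List X) (x : X × X) : List X :=
  bif decide (t < (cur.filter fun c => T x.1 x.2 c).length) then cur.filter fun c => !(T x.1 x.2 c)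
  else cur

/-- delete the rich lines -/
def prune (T : X → X → X → Bool) (t : ℕ) (S : List X) : List X :=
  (S.flatMap fun a => S.map fun b => (a, b)).foldl (pst T t) S

/-- one attempt -/
def att (T : X → X → X → Bool) (K t j : ℕ) (S : List X) (l : List Bool) : List X :=
  let s := (prune T t S).foldl (sst j) (l, [])
  ((List.replicate K s.2).flatten.foldl (stp T) (s.1, [], [])).2.2

/-- the greedy algorithm -/
def grd (T : X → X → X → Bool) (S : List X) : List X :=
  S.foldl (fun G v => bif canAdd T G v then v :: G else G) []

/-- the whole procedure -/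
def alg (T : X → X → X → Bool) (K : ℕ) (S : List X) (l : List Bool) : List X :=
  ((List.range (S.length + 1)).flatMap fun t => (List.range (S.length + 1)).map fun j =>
    (t, j)).foldl (fun B x => lg B (att T K x.1 x.2 S l)) (grd T S)

/-! ### Averages over bit strings -/

/-- average over the bit strings of length `k` -/
noncomputable def bav : ℕ → (List Bool → ℝ) → ℝ
  | 0, F => F []
  | k + 1, F => (bav k (fun l => F (true :: l)) + bav k (fun l => F (false :: l))) / 2

theorem bav_mono (k : ℕ) : ∀ F G : List Bool → ℝ, (∀ l, l.length = k → F l ≤ G l) →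
    bav k F ≤ bav k G := by
  induction k with
  | zero => intro F G h; exact h [] rfl
  | succ k ih =>
    intro F G h
    simp only [bav]
    have h1 := ih (fun l => F (true :: l)) (fun l => G (true :: l)) fun l hl => h _ (by simp [hl])
    have h2 := ih (fun l => F (false :: l)) (fun l => G (false :: l)) fun l hl => h _ (by simp [hl])
    linarith

theorem bav_const (k : ℕ) (c : ℝ) : bav k (fun _ => c) = c := by
  induction k with
  | zero => rfl
  | succ k ih => simp only [bav]; rw [ih]; ring

/-- the effect of reading `j` bits -/
theorem bav_tk (c : ℕ) (G : List Bool → Bool → ℝ) : ∀ (j : ℕ),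
    bav (j + c) (fun l => G (tk^[j] (l, false)).1 (tk^[j] (l, false)).2) =
      bav c (fun l => G l false) ∧
    bav (j + c) (fun l => G (tk^[j] (l, true)).1 (tk^[j] (l, true)).2) =
      (1 / 2) ^ j * bav c (fun l => G l true) + (1 - (1 / 2) ^ j) * bav c (fun l => G l false) := by
  intro j
  induction j with
  | zero => simp
  | succ j ih =>
    have e : j + 1 + c = (j + c) + 1 := by omega
    rw [e]
    simp only [bav, Function.iterate_succ_apply, tk, List.tail_cons, List.headD_cons,
      Bool.and_true, Bool.and_false]
    rw [ih.1, ih.2]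
    constructor
    · ring
    · rw [pow_succ]; ring

/-- the sampling stage -/
theorem bav_sample (j c : ℕ) (G : List Bool → List X → ℝ) (H : Finset X → ℝ) (V : List X) :
    ∀ acc : List X, V.Nodup → acc.Nodup → (∀ v ∈ V, v ∉ acc) →
    (∀ acc' : List X, acc'.Nodup → (∀ v ∈ acc', v ∈ V ∨ v ∈ acc) →
      bav c (fun l => G l acc') ≤ H acc'.toFinset) →
    bav (j * V.length + c) (fun l => G (V.foldl (sst j) (l, acc)).1 (V.foldl (sst j) (l, acc)).2) ≤
      Es ((1 / 2) ^ j) V (fun A => H (A ∪ acc.toFinset)) := by
  induction V with
  | nil =>
    intro acc _ hacc _ h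
    simp only [List.length_nil, mul_zero, zero_add, List.foldl_nil, Es, empty_union]
    exact h acc hacc fun v hv => Or.inr hv
  | cons v V ih =>
    intro acc hV hacc hd h
    have hV' := List.nodup_cons.mp hV
    have e : j * (v :: V).length + c = j + (j * V.length + c) := by
      rw [List.length_cons]; ring
    rw [e]
    have h1 := (bav_tk (j * V.length + c) (fun l b =>
      G (V.foldl (sst j) (l, bif b then v :: acc else acc)).1
        (V.foldl (sst j) (l, bif b then v :: acc else acc)).2) j).2
    refine h1.le.trans ?_
    have hva : v ∉ acc := hd v List.mem_cons_self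
    have h2 := ih (v :: acc) hV'.2 (List.nodup_cons.mpr ⟨hva, hacc⟩) (by
      intro u hu hu'
      rcases List.mem_cons.mp hu' with h3 | h3
      · rw [h3] at hu; exact hV'.1 hu
      · exact hd u (List.mem_cons_of_mem _ hu) h3) (by
      intro acc' hn hm
      apply h acc' hn
      intro u hu
      rcases hm u hu with h3 | h3
      · exact Or.inl (List.mem_cons_of_mem _ h3)
      · rcases List.mem_cons.mp h3 with h4 | h4
        · left; rw [h4]; exact List.mem_cons_self
        · exact Or.inr h4)
    have h3 := ih acc hV'.2 hacc (fun u hu => hd u (List.mem_cons_of_mem _ hu)) (by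
      intro acc' hn hm
      apply h acc' hn
      intro u hu
      rcases hm u hu with h3 | h3
      · exact Or.inl (List.mem_cons_of_mem _ h3)
      · exact Or.inr h3)
    simp only [Es]
    have e2 : (fun A : Finset X => H (A ∪ (v :: acc).toFinset)) =
        fun A => H (insert v A ∪ acc.toFinset) := by
      funext A
      congr 1
      ext u
      simp only [List.toFinset_cons, mem_union, mem_insert]
      tauto
    rw [e2] at h2
    simp only [cond_true, cond_false]
    have hp : (0 : ℝ) ≤ (1 / 2) ^ j := by positivity
    have hp1 : ((1 / 2 : ℝ)) ^ j ≤ 1 := pow_le_one₀ (by norm_num) (by norm_num)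
    have := mul_le_mul_of_nonneg_left h2 hp
    have := mul_le_mul_of_nonneg_left h3 (sub_nonneg.mpr hp1)
    linarith

/-! ### The dynamics -/

variable {T : X → X → X → Bool} {R : Finset X} {v : X}

theorem mem_rem {I : List X} {a : X} : a ∈ rem v I ↔ a ∈ I ∧ a ≠ v := by
  simp [rem]

theorem rem_toFinset (I : List X) : (rem v I).toFinset = I.toFinset.erase v := by
  ext a
  rw [List.mem_toFinset, mem_rem, mem_erase, List.mem_toFinset]
  tauto

theorem rem_nodup {I : List X} (h : I.Nodup) : (rem v I).Nodup := h.filter _

theorem canAdd_iff (hT : LS T) {I : List X} (hI : Ind T I.toFinset) :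
    canAdd T I v = true ↔ Ind T (insert v I.toFinset) := by
  have h1 : canAdd T I v = true ↔ ∀ a ∈ I, ∀ b ∈ I, T a b v = false := by
    simp [canAdd]
  rw [h1]
  constructor
  · intro h
    apply Ind.of_no_true
    have hne : ∀ a b c, T a b c = true → a ≠ b ∧ b ≠ c ∧ a ≠ c := by
      intro a b c h
      exact ⟨hT.ne _ _ _ h, hT.ne _ _ _ ((hT.rot a b c).symm.trans h),
        hT.ne _ _ _ ((hT.swap23 a b c).symm.trans h)⟩
    intro a ha b hb c hc h0
    obtain ⟨n1, n2, n3⟩ := hne a b c h0
    rw [mem_insert, List.mem_toFinset] at ha hb hc
    rcases hc with hc | hc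
    · subst hc
      rcases ha with ha | ha
      · exact n3 ha
      · rcases hb with hb | hb
        · exact n2 hb
        · rw [h a ha b hb] at h0; cases h0
    · rcases ha with ha | ha
      · subst ha
        rcases hb with hb | hb
        · exact n1 hb.symm
        · have h2 : T b c a = true := by rw [← hT.rot a b c]; exact h0
          rw [h b hb c hc] at h2; cases h2
      · rcases hb with hb | hb
        · subst hb
          have h2 : T a c b = true := by rw [hT.swap23]; exact h0
          rw [h a ha c hc] at h2; cases h2
        · rw [hI a (List.mem_toFinset.mpr ha) b (List.mem_toFinset.mpr hb) c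
            (List.mem_toFinset.mpr hc)] at h0
          cases h0
  · intro h a ha b hb
    exact h a (mem_insert_of_mem (List.mem_toFinset.mpr ha)) b
      (mem_insert_of_mem (List.mem_toFinset.mpr hb)) v (mem_insert_self _ _)

theorem upd_nodup {b : Bool} {I : List X} (h : I.Nodup) : (upd T b v I).Nodup := by
  unfold upd
  cases canAdd T I v
  · exact h
  · cases b
    · exact rem_nodup h
    · simp only [cond_true]
      refine List.nodup_cons.mpr ⟨?_, rem_nodup h⟩
      rw [mem_rem]
      exact fun h => h.2 rfl

theorem upd_ind (hT : LS T) {b : Bool} {I : List X} (hI : Ind T I.toFinset) :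
    Ind T (upd T b v I).toFinset := by
  unfold upd
  cases hc : canAdd T I v
  · exact hI
  · cases b
    · simp only [cond_true, cond_false]
      rw [rem_toFinset]
      exact hI.subset (erase_subset _ _)
    · simp only [cond_true]
      rw [List.toFinset_cons, rem_toFinset]
      exact ((canAdd_iff hT hI).mp hc).subset (insert_subset_insert _ (erase_subset _ _))

theorem upd_sub {b : Bool} {I : List X} {a : X} (h : a ∈ upd T b v I) : a = v ∨ a ∈ I := by
  unfold upd at h
  cases hc : canAdd T I v <;> rw [hc] at h
  · exact Or.inr h
  · cases b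
    · simp only [cond_true, cond_false] at h
      exact Or.inr (mem_rem.mp h).1
    · simp only [cond_true] at h
      rcases List.mem_cons.mp h with h | h
      · exact Or.inl h
      · exact Or.inr (mem_rem.mp h).1

theorem lg_length (B I : List X) : (lg B I).length = max B.length I.length := by
  unfold lg
  by_cases h : B.length < I.length
  · rw [decide_eq_true h, cond_true, max_eq_right h.le]
  · rw [decide_eq_false h, cond_false, max_eq_left (not_lt.mp h)]

theorem lg_cases (B I : List X) : lg B I = I ∨ lg B I = B := by
  unfold lg
  cases decide (B.length < I.length)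
  · exact Or.inr rfl
  · exact Or.inl rfl

theorem stp_mono (w : List X) : ∀ s : List Bool × List X × List X,
    s.2.2.length ≤ (w.foldl (stp T) s).2.2.length := by
  induction w with
  | nil => intro s; exact le_refl _
  | cons v w ih =>
    intro s
    rw [List.foldl_cons]
    refine le_trans ?_ (ih _)
    simp only [stp]
    rw [lg_length]
    exact le_max_left _ _

/-- indicator of a short list -/
noncomputable def short (m : ℕ) (B : List X) : ℝ := if B.length ≤ m then 1 else 0

/-- the run of the dynamics -/
theorem bav_run (hT : LS T) (m : ℕ) (w : List X) : ∀ (N : ℕ) (I B : List X), w.length ≤ N →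
    I.Nodup → Ind T I.toFinset → B.length ≤ m →
    bav N (fun l => short m (w.foldl (stp T) (l, I, B)).2.2) = nh T m w I.toFinset := by
  induction w with
  | nil =>
    intro N I B _ _ _ hB
    simp only [List.foldl_nil, nh]
    have e : short m B = 1 := if_pos hB
    rw [e]
    exact bav_const _ _
  | cons v w ih =>
    intro N I B hN hI hInd hB
    obtain ⟨N, rfl⟩ : ∃ N', N = N' + 1 := ⟨N - 1, by rw [List.length_cons] at hN; omega⟩
    rw [List.length_cons] at hN
    simp only [bav, List.foldl_cons, stp, List.headD_cons, List.tail_cons, nh]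
    have key : ∀ b, bav N (fun l => short m (w.foldl (stp T) (l, upd T b v I,
        lg B (upd T b v I))).2.2) =
        if m < (upd T b v I).toFinset.card then 0 else nh T m w (upd T b v I).toFinset := by
      intro b
      rw [List.toFinset_card_of_nodup (upd_nodup hI)]
      split_ifs with h
      · have h2 : ∀ l : List Bool, short m (w.foldl (stp T) (l, upd T b v I,
            lg B (upd T b v I))).2.2 = 0 := by
          intro l
          unfold short
          rw [if_neg]
          rw [not_le]
          refine lt_of_lt_of_le ?_ (stp_mono w _)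
          simp only
          rw [lg_length]
          exact lt_of_lt_of_le h (le_max_right _ _)
        simp only [h2]
        exact bav_const _ _
      · apply ih N _ _ (by omega) (upd_nodup hI) (upd_ind hT hInd)
        rw [lg_length]
        exact max_le hB (not_lt.mp h)
    rw [key true, key false]
    unfold Kv
    by_cases hc : canAdd T I v = true
    · rw [if_pos ((canAdd_iff hT hInd).mp hc)]
      have e1 : (upd T true v I).toFinset = insert v I.toFinset := by
        unfold upd
        rw [hc, cond_true, cond_true, List.toFinset_cons, rem_toFinset]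
        ext u
        simp only [mem_insert, mem_erase]
        tauto
      have e2 : (upd T false v I).toFinset = I.toFinset.erase v := by
        unfold upd
        rw [hc, cond_true, cond_false, rem_toFinset]
      rw [e1, e2]
      ring
    · rw [if_neg (fun h => hc ((canAdd_iff hT hInd).mpr h))]
      have e1 : ∀ b, upd T b v I = I := by
        intro b
        unfold upd
        rw [Bool.not_eq_true _ |>.mp hc, cond_false]
      rw [e1, e1]
      ring

/-- the state of the run stays independent -/
theorem run_inv (hT : LS T) (P : X → Prop) (w : List X) : ∀ s : List Bool × List X × List X,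
    (∀ v ∈ w, P v) →
    (s.2.1.Nodup ∧ Ind T s.2.1.toFinset ∧ ∀ v ∈ s.2.1, P v) →
    (s.2.2.Nodup ∧ Ind T s.2.2.toFinset ∧ ∀ v ∈ s.2.2, P v) →
    ((w.foldl (stp T) s).2.2.Nodup ∧ Ind T (w.foldl (stp T) s).2.2.toFinset ∧
      ∀ v ∈ (w.foldl (stp T) s).2.2, P v) := by
  induction w with
  | nil => intro s _ _ h; exact h
  | cons v w ih =>
    intro s hP h1 h2
    rw [List.foldl_cons]
    have h3 : (upd T (s.1.headD false) v s.2.1).Nodup ∧
        Ind T (upd T (s.1.headD false) v s.2.1).toFinset ∧
        ∀ u ∈ upd T (s.1.headD false) v s.2.1, P u := by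
      refine ⟨upd_nodup h1.1, upd_ind hT h1.2.1, fun u hu => ?_⟩
      rcases upd_sub hu with h | h
      · rw [h]; exact hP v List.mem_cons_self
      · exact h1.2.2 u h
    apply ih _ (fun u hu => hP u (List.mem_cons_of_mem _ hu))
    · exact h3
    · simp only [stp]
      rcases lg_cases s.2.2 (upd T (s.1.headD false) v s.2.1) with h | h
      · rw [h]; exact h3
      · rw [h]; exact h2

/-! ### The attempt -/

theorem sst_inv (j : ℕ) (P : X → Prop) (V : List X) : ∀ s : List Bool × List X,
    (∀ v ∈ V, P v) → (∀ v ∈ s.2, P v) → ∀ v ∈ (V.foldl (sst j) s).2, P v := by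
  induction V with
  | nil => intro s _ h; exact h
  | cons u V ih =>
    intro s h1 h2
    rw [List.foldl_cons]
    apply ih _ fun v hv => h1 v (List.mem_cons_of_mem _ hv)
    simp only [sst]
    cases (tk^[j] (s.1, true)).2
    · exact h2
    · intro v hv
      rcases List.mem_cons.mp hv with h | h
      · rw [h]; exact h1 u List.mem_cons_self
      · exact h2 v h

/-- a failed attempt is unlikely -/
theorem att_fail (hT : LS T) (V : List X) (hV : V.Nodup) {t m k K j n q : ℕ}
    (hcod : ∀ a b, ((V.toFinset.filter fun c => T a b c = true).card : ℝ) ≤ t) (hk : 0 < k)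
    (h1 : (2 : ℝ) ^ (20 * k) ≤ t * V.length * ((1 / 2) ^ j) ^ 2)
    (h2 : t * V.length * ((1 / 2) ^ j) ^ 2 ≤ (2 : ℝ) ^ (22 * k))
    (h3 : (2 : ℝ) ^ (120 * k) ≤ (1 / 2) ^ j * V.length)
    (hm : 42000 * (m : ℝ) ^ 2 * t ≤ k * V.length) (hVn : V.length ≤ n)
    (hkn : (2 : ℝ) ^ (8 * k) ≤ n) (hK : K = 64 * n * (12000 * n ^ 3) ^ 2)
    (hq : j * V.length + K * n ≤ q) :
    bav q (fun l => short m ((List.replicate K (V.foldl (sst j) (l, [])).2).flatten.foldl (stp T)
      ((V.foldl (sst j) (l, [])).1, [], [])).2.2) ≤ 4 / 50 := by
  classical
  obtain ⟨c, rfl⟩ : ∃ c, q = j * V.length + c := ⟨q - j * V.length, by omega⟩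
  have hc : K * n ≤ c := by omega
  have hn1 : (1 : ℝ) ≤ n := le_trans (one_le_pow₀ (by norm_num)) hkn
  have hn0 : 0 < n := by
    have : (0 : ℝ) < n := by linarith
    exact_mod_cast this
  set H : Finset X → ℝ := fun R => 1 / 50 + (if GoodR T R m k then (0 : ℝ) else 1) with hH
  have hInd0 : Ind T (([] : List X).toFinset) := by intro a ha; simp at ha
  have key : ∀ acc' : List X, acc'.Nodup → (∀ v ∈ acc', v ∈ V ∨ v ∈ ([] : List X)) →
      bav c (fun l => short m ((List.replicate K acc').flatten.foldl (stp T)
        (l, [], [])).2.2) ≤ H acc'.toFinset := by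
    intro w hw hwV
    have hwc : w.toFinset.card = w.length := List.toFinset_card_of_nodup hw
    have hwn : w.length ≤ n := by
      rw [← hwc]
      refine le_trans ?_ hVn
      rw [← List.toFinset_card_of_nodup hV]
      apply card_le_card
      intro v hv
      rw [List.mem_toFinset] at hv ⊢
      rcases hwV v hv with h | h
      · exact h
      · simp at h
    rw [bav_run hT m _ c [] [] ?_ List.nodup_nil hInd0 (Nat.zero_le _)]
    · by_cases hg : GoodR T w.toFinset m k
      · simp only [hH, if_pos hg, add_zero]
        have hS : 0 < (12000 * n ^ 3) ^ 2 := by positivity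
        have hS2 : ((w.toFinset.card : ℝ) + 2) * (4 * w.toFinset.card /
            √(((12000 * n ^ 3) ^ 2 : ℕ) : ℝ)) ≤ 1 / (1000 * 2 ^ (8 * k)) := by
          rw [hwc]
          have e1 : √(((12000 * n ^ 3) ^ 2 : ℕ) : ℝ) = 12000 * (n : ℝ) ^ 3 := by
            push_cast
            rw [Real.sqrt_sq (by positivity)]
          rw [e1, mul_div_assoc', div_le_div_iff₀ (by positivity) (by positivity), one_mul]
          have e2 : (w.length : ℝ) ≤ n := by exact_mod_cast hwn
          have e3 : (w.length : ℝ) + 2 ≤ 3 * n := by linarith
          have e4 : (0 : ℝ) ≤ w.length := Nat.cast_nonneg _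
          calc ((w.length : ℝ) + 2) * (4 * w.length) * (1000 * 2 ^ (8 * k)) ≤
                (3 * n) * (4 * n) * (1000 * n) := by
                apply mul_le_mul _ _ (by positivity) (by positivity)
                · apply mul_le_mul e3 (by linarith) (by positivity) (by positivity)
                · linarith
            _ = 12000 * (n : ℝ) ^ 3 := by ring
        have hph := phases hT hg w (fun v => by rw [List.mem_toFinset]) hwc.symm hS hS2 (64 * n)
          ∅ (mem_Om.mpr ⟨empty_subset _, hInd0⟩) (by simp)
        rw [← hK] at hph
        rw [List.toFinset_nil]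
        refine hph.trans ?_
        -- numerics
        have hL : (1 : ℝ) ≤ 2 ^ (8 * k) := one_le_pow₀ (by norm_num)
        have f1 : 1 - 1 / (16 * (2 : ℝ) ^ (8 * k)) ≤ Real.exp (-(1 / (16 * (2 : ℝ) ^ (8 * k)))) := by
          have := Real.add_one_le_exp (-(1 / (16 * (2 : ℝ) ^ (8 * k))))
          linarith
        have f0 : 0 ≤ 1 - 1 / (16 * (2 : ℝ) ^ (8 * k)) := by
          rw [sub_nonneg, div_le_one (by positivity)]
          linarith
        refine (pow_le_pow_left₀ f0 f1 _).trans ?_
        rw [← Real.exp_nat_mul]
        have f2 : ((64 * n : ℕ) : ℝ) * -(1 / (16 * (2 : ℝ) ^ (8 * k))) ≤ -4 := by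
          push_cast
          rw [mul_neg, neg_le_neg_iff, mul_one_div, le_div_iff₀ (by positivity)]
          linarith
        refine (Real.exp_le_exp.mpr f2).trans ?_
        rw [Real.exp_neg]
        have f3 : (50 : ℝ) ≤ Real.exp 4 := by
          have := Real.exp_one_gt_d9
          have h3 : Real.exp 4 = Real.exp 1 ^ 4 := by rw [← Real.exp_nat_mul]; norm_num
          rw [h3]
          calc (50 : ℝ) ≤ (2.7182818283 : ℝ) ^ 4 := by norm_num
            _ ≤ Real.exp 1 ^ 4 := pow_le_pow_left₀ (by norm_num) this.le 4
        rw [one_div]
        exact inv_anti₀ (by norm_num) f3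
      · simp only [hH, if_neg hg]
        have := nh_le_one (T := T) m (List.replicate K w).flatten ([] : List X).toFinset
        linarith
    · rw [List.length_flatten, List.map_replicate, List.sum_replicate, smul_eq_mul]
      exact (Nat.mul_le_mul_left K hwn).trans hc
  have h4 := bav_sample j c (fun l w => short m ((List.replicate K w).flatten.foldl (stp T)
    (l, [], [])).2.2) H V [] hV List.nodup_nil (by simp) key
  refine h4.trans ?_
  simp only [List.toFinset_nil, union_empty]
  rw [hH]
  rw [Es_add, Es_const]
  have h5 := sample_good (p := (1 / 2) ^ j) hT V hV (by positivity)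
    (pow_le_one₀ (by norm_num) (by norm_num)) hcod hk h1 h2 h3 hm
    (fun R => GoodR T R m k) (fun R h => h)
  linarith

end Pool.Agent.Work.MP_a23c49_lc
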