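import Pool.Agent.Work.MP_013ca9_lc_F.Binary

/-!
# Polynomial-time arithmetic on bit strings, and the collinearity test
-/

namespace Pool.Agent.Work.MP_a23c49_lc

open Turing Polynomial TMLib
open Pool.Agent.Work.MP_013ca9_lc_F (addB PolyF.addB' sz_tail_le)

set_option linter.unusedSimpArgs false

variable {α β γ δ : Type} [DE α] [DE β] [DE γ] [DE δ]

/-- the value of a bit string, least significant bit first -/
def bv : List Bool → ℕ
  | [] => 0
  | b :: l => b.toNat + 2 * bv l

theorem bv_bits (n : ℕ) : bv n.bits = n := by
  induction n using Nat.binaryRec' with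
  | zero => simp [bv]
  | bit b n h ih =>
    rw [Nat.bits_append_bit n b h]
    simp only [bv, ih]
    cases b <;> simp [Nat.bit] <;> ring

theorem bv_headD_tail (l : List Bool) : bv l = (l.headD false).toNat + 2 * bv l.tail := by
  cases l <;> simp [bv]

theorem bv_addc (c : Bool) (l : List Bool) : bv (addc c l) = bv l + c.toNat := by
  induction l generalizing c with
  | nil => cases c <;> simp [addc, bv]
  | cons b l ih =>
    simp only [addc, bv, ih]
    cases b <;> cases c <;> simp <;> ring

theorem bv_addB (l' : List Bool) : ∀ (c : Bool) (l : List Bool),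
    bv (addB c l' l) = bv l' + bv l + c.toNat := by
  induction l' with
  | nil => intro c l; simp [addB, bv_addc, bv]
  | cons b l' ih =>
    intro c l
    simp only [addB, bv, ih]
    rw [bv_headD_tail l]
    generalize l.headD false = y
    generalize bv l.tail = k
    cases b <;> cases y <;> cases c <;> simp <;> ring

theorem length_addc (c : Bool) (l : List Bool) : (addc c l).length ≤ l.length + 1 := by
  induction l generalizing c with
  | nil => cases c <;> simp [addc]
  | cons b l ih => simp only [addc, List.length_cons]; have := ih (c && b); omega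

theorem length_addB (l' : List Bool) : ∀ (c : Bool) (l : List Bool),
    (addB c l' l).length ≤ l'.length + l.length + 1 := by
  induction l' with
  | nil => intro c l; simp only [addB, List.length_nil]; have := length_addc c l; omega
  | cons b l' ih =>
    intro c l
    simp only [addB, List.length_cons]
    have := ih ((c && b) || (c && l.headD false) || (b && l.headD false)) l.tail
    have h2 : l.tail.length ≤ l.length := by simp
    omega

theorem sz_boolList_le (l : List Bool) : sz l ≤ 4 * l.length + 1 := by
  induction l with
  | nil => simp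
  | cons b l ih =>
    have := sz_bool_le b
    simp only [sz_cons, List.length_cons]
    omega

theorem length_le_sz (l : List Bool) : l.length ≤ sz l := (length_lt_sz l).le

@[fun_prop]
theorem PolyF.addL {f g : α → List Bool} (hf : PolyF f) (hg : PolyF g) :
    PolyF (fun a => addB false (f a) (g a)) :=
  PolyF.comp (f := fun p : List Bool × List Bool => addB false p.1 p.2)
    (g := fun a => (f a, g a)) PolyF.addB' (by fun_prop)

/-- multiplication of bit strings -/
def mulB (a b : List Bool) : List Bool :=
  a.reverse.foldl (fun acc x => addB false (false :: acc) (bif x then b else [])) []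

theorem bv_mulB (a b : List Bool) : bv (mulB a b) = bv a * bv b := by
  unfold mulB
  induction a with
  | nil => simp [bv]
  | cons x a ih =>
    rw [List.reverse_cons, List.foldl_append]
    simp only [List.foldl_cons, List.foldl_nil]
    rw [bv_addB]
    simp only [bv] at ih ⊢
    rw [ih]
    cases x
    · simp [bv]; ring
    · simp [bv]; ring

@[fun_prop]
theorem PolyF.mulL {f g : α → List Bool} (hf : PolyF f) (hg : PolyF g) :
    PolyF (fun a => mulB (f a) (g a)) := by
  have h : PolyF (fun p : List Bool × List Bool => mulB p.1 p.2) := by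
    unfold mulB
    refine PolyF.foldl (l := fun p : List Bool × List Bool => p.1.reverse)
      (g := fun _ => ([] : List Bool))
      (h := fun p acc x => addB false (false :: acc) (bif x then p.2 else []))
      (by fun_prop) (by fun_prop) (by fun_prop) (4 * (X * (X + 2)) + 1) ?_
    intro p j hj
    refine (sz_boolList_le _).trans ?_
    have key : ∀ (w : List Bool) (acc : List Bool), (w.foldl (fun acc x =>
        addB false (false :: acc) (bif x then p.2 else [])) acc).length ≤
        acc.length + w.length * (p.2.length + 2) := by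
      intro w
      induction w with
      | nil => intro acc; simp
      | cons x w ih =>
        intro acc
        rw [List.foldl_cons]
        have h1 := ih (addB false (false :: acc) (bif x then p.2 else []))
        have h2 := length_addB (false :: acc) false (bif x then p.2 else [])
        have h3 : (bif x then p.2 else []).length ≤ p.2.length := by cases x <;> simp
        simp only [List.length_cons] at h2 ⊢
        rw [Nat.succ_mul]
        omega
    have h1 := key (p.1.reverse.take j) []
    have h2 : (p.1.reverse.take j).length ≤ sz p := by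
      have := length_le_sz p.1
      simp
      omega
    have h3 : p.2.length ≤ sz p := by
      have := length_le_sz p.2
      simp
      omega
    have h4 : (p.1.reverse.take j).length * (p.2.length + 2) ≤ sz p * (sz p + 2) :=
      Nat.mul_le_mul h2 (by omega)
    simp only [List.length_nil, zero_add] at h1
    simp only [eval_add, eval_mul, eval_ofNat, eval_X, eval_one]
    omega
  exact PolyF.comp (f := fun p : List Bool × List Bool => mulB p.1 p.2)
    (g := fun a => (f a, g a)) h (by fun_prop)

/-- a step of the comparison -/
def cmpS (s : List Bool × Bool) (b : Bool) : List Bool × Bool :=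
  (s.1.tail, s.2 && decide (b = s.1.headD false))

/-- comparison of the values of bit strings -/
def eqB (a b : List Bool) : Bool :=
  (a.foldl cmpS (b, true)).2 && (a.foldl cmpS (b, true)).1.all fun x => !x

theorem bv_eq_zero (l : List Bool) : (l.all fun x => !x) = true ↔ bv l = 0 := by
  induction l with
  | nil => simp [bv]
  | cons b l ih =>
    simp only [List.all_cons, Bool.and_eq_true, ih, bv]
    cases b <;> simp

theorem cmpS_fold (a : List Bool) : ∀ (r : List Bool) (f : Bool),
    ((a.foldl cmpS (r, f)).2 && (a.foldl cmpS (r, f)).1.all fun x => !x) =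
      (f && decide (bv a = bv r)) := by
  induction a with
  | nil =>
    intro r f
    simp only [List.foldl_nil]
    congr 1
    rw [Bool.eq_iff_iff, bv_eq_zero, decide_eq_true_iff]
    exact eq_comm
  | cons b a ih =>
    intro r f
    rw [List.foldl_cons]
    simp only [cmpS]
    rw [ih, Bool.and_assoc]
    congr 1
    rw [bv_headD_tail r]
    simp only [bv]
    generalize r.headD false = y
    generalize bv r.tail = k
    rw [Bool.eq_iff_iff]
    simp only [Bool.and_eq_true, decide_eq_true_iff]
    cases b <;> cases y <;> simp <;> omega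

theorem eqB_eq (a b : List Bool) : eqB a b = decide (bv a = bv b) := by
  unfold eqB
  rw [cmpS_fold]
  simp

@[fun_prop]
theorem PolyF.eqL {f g : α → List Bool} (hf : PolyF f) (hg : PolyF g) :
    PolyF (fun a => eqB (f a) (g a)) := by
  have h1 : PolyF (fun p : List Bool × List Bool => p.1.foldl cmpS (p.2, true)) := by
    refine PolyF.foldl_add (l := fun p : List Bool × List Bool => p.1)
      (g := fun p => (p.2, true)) (h := fun _ s b => cmpS s b)
      (by fun_prop) (by fun_prop) (by unfold cmpS; fun_prop) 8 ?_
    intro p s b _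
    have h2 := sz_bool_le (s.2 && decide (b = s.1.headD false))
    have h3 := sz_tail_le s.1
    have h4 := sz_pos s.2
    simp only [cmpS, sz_pair, eval_ofNat]
    omega
  have h : PolyF (fun p : List Bool × List Bool => eqB p.1 p.2) := by
    unfold eqB
    refine PolyF.and (by fun_prop) ?_
    exact PolyF.all (l := fun p : List Bool × List Bool => (p.1.foldl cmpS (p.2, true)).1)
      (f := fun _ x => !x) (by fun_prop) (by fun_prop)
  exact PolyF.comp (f := fun p : List Bool × List Bool => eqB p.1 p.2)
    (g := fun a => (f a, g a)) h (by fun_prop)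

/-! ### Integers as differences -/

/-- integers are represented as differences of natural numbers -/
abbrev ZB := List Bool × List Bool

/-- the value -/
def zv (p : ZB) : ℤ := (bv p.1 : ℤ) - bv p.2

/-- subtraction -/
def subZ (p q : ZB) : ZB := (addB false p.1 q.2, addB false p.2 q.1)

/-- addition -/
def addZ (p q : ZB) : ZB := (addB false p.1 q.1, addB false p.2 q.2)

/-- multiplication -/
def mulZ (p q : ZB) : ZB :=
  (addB false (mulB p.1 q.1) (mulB p.2 q.2), addB false (mulB p.1 q.2) (mulB p.2 q.1))

theorem zv_subZ (p q : ZB) : zv (subZ p q) = zv p - zv q := by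
  simp only [zv, subZ, bv_addB]; push_cast; simp; ring

theorem zv_addZ (p q : ZB) : zv (addZ p q) = zv p + zv q := by
  simp only [zv, addZ, bv_addB]; push_cast; simp; ring

theorem zv_mulZ (p q : ZB) : zv (mulZ p q) = zv p * zv q := by
  simp only [zv, mulZ, bv_addB, bv_mulB]; push_cast; simp; ring

@[fun_prop]
theorem PolyF.subZ {f g : α → ZB} (hf : PolyF f) (hg : PolyF g) :
    PolyF (fun a => subZ (f a) (g a)) := by
  unfold MP_a23c49_lc.subZ; fun_prop

@[fun_prop]
theorem PolyF.addZ {f g : α → ZB} (hf : PolyF f) (hg : PolyF g) :
    PolyF (fun a => addZ (f a) (g a)) := by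
  unfold MP_a23c49_lc.addZ; fun_prop

@[fun_prop]
theorem PolyF.mulZ {f g : α → ZB} (hf : PolyF f) (hg : PolyF g) :
    PolyF (fun a => mulZ (f a) (g a)) := by
  unfold MP_a23c49_lc.mulZ; fun_prop

/-! ### Raw points -/

/-- raw points: the numerator of the first coordinate (positive and negative part), its
denominator, and the same for the second coordinate -/
abbrev RP := List (List Bool)

/-- homogeneous coordinates -/
def hX (r : RP) : ZB := mulZ (r.getD 0 [], r.getD 1 []) (r.getD 5 [], [])
def hY (r : RP) : ZB := mulZ (r.getD 3 [], r.getD 4 []) (r.getD 2 [], [])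
def hZ (r : RP) : ZB := mulZ (r.getD 2 [], []) (r.getD 5 [], [])

@[fun_prop]
theorem PolyF.hX {f : α → RP} (hf : PolyF f) : PolyF (fun a => hX (f a)) := by
  unfold MP_a23c49_lc.hX; fun_prop
@[fun_prop]
theorem PolyF.hY {f : α → RP} (hf : PolyF f) : PolyF (fun a => hY (f a)) := by
  unfold MP_a23c49_lc.hY; fun_prop
@[fun_prop]
theorem PolyF.hZ {f : α → RP} (hf : PolyF f) : PolyF (fun a => hZ (f a)) := by
  unfold MP_a23c49_lc.hZ; fun_prop

/-- the determinant -/
def detR (r s t : RP) : ZB :=
  addZ (subZ (mulZ (hX r) (subZ (mulZ (hY s) (hZ t)) (mulZ (hY t) (hZ s))))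
    (mulZ (hY r) (subZ (mulZ (hX s) (hZ t)) (mulZ (hX t) (hZ s)))))
    (mulZ (hZ r) (subZ (mulZ (hX s) (hY t)) (mulZ (hX t) (hY s))))

/-- the collinearity test -/
def colR (r s t : RP) : Bool := eqB (detR r s t).1 (detR r s t).2

@[fun_prop]
theorem PolyF.colR {f g h : α → RP} (hf : PolyF f) (hg : PolyF g) (hh : PolyF h) :
    PolyF (fun a => colR (f a) (g a) (h a)) := by
  unfold MP_a23c49_lc.colR MP_a23c49_lc.detR; fun_prop

/-- the raw form of a rational number -/
def rawQ (x : ℚ) : List (List Bool) := [x.num.toNat.bits, (-x.num).toNat.bits, x.den.bits]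

/-- the raw form of a rational point -/
def rawP (p : ℚ × ℚ) : RP := rawQ p.1 ++ rawQ p.2

theorem colR_raw (p q r : ℚ × ℚ) : colR (rawP p) (rawP q) (rawP r) =
    decide ((q.1 - p.1) * (r.2 - p.2) = (r.1 - p.1) * (q.2 - p.2)) := by
  unfold colR
  rw [eqB_eq]
  have h1 : (bv (detR (rawP p) (rawP q) (rawP r)).1 = bv (detR (rawP p) (rawP q) (rawP r)).2) ↔
      zv (detR (rawP p) (rawP q) (rawP r)) = 0 := by
    unfold zv
    rw [sub_eq_zero]
    exact_mod_cast Iff.rfl
  have hz : ∀ n : ℤ, ((n.toNat : ℤ) : ℚ) - (((-n).toNat : ℤ) : ℚ) = n := by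
    intro n
    have : (n.toNat : ℤ) - ((-n).toNat : ℤ) = n := Int.toNat_sub_toNat_neg n
    exact_mod_cast this
  have hx : ∀ p : ℚ × ℚ, ((zv (hX (rawP p)) : ℤ) : ℚ) = p.1 * (p.1.den * p.2.den) := by
    intro p
    unfold hX
    rw [zv_mulZ]
    simp only [zv, rawP, rawQ, List.cons_append, List.nil_append, List.getD_cons_zero,
      List.getD_cons_succ, bv_bits, bv]
    push_cast
    have h2 := hz p.1.num
    have h3 : p.1 * p.1.den = p.1.num := Rat.mul_den_eq_num p.1
    push_cast at h2
    rw [h2, sub_zero]
    linear_combination -(p.2.den : ℚ) * h3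
  have hy : ∀ p : ℚ × ℚ, ((zv (hY (rawP p)) : ℤ) : ℚ) = p.2 * (p.1.den * p.2.den) := by
    intro p
    unfold hY
    rw [zv_mulZ]
    simp only [zv, rawP, rawQ, List.cons_append, List.nil_append, List.getD_cons_zero,
      List.getD_cons_succ, bv_bits, bv]
    push_cast
    have h2 := hz p.2.num
    have h3 : p.2 * p.2.den = p.2.num := Rat.mul_den_eq_num p.2
    push_cast at h2
    rw [h2, sub_zero]
    linear_combination -(p.1.den : ℚ) * h3
  have hw : ∀ p : ℚ × ℚ, ((zv (hZ (rawP p)) : ℤ) : ℚ) = (p.1.den * p.2.den) := by
    intro p
    unfold hZ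
    rw [zv_mulZ]
    simp only [zv, rawP, rawQ, List.cons_append, List.nil_append, List.getD_cons_zero,
      List.getD_cons_succ, bv_bits, bv]
    push_cast
    simp
  have h2 : ((zv (detR (rawP p) (rawP q) (rawP r)) : ℤ) : ℚ) =
      (p.1.den * p.2.den) * (q.1.den * q.2.den) * (r.1.den * r.2.den) *
      ((q.1 - p.1) * (r.2 - p.2) - (r.1 - p.1) * (q.2 - p.2)) := by
    unfold detR
    simp only [zv_addZ, zv_subZ, zv_mulZ]
    push_cast
    simp only [hx, hy, hw]
    ring
  congr 1
  rw [h1, eq_iff_iff, ← Int.cast_eq_zero (α := ℚ), h2, mul_eq_zero, sub_eq_zero]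
  constructor
  · rintro (h | h)
    · exfalso
      have hp : ∀ x : ℚ, (x.den : ℚ) ≠ 0 := fun x => by exact_mod_cast x.den_nz
      revert h
      simp only [ne_eq, mul_eq_zero, hp, or_self, not_false_eq_true, imp_false]
    · exact h
  · exact Or.inr

end Pool.Agent.Work.MP_a23c49_lc
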