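import Mathlib

/-!
# Single-site dynamics on independent sets, and an entropy argument

`T a b c = true` means that the distinct points `a, b, c` are collinear.
-/

namespace Pool.Agent.Work.MP_a23c49_lc

open Finset

set_option linter.unusedSectionVars false

variable {X : Type} [DecidableEq X] (T : X → X → X → Bool)

/-- `T` has the properties of collinearity of three distinct points. -/
structure LS : Prop where
  swap12 : ∀ a b c, T a b c = T b a c
  swap23 : ∀ a b c, T a b c = T a c b
  ne : ∀ a b c, T a b c = true → a ≠ b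
  trans : ∀ a b c d, T a b c = true → T a b d = true → c ≠ d → T a c d = true

/-- no three points of `I` are collinear -/
def Ind (I : Finset X) : Prop := ∀ a ∈ I, ∀ b ∈ I, ∀ c ∈ I, T a b c = false

instance (I : Finset X) : Decidable (Ind T I) := by unfold Ind; infer_instance

variable {T}

theorem Ind.subset {I J : Finset X} (h : Ind T I) (hJ : J ⊆ I) : Ind T J :=
  fun a ha b hb c hc => h a (hJ ha) b (hJ hb) c (hJ hc)

variable (T)

/-- the states: independent subsets of `R` -/
def Om (R : Finset X) : Finset (Finset X) := R.powerset.filter (Ind T)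

variable {T}

theorem mem_Om {R I : Finset X} : I ∈ Om T R ↔ I ⊆ R ∧ Ind T I := by
  simp [Om]

variable (T)

/-- the averaging operator of the update at `v`; it acts on laws and on functions -/
noncomputable def Kv (v : X) (F : Finset X → ℝ) (I : Finset X) : ℝ :=
  if Ind T (insert v I) then (F (I.erase v) + F (insert v I)) / 2 else F I

variable {T}

variable {R : Finset X} {v : X}

/-- states that can be enlarged by `v` -/
noncomputable def Aset (T : X → X → X → Bool) (R : Finset X) (v : X) : Finset (Finset X) :=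
  (Om T R).filter fun J => v ∉ J ∧ Ind T (insert v J)

/-- states that are fixed by the update -/
noncomputable def Bset (T : X → X → X → Bool) (R : Finset X) (v : X) : Finset (Finset X) :=
  (Om T R).filter fun J => ¬ Ind T (insert v J)

theorem sum_split (hv : v ∈ R) (G : Finset X → ℝ) :
    ∑ I ∈ Om T R, G I = ∑ J ∈ Aset T R v, (G J + G (insert v J)) + ∑ J ∈ Bset T R v, G J := by
  classical
  have h1 : ∑ J ∈ Aset T R v, G (insert v J) =
      ∑ I ∈ (Om T R).filter (fun I => v ∈ I), G I := by
    apply sum_bij (fun J _ => insert v J)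
    · intro J hJ
      unfold Aset at hJ
      rw [mem_filter, mem_Om] at hJ
      rw [mem_filter, mem_Om]
      exact ⟨⟨insert_subset hv hJ.1.1, hJ.2.2⟩, mem_insert_self _ _⟩
    · intro J hJ J' hJ' h
      unfold Aset at hJ hJ'
      rw [mem_filter] at hJ hJ'
      rw [← erase_insert hJ.2.1, ← erase_insert hJ'.2.1, h]
    · intro I hI
      rw [mem_filter, mem_Om] at hI
      refine ⟨I.erase v, ?_, insert_erase hI.2⟩
      unfold Aset
      rw [mem_filter, mem_Om]
      refine ⟨⟨(erase_subset _ _).trans hI.1.1, hI.1.2.subset (erase_subset _ _)⟩,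
        notMem_erase _ _, ?_⟩
      rw [insert_erase hI.2]
      exact hI.1.2
    · intro J _; rfl
  have h2 : ∑ I ∈ Om T R, G I = ∑ I ∈ (Om T R).filter (fun I => v ∈ I), G I +
      ∑ I ∈ (Om T R).filter (fun I => ¬ v ∈ I), G I := (sum_filter_add_sum_filter_not _ _ _).symm
  have h3 : ∑ I ∈ (Om T R).filter (fun I => ¬ v ∈ I), G I =
      ∑ J ∈ Aset T R v, G J + ∑ J ∈ Bset T R v, G J := by
    rw [← sum_filter_add_sum_filter_not ((Om T R).filter (fun I => ¬ v ∈ I))
      (fun J => Ind T (insert v J))]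
    congr 1
    · apply sum_congr _ fun _ _ => rfl
      unfold Aset
      rw [filter_filter]
    · apply sum_congr _ fun _ _ => rfl
      unfold Bset
      rw [filter_filter]
      apply filter_congr
      intro J hJ
      rw [mem_Om] at hJ
      constructor
      · exact fun h => h.2
      · intro h
        refine ⟨fun hvJ => h ?_, h⟩
        rw [insert_eq_self.mpr hvJ]
        exact hJ.2
  rw [h2, h3, sum_add_distrib, h1]
  ring

theorem Kv_A {J : Finset X} (hJ : J ∈ Aset T R v) (F : Finset X → ℝ) :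
    Kv T v F J = (F J + F (insert v J)) / 2 := by
  unfold Aset at hJ
  rw [mem_filter] at hJ
  unfold Kv
  rw [if_pos hJ.2.2, erase_eq_of_notMem hJ.2.1]

theorem Kv_A' {J : Finset X} (hJ : J ∈ Aset T R v) (F : Finset X → ℝ) :
    Kv T v F (insert v J) = (F J + F (insert v J)) / 2 := by
  unfold Aset at hJ
  rw [mem_filter] at hJ
  unfold Kv
  rw [insert_idem, if_pos hJ.2.2, erase_insert hJ.2.1]

theorem Kv_B {J : Finset X} (hJ : J ∈ Bset T R v) (F : Finset X → ℝ) :
    Kv T v F J = F J := by
  unfold Bset at hJ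
  rw [mem_filter] at hJ
  unfold Kv
  rw [if_neg hJ.2]

theorem Kv_adj (hv : v ∈ R) (μ F : Finset X → ℝ) :
    ∑ I ∈ Om T R, Kv T v μ I * F I = ∑ I ∈ Om T R, μ I * Kv T v F I := by
  rw [sum_split hv, sum_split hv]
  congr 1
  · apply sum_congr rfl
    intro J hJ
    rw [Kv_A hJ, Kv_A' hJ, Kv_A hJ, Kv_A' hJ]
    ring
  · apply sum_congr rfl
    intro J hJ
    rw [Kv_B hJ, Kv_B hJ]

/-- the `ℓ¹` norm -/
noncomputable def nrm (T : X → X → X → Bool) (R : Finset X) (f : Finset X → ℝ) : ℝ :=
  ∑ I ∈ Om T R, |f I|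

theorem nrm_nonneg (f : Finset X → ℝ) : 0 ≤ nrm T R f := sum_nonneg fun _ _ => abs_nonneg _

theorem nrm_add_le (f g : Finset X → ℝ) : nrm T R (fun I => f I + g I) ≤ nrm T R f + nrm T R g := by
  unfold nrm
  rw [← sum_add_distrib]
  exact sum_le_sum fun I _ => abs_add_le _ _

theorem nrm_Kv_le (hv : v ∈ R) (f : Finset X → ℝ) : nrm T R (Kv T v f) ≤ nrm T R f := by
  unfold nrm
  rw [sum_split hv, sum_split hv]
  apply add_le_add
  · apply sum_le_sum
    intro J hJ
    rw [Kv_A hJ, Kv_A' hJ]
    have h1 := abs_add_le (f J) (f (insert v J))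
    rw [abs_div, abs_two]
    linarith
  · apply sum_le_sum
    intro J hJ
    rw [Kv_B hJ]

theorem Kv_sub (f g : Finset X → ℝ) (I : Finset X) :
    Kv T v (fun I => f I - g I) I = Kv T v f I - Kv T v g I := by
  unfold Kv
  split_ifs <;> ring

theorem Kv_nonneg {f : Finset X → ℝ} (hf : ∀ I, 0 ≤ f I) (I : Finset X) : 0 ≤ Kv T v f I := by
  unfold Kv
  split_ifs
  · have h1 := hf (I.erase v)
    have h2 := hf (insert v I)
    linarith
  · exact hf I

theorem Kv_le {f : Finset X → ℝ} {c : ℝ} (hf : ∀ I, f I ≤ c) (I : Finset X) : Kv T v f I ≤ c := by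
  unfold Kv
  split_ifs
  · have h1 := hf (I.erase v)
    have h2 := hf (insert v I)
    linarith
  · exact hf I

theorem Kv_mono {f g : Finset X → ℝ} (hf : ∀ I, f I ≤ g I) (I : Finset X) :
    Kv T v f I ≤ Kv T v g I := by
  unfold Kv
  split_ifs
  · have h1 := hf (I.erase v)
    have h2 := hf (insert v I)
    linarith
  · exact hf I

theorem sum_Kv (hv : v ∈ R) (μ : Finset X → ℝ) :
    ∑ I ∈ Om T R, Kv T v μ I = ∑ I ∈ Om T R, μ I := by
  rw [sum_split hv, sum_split hv]
  congr 1
  · apply sum_congr rfl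
    intro J hJ
    rw [Kv_A hJ, Kv_A' hJ]
    ring
  · apply sum_congr rfl
    intro J hJ
    rw [Kv_B hJ]

/-- the scalar inequality behind the entropy argument -/
theorem gain {x y : ℝ} (hx : 0 ≤ x) (hy : 0 ≤ y) (l : ℝ) :
    l * |x - y| - l ^ 2 * (x + y) ≤
      2 * Real.negMulLog ((x + y) / 2) - Real.negMulLog x - Real.negMulLog y := by
  rcases (add_nonneg hx hy).eq_or_lt with hs | hs
  · have hx0 : x = 0 := by linarith
    have hy0 : y = 0 := by linarith
    subst hx0; subst hy0
    simp
  set s := x + y with hsdef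
  have key : ∀ z : ℝ, 0 ≤ z → 2 * z - √(2 * s) * √z ≤ z * Real.log z - z * Real.log (s / 2) := by
    intro z hz
    rcases hz.eq_or_lt with h0 | h0
    · rw [← h0]; simp
    · set w := √(2 * s) / (2 * √z) with hw
      have hsz : 0 < √z := Real.sqrt_pos.mpr h0
      have hss : 0 < √(2 * s) := Real.sqrt_pos.mpr (by linarith)
      have hwpos : 0 < w := by positivity
      have h1 := Real.log_le_sub_one_of_pos hwpos
      have h2 : w ^ 2 = (s / 2) / z := by
        rw [hw, div_pow, mul_pow, Real.sq_sqrt (by linarith), Real.sq_sqrt hz]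
        field_simp
      have h3 : Real.log (s / 2) - Real.log z = 2 * Real.log w := by
        rw [← Real.log_div (by positivity) h0.ne', ← h2, Real.log_pow]
        push_cast
        ring
      have h4 : z * w = √(2 * s) * √z / 2 := by
        rw [hw]
        have : z = √z * √z := (Real.mul_self_sqrt hz).symm
        field_simp
        nlinarith [Real.mul_self_sqrt hz]
      have h5 : z * Real.log z - z * Real.log (s / 2) = -(2 * (z * Real.log w)) := by
        have : z * Real.log (s / 2) - z * Real.log z = z * (2 * Real.log w) := by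
          rw [← mul_sub, h3]
        linarith
      rw [h5]
      have h6 := mul_le_mul_of_nonneg_left h1 hz
      nlinarith
  have kx := key x hx
  have ky := key y hy
  set a := √x with ha
  set b := √y with hb
  have ha0 : 0 ≤ a := Real.sqrt_nonneg x
  have hb0 : 0 ≤ b := Real.sqrt_nonneg y
  have hxa : x = a ^ 2 := (Real.sq_sqrt hx).symm
  have hyb : y = b ^ 2 := (Real.sq_sqrt hy).symm
  set w := √(2 * s) with hw
  have hw0 : 0 < w := Real.sqrt_pos.mpr (by linarith)
  have hw2 : w ^ 2 = 2 * (a ^ 2 + b ^ 2) := by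
    rw [hw, Real.sq_sqrt (by linarith), hsdef, ← hxa, ← hyb]
  have hwab : a + b ≤ w := by
    apply le_of_sq_le_sq _ hw0.le
    rw [hw2]
    nlinarith [sq_nonneg (a - b)]
  have h1 : 2 * Real.negMulLog (s / 2) - Real.negMulLog x - Real.negMulLog y =
      (x * Real.log x - x * Real.log (s / 2)) + (y * Real.log y - y * Real.log (s / 2)) := by
    unfold Real.negMulLog
    rw [hsdef]
    ring
  have h2 : (a - b) ^ 2 / 2 ≤ w * (w - (a + b)) := by
    have h3 : (a - b) ^ 2 = (w - (a + b)) * (w + (a + b)) := by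
      have : (w - (a + b)) * (w + (a + b)) = w ^ 2 - (a + b) ^ 2 := by ring
      rw [this, hw2]; ring
    rw [h3]
    nlinarith [mul_nonneg (sub_nonneg.mpr hwab) (show 0 ≤ w - (a + b) by linarith)]
  have h3 : l * |x - y| - l ^ 2 * s ≤ (a - b) ^ 2 / 2 := by
    have e1 : |x - y| = |a - b| * (a + b) := by
      rw [hxa, hyb]
      have : a ^ 2 - b ^ 2 = (a - b) * (a + b) := by ring
      rw [this, abs_mul, abs_of_nonneg (by linarith : 0 ≤ a + b)]
    have e2 : s = a ^ 2 + b ^ 2 := by rw [hsdef, ← hxa, ← hyb]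
    rw [e1, e2, ← sq_abs (a - b)]
    set d := |a - b| with hd
    have e3 : d ^ 2 = (a - b) ^ 2 := sq_abs _
    nlinarith [sq_nonneg (d - l * (a + b)), mul_nonneg (sq_nonneg l) (sq_nonneg (a - b))]
  have h4 : w ^ 2 = 2 * x + 2 * y := by rw [hw2, ← hxa, ← hyb]; ring
  rw [h1]
  nlinarith

/-- the entropy of a law -/
noncomputable def Ent (T : X → X → X → Bool) (R : Finset X) (μ : Finset X → ℝ) : ℝ :=
  ∑ I ∈ Om T R, Real.negMulLog (μ I)

theorem Ent_gain (hv : v ∈ R) {μ : Finset X → ℝ} (hμ : ∀ I, 0 ≤ μ I)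
    (h1 : ∑ I ∈ Om T R, μ I = 1) :
    nrm T R (fun I => Kv T v μ I - μ I) ^ 2 ≤ 4 * (Ent T R (Kv T v μ) - Ent T R μ) := by
  have e1 : nrm T R (fun I => Kv T v μ I - μ I) = ∑ J ∈ Aset T R v, |μ J - μ (insert v J)| := by
    unfold nrm
    rw [sum_split hv]
    have : ∑ J ∈ Bset T R v, |Kv T v μ J - μ J| = 0 := by
      apply sum_eq_zero
      intro J hJ
      rw [Kv_B hJ, sub_self, abs_zero]
    rw [this, add_zero]
    apply sum_congr rfl
    intro J hJ
    simp only
    rw [Kv_A hJ, Kv_A' hJ]
    have a1 : (μ J + μ (insert v J)) / 2 - μ J = -((μ J - μ (insert v J)) / 2) := by ring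
    have a2 : (μ J + μ (insert v J)) / 2 - μ (insert v J) = (μ J - μ (insert v J)) / 2 := by ring
    rw [a1, a2, abs_neg, abs_div, abs_two]
    ring
  have e2 : Ent T R (Kv T v μ) - Ent T R μ = ∑ J ∈ Aset T R v,
      (2 * Real.negMulLog ((μ J + μ (insert v J)) / 2) - Real.negMulLog (μ J) -
        Real.negMulLog (μ (insert v J))) := by
    unfold Ent
    rw [sum_split hv, sum_split hv]
    have : ∑ J ∈ Bset T R v, Real.negMulLog (Kv T v μ J) =
        ∑ J ∈ Bset T R v, Real.negMulLog (μ J) := by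
      apply sum_congr rfl
      intro J hJ
      rw [Kv_B hJ]
    rw [this, add_sub_add_right_eq_sub, ← sum_sub_distrib]
    apply sum_congr rfl
    intro J hJ
    rw [Kv_A hJ, Kv_A' hJ]
    ring
  have e3 : ∑ J ∈ Aset T R v, (μ J + μ (insert v J)) ≤ 1 := by
    rw [← h1, sum_split hv]
    have : 0 ≤ ∑ J ∈ Bset T R v, μ J := sum_nonneg fun J _ => hμ J
    linarith
  rw [e1, e2]
  set Δ := ∑ J ∈ Aset T R v, |μ J - μ (insert v J)| with hΔ
  have e4 : ∑ J ∈ Aset T R v, (Δ / 2 * |μ J - μ (insert v J)| -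
      (Δ / 2) ^ 2 * (μ J + μ (insert v J))) ≤ ∑ J ∈ Aset T R v,
      (2 * Real.negMulLog ((μ J + μ (insert v J)) / 2) - Real.negMulLog (μ J) -
        Real.negMulLog (μ (insert v J))) :=
    sum_le_sum fun J _ => gain (hμ J) (hμ _) (Δ / 2)
  rw [sum_sub_distrib, ← mul_sum, ← mul_sum, ← hΔ] at e4
  nlinarith [mul_le_mul_of_nonneg_left e3 (sq_nonneg (Δ / 2))]

theorem Ent_nonneg {μ : Finset X → ℝ} (hμ : ∀ I, 0 ≤ μ I)
    (h1 : ∑ I ∈ Om T R, μ I = 1) : 0 ≤ Ent T R μ := by
  apply sum_nonneg
  intro I hI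
  apply Real.negMulLog_nonneg (hμ I)
  rw [← h1]
  exact single_le_sum (fun J _ => hμ J) hI

theorem Ent_le {μ : Finset X → ℝ} (hμ : ∀ I, 0 ≤ μ I)
    (h1 : ∑ I ∈ Om T R, μ I = 1) : Ent T R μ ≤ R.card := by
  have hne : ∅ ∈ Om T R := by rw [mem_Om]; exact ⟨empty_subset _, by intro a ha; simp at ha⟩
  set N : ℝ := ((Om T R).card : ℝ) with hN
  have hN0 : 0 < N := by
    rw [hN]; exact_mod_cast card_pos.mpr ⟨∅, hne⟩
  have hN2 : N ≤ 2 ^ R.card := by
    rw [hN]
    have : (Om T R).card ≤ 2 ^ R.card := by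
      rw [← card_powerset]
      exact card_le_card (filter_subset _ _)
    exact_mod_cast this
  have key : ∀ x : ℝ, 0 ≤ x → Real.negMulLog x ≤ 1 / N - x + x * Real.log N := by
    intro x hx
    rcases hx.eq_or_lt with h0 | h0
    · rw [← h0]
      simp
      positivity
    · have h2 := Real.log_le_sub_one_of_pos (show 0 < 1 / (x * N) by positivity)
      rw [Real.log_div one_ne_zero (by positivity), Real.log_one, zero_sub,
        Real.log_mul h0.ne' hN0.ne'] at h2
      have h3 := mul_le_mul_of_nonneg_left h2 hx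
      have h4 : x * (1 / (x * N) - 1) = 1 / N - x := by field_simp
      rw [h4] at h3
      unfold Real.negMulLog
      linarith
  calc Ent T R μ ≤ ∑ I ∈ Om T R, (1 / N - μ I + μ I * Real.log N) :=
        sum_le_sum fun I _ => key _ (hμ I)
    _ = Real.log N := by
        rw [sum_add_distrib, sum_sub_distrib, h1, sum_const, nsmul_eq_mul, ← hN, ← sum_mul, h1]
        field_simp
        ring
    _ ≤ Real.log (2 ^ R.card) := Real.log_le_log hN0 hN2
    _ = R.card * Real.log 2 := by rw [Real.log_pow]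
    _ ≤ R.card * 1 := by
        apply mul_le_mul_of_nonneg_left _ (Nat.cast_nonneg _)
        have := Real.log_two_lt_d9
        linarith
    _ = R.card := mul_one _

variable (T)

/-- the operator of a list of updates (acting on laws: the head first) -/
noncomputable def Kl : List X → (Finset X → ℝ) → (Finset X → ℝ)
  | [], μ => μ
  | v :: w, μ => Kl w (Kv T v μ)

/-- the total movement of the law along a list of updates -/
noncomputable def Dl (R : Finset X) : List X → (Finset X → ℝ) → ℝ
  | [], _ => 0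
  | v :: w, μ => nrm T R (fun I => Kv T v μ I - μ I) + Dl R w (Kv T v μ)

variable {T}

theorem Kl_append (w w' : List X) (μ : Finset X → ℝ) : Kl T (w ++ w') μ = Kl T w' (Kl T w μ) := by
  induction w generalizing μ with
  | nil => rfl
  | cons v w ih => simp only [List.cons_append, Kl]; exact ih _

theorem Kl_nonneg (w : List X) {μ : Finset X → ℝ} (hμ : ∀ I, 0 ≤ μ I) :
    ∀ I, 0 ≤ Kl T w μ I := by
  induction w generalizing μ with
  | nil => exact hμ
  | cons v w ih => exact ih (Kv_nonneg hμ)

theorem sum_Kl (w : List X) (hw : ∀ v ∈ w, v ∈ R) (μ : Finset X → ℝ) :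
    ∑ I ∈ Om T R, Kl T w μ I = ∑ I ∈ Om T R, μ I := by
  induction w generalizing μ with
  | nil => rfl
  | cons v w ih =>
    simp only [Kl]
    rw [ih (fun u hu => hw u (List.mem_cons_of_mem _ hu)), sum_Kv (hw v List.mem_cons_self)]

theorem Dl_nonneg (w : List X) (μ : Finset X → ℝ) : 0 ≤ Dl T R w μ := by
  induction w generalizing μ with
  | nil => exact le_refl _
  | cons v w ih => exact add_nonneg (nrm_nonneg _) (ih _)

theorem Dl_le (w : List X) (hw : ∀ v ∈ w, v ∈ R) {μ : Finset X → ℝ} (hμ : ∀ I, 0 ≤ μ I)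
    (h1 : ∑ I ∈ Om T R, μ I = 1) {l : ℝ} (hl : 0 < l) :
    Dl T R w μ ≤ l * w.length + (Ent T R (Kl T w μ) - Ent T R μ) / l := by
  induction w generalizing μ with
  | nil => simp [Dl, Kl]
  | cons v w ih =>
    have hv := hw v List.mem_cons_self
    have h2 := Ent_gain hv hμ h1
    have h3 := ih (fun u hu => hw u (List.mem_cons_of_mem _ hu)) (Kv_nonneg hμ)
      (by rw [sum_Kv hv, h1])
    simp only [Dl, Kl, List.length_cons]
    set a := nrm T R (fun I => Kv T v μ I - μ I) with ha
    have h4 : a ≤ l + (Ent T R (Kv T v μ) - Ent T R μ) / l := by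
      rw [← sub_le_iff_le_add', le_div_iff₀ hl]
      nlinarith [sq_nonneg (a - 2 * l)]
    have h5 : (Ent T R (Kl T w (Kv T v μ)) - Ent T R μ) / l =
        (Ent T R (Kl T w (Kv T v μ)) - Ent T R (Kv T v μ)) / l +
        (Ent T R (Kv T v μ) - Ent T R μ) / l := by ring
    rw [h5]
    push_cast
    linarith

/-- the law is almost invariant under each update that occurs in the list -/
theorem nrm_le_Dl (w : List X) (hw : ∀ v ∈ w, v ∈ R) (μ : Finset X → ℝ) (hv : v ∈ w) :
    nrm T R (fun I => Kv T v μ I - μ I) ≤ 2 * Dl T R w μ := by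
  induction w generalizing μ with
  | nil => simp at hv
  | cons u w ih =>
    simp only [Dl]
    have hu : u ∈ R := hw u List.mem_cons_self
    have hD := Dl_nonneg (T := T) (R := R) w (Kv T u μ)
    have ha := nrm_nonneg (T := T) (R := R) (fun I => Kv T u μ I - μ I)
    rcases List.mem_cons.mp hv with h | h
    · subst h
      linarith
    · have hvR : v ∈ R := hw v (List.mem_cons_of_mem _ h)
      have h1 := ih (fun u hu => hw u (List.mem_cons_of_mem _ hu)) (Kv T u μ) h
      have h2 : nrm T R (fun I => Kv T v μ I - μ I) ≤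
          nrm T R (fun I => Kv T v (fun I => μ I - Kv T u μ I) I) +
          (nrm T R (fun I => Kv T v (Kv T u μ) I - Kv T u μ I) +
          nrm T R (fun I => Kv T u μ I - μ I)) := by
        refine le_trans (le_of_eq ?_) ((nrm_add_le _ _).trans (add_le_add_right (nrm_add_le _ _) _))
        unfold nrm
        apply sum_congr rfl
        intro I _
        congr 1
        simp only
        rw [Kv_sub]
        ring
      have h3 : nrm T R (fun I => Kv T v (fun I => μ I - Kv T u μ I) I) ≤
          nrm T R (fun I => Kv T u μ I - μ I) := by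
        refine (nrm_Kv_le hvR _).trans (le_of_eq ?_)
        unfold nrm
        apply sum_congr rfl
        intro I _
        exact abs_sub_comm _ _
      linarith

/-- in a long sequence of sweeps there is a time with small movement -/
theorem exists_sweep (w : List X) (hw : ∀ v ∈ w, v ∈ R) (hlen : w.length = R.card)
    {μ : Finset X → ℝ} (hμ : ∀ I, 0 ≤ μ I) (h1 : ∑ I ∈ Om T R, μ I = 1) {S : ℕ} (hS : 0 < S) :
    ∃ k < S, Dl T R w (Kl T (List.replicate k w).flatten μ) ≤ 2 * R.card / √S := by
  set ν : ℕ → Finset X → ℝ := fun k => Kl T (List.replicate k w).flatten μ with hν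
  have hwk : ∀ k, ∀ v ∈ (List.replicate k w).flatten, v ∈ R := by
    intro k v hv
    rw [List.mem_flatten] at hv
    obtain ⟨l, hl, hv⟩ := hv
    rw [List.eq_of_mem_replicate hl] at hv
    exact hw v hv
  have hpos : ∀ k I, 0 ≤ ν k I := fun k => Kl_nonneg _ hμ
  have hsum : ∀ k, ∑ I ∈ Om T R, ν k I = 1 := fun k => by rw [hν]; simp only; rw [sum_Kl _ (hwk k), h1]
  have hsucc : ∀ k, ν (k + 1) = Kl T w (ν k) := by
    intro k
    rw [hν]
    simp only
    rw [List.replicate_succ', List.flatten_append, Kl_append]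
    simp
  have hSR : (0 : ℝ) < S := by exact_mod_cast hS
  have htot : ∑ k ∈ range S, (Ent T R (ν (k + 1)) - Ent T R (ν k)) ≤ R.card := by
    rw [sum_range_sub (fun k => Ent T R (ν k))]
    have a1 := Ent_le (T := T) (R := R) (hpos S) (hsum S)
    have a2 := Ent_nonneg (T := T) (R := R) (hpos 0) (hsum 0)
    linarith
  obtain ⟨k, hk, hk2⟩ : ∃ k ∈ range S, Ent T R (ν (k + 1)) - Ent T R (ν k) ≤ R.card / S := by
    by_contra hcon
    push Not at hcon
    have h2 : ∑ k ∈ range S, ((R.card : ℝ) / S) < ∑ k ∈ range S, (Ent T R (ν (k + 1)) - Ent T R (ν k)) :=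
      sum_lt_sum_of_nonempty ⟨0, mem_range.mpr hS⟩ hcon
    rw [sum_const, card_range, nsmul_eq_mul, mul_div_cancel₀ _ hSR.ne'] at h2
    linarith
  refine ⟨k, mem_range.mp hk, ?_⟩
  have hs : 0 < √(S : ℝ) := Real.sqrt_pos.mpr hSR
  have h3 := Dl_le w hw (hpos k) (hsum k) (l := 1 / √S) (by positivity)
  rw [← hsucc k, hlen] at h3
  refine h3.trans ?_
  have h4 : (Ent T R (ν (k + 1)) - Ent T R (ν k)) / (1 / √S) ≤ R.card / √S := by
    rw [div_div_eq_mul_div, div_one]
    calc (Ent T R (ν (k + 1)) - Ent T R (ν k)) * √S ≤ (R.card / S) * √S :=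
          mul_le_mul_of_nonneg_right hk2 hs.le
      _ = R.card / √S := by
          rw [div_mul_eq_mul_div, div_eq_div_iff hSR.ne' hs.ne', mul_assoc, Real.mul_self_sqrt hSR.le]
  have h5 : 1 / √(S : ℝ) * R.card = R.card / √S := by ring
  rw [h5]
  have h6 : 2 * (R.card : ℝ) / √S = R.card / √S + R.card / √S := by ring
  rw [h6]
  linarith

end Pool.Agent.Work.MP_a23c49_lc
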