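import Mathlib

/-!
# Encodings, general position, `MG`
-/

namespace Pool.Agent.Work.MP_a23c49_lc

/-- encoding of a natural number: its binary digits (symbols `0` and `1`), least significant digit
first, and the end mark `2` -/
def encNat (n : ℕ) : List (Fin 5) := (n.bits.map fun b => bif b then 1 else 0) ++ [2]

/-- encoding of a rational number in lowest terms: the positive part of the numerator, the negative
part of the numerator, the denominator -/
def encRat (x : ℚ) : List (Fin 5) := encNat x.num.toNat ++ encNat (-x.num).toNat ++ encNat x.den

/-- encoding of a list of rational points; every point ends with the mark `3` -/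
def encPoints (S : List (ℚ × ℚ)) : List (Fin 5) :=
  S.flatMap fun p => encRat p.1 ++ encRat p.2 ++ [3]

/-- encoding of the input of a randomized algorithm: the points, the mark `4`, the random bits -/
def encInput (x : List (ℚ × ℚ) × List Bool) : List (Fin 5) :=
  encPoints x.1 ++ [4] ++ x.2.map fun b => bif b then 1 else 0

/-- a rational point as a point of the Euclidean plane -/
noncomputable def pt (p : ℚ × ℚ) : EuclideanSpace ℝ (Fin 2) := !₂[(p.1 : ℝ), (p.2 : ℝ)]

/-- no three points of `A` lie on a common line -/
def GenPos (A : Finset (ℚ × ℚ)) : Prop :=
  ∀ p ∈ A, ∀ q ∈ A, ∀ r ∈ A, p ≠ q → q ≠ r → p ≠ r → ¬ Collinear ℝ {pt p, pt q, pt r}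

open Classical in
/-- the maximum size of a subset of `S` in general position -/
noncomputable def MG (S : Finset (ℚ × ℚ)) : ℕ := (S.powerset.filter GenPos).sup Finset.card

end Pool.Agent.Work.MP_a23c49_lc
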