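import Pool.Agent.Work.MP_a23c49_lc.Chain

/-!
# Local analysis of the dynamics
-/

namespace Pool.Agent.Work.MP_a23c49_lc

open Finset

set_option linter.unusedSectionVars false

variable {X : Type} [DecidableEq X] {T : X → X → X → Bool} {R : Finset X} {v : X}

/-- `v` has no short cycles through it. -/
structure Good (T : X → X → X → Bool) (R : Finset X) (v : X) : Prop where
  one : ∀ a ∈ R, ∀ b ∈ R, ∀ c ∈ R, T v a b = true → T v a c = true → b = c
  two : ∀ a ∈ R, ∀ a' ∈ R, ∀ b ∈ R, ∀ b' ∈ R, ∀ c ∈ R, T v a a' = true → T v b b' = true →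
    T a b c = true → c = v

/-- the neighbours of `v` -/
def Nb (T : X → X → X → Bool) (R : Finset X) (v : X) : Finset X :=
  R.filter fun a => ∃ b ∈ R, T v a b = true

theorem mem_Nb {a : X} : a ∈ Nb T R v ↔ a ∈ R ∧ ∃ b ∈ R, T v a b = true := by simp [Nb]

theorem LS.swap13 (hT : LS T) (a b c : X) : T a b c = T c b a := by
  rw [hT.swap12, hT.swap23, hT.swap12]

theorem LS.rot (hT : LS T) (a b c : X) : T a b c = T b c a := by
  rw [hT.swap12, hT.swap23]

theorem v_notMem_Nb (hT : LS T) : v ∉ Nb T R v := by
  rw [mem_Nb]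
  rintro ⟨_, b, _, h⟩
  exact hT.ne _ _ _ h rfl

/-- the sites allowed by the outside part `O` -/
def al (T : X → X → X → Bool) (O : Finset X) (a : X) : Prop := Ind T (insert a O)

instance (O : Finset X) (a : X) : Decidable (al T O a) := by unfold al; infer_instance

theorem Ind.of_no_true {I : Finset X} (h : ∀ a ∈ I, ∀ b ∈ I, ∀ c ∈ I, T a b c ≠ true) :
    Ind T I := fun a ha b hb c hc => by
  have := h a ha b hb c hc
  simpa using this

theorem Ind.not_true {I : Finset X} (h : Ind T I) {a b c : X} (ha : a ∈ I) (hb : b ∈ I)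
    (hc : c ∈ I) : T a b c ≠ true := by
  rw [h a ha b hb c hc]; simp

/-- outside part and allowed neighbours form an independent set -/
theorem ind_union (hT : LS T) (hg : Good T R v) {O A : Finset X} (hO : O ⊆ R) (hOi : Ind T O)
    (hvO : v ∉ O) (hA : A ⊆ Nb T R v) (hal : ∀ a ∈ A, al T O a) : Ind T (O ∪ A) := by
  have hvA : v ∉ A := fun h => v_notMem_Nb hT (hA h)
  -- no triple with two neighbours
  have h2 : ∀ a ∈ A, ∀ b ∈ A, ∀ c ∈ O ∪ A, T a b c ≠ true := by
    intro a ha b hb c hc h
    obtain ⟨haR, a', ha', hT1⟩ := mem_Nb.mp (hA ha)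
    obtain ⟨hbR, b', hb', hT2⟩ := mem_Nb.mp (hA hb)
    have hcR : c ∈ R := by
      rcases mem_union.mp hc with h | h
      · exact hO h
      · exact (mem_Nb.mp (hA h)).1
    have := hg.two a haR a' ha' b hbR b' hb' c hcR hT1 hT2 h
    subst this
    rcases mem_union.mp hc with h | h
    · exact hvO h
    · exact hvA h
  have h1 : ∀ a ∈ A, ∀ b ∈ O, ∀ c ∈ O, T a b c ≠ true := by
    intro a ha b hb c hc
    exact (hal a ha).not_true (mem_insert_self _ _) (mem_insert_of_mem hb) (mem_insert_of_mem hc)
  apply Ind.of_no_true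
  intro a ha b hb c hc h
  rcases mem_union.mp ha with ha' | ha' <;> rcases mem_union.mp hb with hb' | hb' <;>
    rcases mem_union.mp hc with hc' | hc'
  · exact hOi.not_true ha' hb' hc' h
  · rw [hT.swap13, hT.swap23] at h
    exact h1 c hc' a ha' b hb' h
  · rw [hT.swap12] at h
    exact h1 b hb' a ha' c hc' h
  · rw [hT.rot] at h
    exact h2 b hb' c hc' a ha h
  · exact h1 a ha' b hb' c hc' h
  · rw [hT.swap23] at h
    exact h2 a ha' c hc' b hb h
  · exact h2 a ha' b hb' c hc h
  · exact h2 a ha' b hb' c hc h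

theorem al_iff (hT : LS T) (hg : Good T R v) {I : Finset X} (hI : I ∈ Om T R) (hvI : v ∉ I)
    {a : X} (ha : a ∈ Nb T R v) : Ind T (insert a I) ↔ al T (I \ Nb T R v) a := by
  rw [mem_Om] at hI
  constructor
  · intro h
    exact h.subset (insert_subset_insert _ sdiff_subset)
  · intro h
    have h1 : Ind T ((I \ Nb T R v) ∪ insert a (I ∩ Nb T R v)) := by
      apply ind_union hT hg (sdiff_subset.trans hI.1) (hI.2.subset sdiff_subset)
      · exact fun h => hvI (mem_sdiff.mp h).1
      · exact insert_subset ha inter_subset_right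
      · intro b hb
        rcases mem_insert.mp hb with hb | hb
        · subst hb; exact h
        · apply hI.2.subset
          exact insert_subset (mem_inter.mp hb).1 sdiff_subset
    apply h1.subset
    intro x hx
    rcases mem_insert.mp hx with hx | hx
    · subst hx
      exact mem_union_right _ (mem_insert_self _ _)
    · by_cases hxN : x ∈ Nb T R v
      · exact mem_union_right _ (mem_insert_of_mem (mem_inter.mpr ⟨hx, hxN⟩))
      · exact mem_union_left _ (mem_sdiff.mpr ⟨hx, hxN⟩)

variable (T)

/-- the operator of a list of updates, acting on functions -/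
noncomputable def Kf : List X → (Finset X → ℝ) → (Finset X → ℝ)
  | [], F => F
  | a :: l, F => Kv T a (Kf l F)

variable {T}

theorem Kf_append (l l' : List X) (F : Finset X → ℝ) : Kf T (l ++ l') F = Kf T l (Kf T l' F) := by
  induction l with
  | nil => rfl
  | cons a l ih => simp only [List.cons_append, Kf]; rw [ih]

theorem Kf_nonneg (l : List X) {F : Finset X → ℝ} (hF : ∀ I, 0 ≤ F I) : ∀ I, 0 ≤ Kf T l F I := by
  induction l with
  | nil => exact hF
  | cons a l ih => exact Kv_nonneg ih

theorem Kf_le (l : List X) {F : Finset X → ℝ} {c : ℝ} (hF : ∀ I, F I ≤ c) :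
    ∀ I, Kf T l F I ≤ c := by
  induction l with
  | nil => exact hF
  | cons a l ih => exact Kv_le ih

theorem Kl_adj (l : List X) (hl : ∀ v ∈ l, v ∈ R) (μ F : Finset X → ℝ) :
    ∑ I ∈ Om T R, Kl T l μ I * F I = ∑ I ∈ Om T R, μ I * Kf T l F I := by
  induction l generalizing μ with
  | nil => rfl
  | cons a l ih =>
    simp only [Kl, Kf]
    rw [ih (fun u hu => hl u (List.mem_cons_of_mem _ hu)), Kv_adj (hl a List.mem_cons_self)]

theorem near {μ : Finset X → ℝ} {e : ℝ} (l : List X) (hl : ∀ a ∈ l, a ∈ R)
    (h : ∀ a ∈ l, nrm T R (fun I => Kv T a μ I - μ I) ≤ e) {F : Finset X → ℝ}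
    (h0 : ∀ I, 0 ≤ F I) (h1 : ∀ I, F I ≤ 1) :
    ∑ I ∈ Om T R, μ I * Kf T l F I ≤ ∑ I ∈ Om T R, μ I * F I + l.length * e := by
  induction l with
  | nil => simp [Kf]
  | cons a l ih =>
    have h2 := ih (fun u hu => hl u (List.mem_cons_of_mem _ hu))
      (fun u hu => h u (List.mem_cons_of_mem _ hu))
    have h3 : ∑ I ∈ Om T R, μ I * Kf T (a :: l) F I - ∑ I ∈ Om T R, μ I * Kf T l F I ≤ e := by
      simp only [Kf]
      rw [← Kv_adj (hl a List.mem_cons_self), ← sum_sub_distrib]
      refine le_trans ?_ (h a List.mem_cons_self)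
      unfold nrm
      apply sum_le_sum
      intro I _
      rw [← sub_mul]
      have h4 := Kf_nonneg (T := T) l h0 I
      have h5 := Kf_le (T := T) l h1 I
      refine (le_abs_self _).trans ?_
      rw [abs_mul, abs_of_nonneg h4]
      exact mul_le_of_le_one_right (abs_nonneg _) h5
    rw [List.length_cons]
    push_cast
    linarith

/-- the law of the neighbours after they have been updated -/
theorem Kf_formula (hT : LS T) (hg : Good T R v) (F : Finset X → ℝ) (l : List X) (hnd : l.Nodup)
    (hl : ∀ a ∈ l, a ∈ Nb T R v) : ∀ I ∈ Om T R, v ∉ I →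
    Kf T l F I = (∑ A ∈ l.toFinset.powerset,
      F ((I \ l.toFinset) ∪ A.filter (al T (I \ Nb T R v)))) / 2 ^ l.length := by
  induction l with
  | nil =>
    intro I _ _
    simp [Kf]
  | cons a l ih =>
    intro I hI hvI
    have haN : a ∈ Nb T R v := hl a List.mem_cons_self
    have haR : a ∈ R := (mem_Nb.mp haN).1
    have hav : a ≠ v := fun h => v_notMem_Nb hT (h ▸ haN)
    have hal : a ∉ l.toFinset := by
      rw [List.mem_toFinset]; exact (List.nodup_cons.mp hnd).1
    have ih' := ih (List.nodup_cons.mp hnd).2 (fun u hu => hl u (List.mem_cons_of_mem _ hu))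
    have hOm := mem_Om.mp hI
    set s := l.toFinset with hs
    have hts : (a :: l).toFinset = insert a s := by simp [hs]
    rw [hts, sum_powerset_insert hal, List.length_cons, pow_succ]
    have hsd : I \ insert a s = (I.erase a) \ s := by
      ext x
      simp only [mem_sdiff, mem_insert, mem_erase]
      tauto
    simp only [Kf]
    by_cases hind : Ind T (insert a I)
    · have hal' := (al_iff hT hg hI hvI haN).mp hind
      have hI1 : I.erase a ∈ Om T R := mem_Om.mpr ⟨(erase_subset _ _).trans hOm.1,
        hOm.2.subset (erase_subset _ _)⟩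
      have hI2 : insert a I ∈ Om T R := mem_Om.mpr ⟨insert_subset haR hOm.1, hind⟩
      have hO1 : (I.erase a) \ Nb T R v = I \ Nb T R v := by
        ext x
        simp only [mem_sdiff, mem_erase]
        constructor
        · exact fun h => ⟨h.1.2, h.2⟩
        · exact fun h => ⟨⟨fun hx => h.2 (hx ▸ haN), h.1⟩, h.2⟩
      have hO2 : (insert a I) \ Nb T R v = I \ Nb T R v := by
        ext x
        simp only [mem_sdiff, mem_insert]
        constructor
        · rintro ⟨h1 | h1, h2⟩
          · exact absurd (h1 ▸ haN) h2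
          · exact ⟨h1, h2⟩
        · exact fun h => ⟨Or.inr h.1, h.2⟩
      have h1 := ih' _ hI1 (fun h => hvI (mem_of_mem_erase h))
      have h2 := ih' _ hI2 (fun h => by
        rcases mem_insert.mp h with h | h
        · exact hav h.symm
        · exact hvI h)
      unfold Kv
      rw [if_pos hind, h1, h2, hO1, hO2, hsd]
      have e1 : ∀ A ∈ s.powerset, F ((insert a I) \ s ∪ A.filter (al T (I \ Nb T R v))) =
          F ((I.erase a) \ s ∪ (insert a A).filter (al T (I \ Nb T R v))) := by
        intro A _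
        congr 1
        rw [filter_insert, if_pos hal']
        ext x
        simp only [mem_union, mem_sdiff, mem_insert, mem_erase]
        by_cases hx : x = a
        · subst hx
          simp [hal]
        · simp [hx]
      rw [sum_congr rfl e1]
      field_simp
    · have hal' : ¬ al T (I \ Nb T R v) a := fun h => hind ((al_iff hT hg hI hvI haN).mpr h)
      have haI : a ∉ I := fun h => hind (by rw [insert_eq_self.mpr h]; exact hOm.2)
      have h1 := ih' _ hI hvI
      unfold Kv
      rw [if_neg hind, h1, hsd, erase_eq_of_notMem haI]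
      have e1 : ∀ A ∈ s.powerset, F (I \ s ∪ (insert a A).filter (al T (I \ Nb T R v))) =
          F (I \ s ∪ A.filter (al T (I \ Nb T R v))) := by
        intro A _
        rw [filter_insert, if_neg hal']
      rw [sum_congr rfl e1]
      field_simp
      ring

/-- allowed neighbours of `v` whose partner is allowed as well -/
def Jset (T : X → X → X → Bool) (R : Finset X) (v : X) (O : Finset X) : Finset X :=
  (Nb T R v).filter fun a => al T O a ∧ ∃ b ∈ Nb T R v, al T O b ∧ T v a b = true

theorem mem_Jset {O : Finset X} {a : X} : a ∈ Jset T R v O ↔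
    a ∈ Nb T R v ∧ al T O a ∧ ∃ b ∈ Nb T R v, al T O b ∧ T v a b = true := by simp [Jset]

/-- the number of (ordered) pairs of `I` that are collinear with `v` -/
def pr (T : X → X → X → Bool) (v : X) (I : Finset X) : ℕ :=
  ((I ×ˢ I).filter fun p => T v p.1 p.2 = true).card

/-- counting subsets that contain two given elements -/
theorem card_two {s : Finset X} {a b : X} (ha : a ∈ s) (hb : b ∈ s) (hab : a ≠ b) :
    4 * ((s.powerset.filter fun A => a ∈ A ∧ b ∈ A).card : ℝ) = 2 ^ s.card := by
  have h1 : (s.powerset.filter fun A => a ∈ A ∧ b ∈ A) =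
      ((s.erase a).erase b).powerset.image (fun A => insert a (insert b A)) := by
    ext A
    simp only [mem_filter, mem_powerset, mem_image]
    constructor
    · rintro ⟨h1, h2, h3⟩
      refine ⟨(A.erase a).erase b, erase_subset_erase _ (erase_subset_erase _ h1), ?_⟩
      rw [insert_erase (mem_erase.mpr ⟨hab.symm, h3⟩), insert_erase h2]
    · rintro ⟨B, hB, rfl⟩
      refine ⟨?_, mem_insert_self _ _, mem_insert_of_mem (mem_insert_self _ _)⟩
      apply insert_subset ha (insert_subset hb ?_)
      exact hB.trans ((erase_subset _ _).trans (erase_subset _ _))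
  have h2 : ((s.erase a).erase b).card + 2 = s.card := by
    have e1 := card_erase_add_one ha
    have e2 := card_erase_add_one (mem_erase.mpr ⟨hab.symm, hb⟩)
    omega
  rw [h1, card_image_of_injOn, card_powerset, ← h2, pow_add]
  · push_cast
    ring
  · intro B hB C hC h
    simp only [coe_powerset, Set.mem_preimage, Set.mem_powerset_iff, coe_subset] at hB hC
    have haB : a ∉ insert b B := by
      rw [mem_insert]
      rintro (h | h)
      · exact hab h
      · exact (notMem_erase a s) (mem_of_mem_erase (hB h))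
    have haC : a ∉ insert b C := by
      rw [mem_insert]
      rintro (h | h)
      · exact hab h
      · exact (notMem_erase a s) (mem_of_mem_erase (hC h))
    have hbB : b ∉ B := fun h => notMem_erase b _ (hB h)
    have hbC : b ∉ C := fun h => notMem_erase b _ (hC h)
    simp only at h
    have h3 := congrArg (fun Z => (Z.erase a).erase b) h
    simp only [erase_insert haB, erase_insert haC, erase_insert hbB, erase_insert hbC] at h3
    exact h3

/-- many allowed pairs give many occupied pairs -/
theorem many_pairs (hT : LS T) {O : Finset X} (hvO : v ∉ O) {k : ℕ}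
    (hk : 8 * k ≤ (Jset T R v O).card) (hk0 : 0 < k) :
    (1 / 7 : ℝ) * 2 ^ (Nb T R v).card ≤ ∑ A ∈ (Nb T R v).powerset,
      (if v ∉ O ∪ A.filter (al T O) ∧ k ≤ pr T v (O ∪ A.filter (al T O)) then (1 : ℝ) else 0) := by
  classical
  set N := Nb T R v with hN
  set J := Jset T R v O with hJ
  have hpart : ∀ a ∈ J, ∃ b, b ∈ N ∧ al T O b ∧ T v a b = true := by
    intro a ha
    obtain ⟨_, _, b, hb, hb2, hb3⟩ := mem_Jset.mp ha
    exact ⟨b, hb, hb2, hb3⟩
  choose! σ hσ1 hσ2 hσ3 using hpart
  set Y : Finset X → ℝ := fun A => ∑ a ∈ J, if a ∈ A ∧ σ a ∈ A then (1 : ℝ) else 0 with hY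
  have hsum : ∑ A ∈ N.powerset, Y A = J.card * 2 ^ N.card / 4 := by
    rw [hY]
    simp only
    rw [sum_comm]
    have : ∀ a ∈ J, ∑ A ∈ N.powerset, (if a ∈ A ∧ σ a ∈ A then (1 : ℝ) else 0) =
        2 ^ N.card / 4 := by
      intro a ha
      rw [← sum_filter, sum_const, nsmul_eq_mul, mul_one]
      have h1 : a ≠ σ a := by
        have h2 := hσ3 a ha
        rw [hT.rot] at h2
        exact hT.ne _ _ _ h2
      have := card_two (mem_Jset.mp ha).1 (hσ1 a ha) h1
      linarith
    rw [sum_congr rfl this, sum_const, nsmul_eq_mul]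
    ring
  have hle : ∀ A ∈ N.powerset, Y A ≤ J.card / 8 + J.card * (7 / 8) *
      (if v ∉ O ∪ A.filter (al T O) ∧ k ≤ pr T v (O ∪ A.filter (al T O)) then (1 : ℝ) else 0) := by
    intro A hA
    have hvN : v ∉ A := fun h => v_notMem_Nb hT ((mem_powerset.mp hA) h)
    have hv' : v ∉ O ∪ A.filter (al T O) := by
      rw [mem_union, mem_filter]
      rintro (h | h)
      · exact hvO h
      · exact hvN h.1
    have hYle : Y A ≤ J.card := by
      rw [hY]
      simp only
      calc ∑ a ∈ J, (if a ∈ A ∧ σ a ∈ A then (1 : ℝ) else 0) ≤ ∑ a ∈ J, (1 : ℝ) := by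
            apply sum_le_sum; intro a _; split_ifs <;> norm_num
        _ = J.card := by simp
    have hYpr : Y A ≤ pr T v (O ∪ A.filter (al T O)) := by
      rw [hY]
      simp only
      rw [← sum_filter, sum_const, nsmul_eq_mul, mul_one]
      unfold pr
      have : (J.filter fun a => a ∈ A ∧ σ a ∈ A).card ≤
          (((O ∪ A.filter (al T O)) ×ˢ (O ∪ A.filter (al T O))).filter
            fun p => T v p.1 p.2 = true).card := by
        apply card_le_card_of_injOn (fun a => (a, σ a))
        · intro a ha
          simp only [coe_filter, Set.mem_ofPred_eq] at ha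
          simp only [coe_filter, mem_product, Set.mem_ofPred_eq]
          refine ⟨⟨?_, ?_⟩, hσ3 a ha.1⟩
          · exact mem_union_right _ (mem_filter.mpr ⟨ha.2.1, (mem_Jset.mp ha.1).2.1⟩)
          · exact mem_union_right _ (mem_filter.mpr ⟨ha.2.2, hσ2 a ha.1⟩)
        · intro a _ b _ h
          exact (Prod.mk.inj h).1
      exact_mod_cast this
    by_cases h : k ≤ pr T v (O ∪ A.filter (al T O))
    · rw [if_pos ⟨hv', h⟩]
      linarith
    · rw [if_neg (fun h' => h h'.2)]
      push Not at h
      have h1 : (pr T v (O ∪ A.filter (al T O)) : ℝ) ≤ k := by exact_mod_cast h.le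
      have h2 : 8 * (k : ℝ) ≤ J.card := by exact_mod_cast hk
      linarith
  have h1 := sum_le_sum hle
  rw [hsum, sum_add_distrib, sum_const, card_powerset, nsmul_eq_mul, ← mul_sum] at h1
  have hJ0 : (0 : ℝ) < J.card := by
    have : 0 < J.card := by omega
    exact_mod_cast this
  push_cast at h1
  set Z := ∑ A ∈ N.powerset,
      (if v ∉ O ∪ A.filter (al T O) ∧ k ≤ pr T v (O ∪ A.filter (al T O)) then (1 : ℝ) else 0)
  have h2 : (J.card : ℝ) * (1 / 7 * 2 ^ N.card) ≤ J.card * Z := by linarith
  exact le_of_mul_le_mul_left h2 hJ0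

/-- with few allowed pairs, `v` can be added with a fair probability -/
theorem few_pairs (hT : LS T) (hg : Good T R v) {O : Finset X} (hO : O ⊆ R)
    (hOi : Ind T O) (hvO : v ∉ O) (hdis : ∀ x ∈ O, x ∉ Nb T R v) :
    (1 / 2 : ℝ) * 2 ^ (Nb T R v).card / 2 ^ (Jset T R v O).card ≤
      ∑ A ∈ (Nb T R v).powerset,
      Kv T v (fun I => if v ∈ I then (1 : ℝ) else 0) (O ∪ A.filter (al T O)) := by
  classical
  set N := Nb T R v with hN
  set J := Jset T R v O with hJ
  have hJN : J ⊆ N := filter_subset _ _
  have hnn : ∀ I, 0 ≤ Kv T v (fun I => if v ∈ I then (1 : ℝ) else 0) I :=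
    Kv_nonneg fun I => by split_ifs <;> norm_num
  have hsub : (N \ J).powerset ⊆ N.powerset := powerset_mono.mpr sdiff_subset
  refine le_trans ?_ (sum_le_sum_of_subset_of_nonneg hsub fun A _ _ => hnn _)
  have key : ∀ A ∈ (N \ J).powerset,
      Kv T v (fun I => if v ∈ I then (1 : ℝ) else 0) (O ∪ A.filter (al T O)) = 1 / 2 := by
    intro A hA
    rw [mem_powerset] at hA
    have hAN : A ⊆ N := hA.trans sdiff_subset
    set A' := A.filter (al T O) with hA'
    have hA'N : A' ⊆ N := (filter_subset _ _).trans hAN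
    have hvX : v ∉ O ∪ A' := by
      rw [mem_union]
      rintro (h | h)
      · exact hvO h
      · exact v_notMem_Nb hT (hA'N h)
    have hXi : Ind T (O ∪ A') := ind_union hT hg hO hOi hvO hA'N fun a ha => (mem_filter.mp ha).2
    have hXR : O ∪ A' ⊆ R := union_subset hO (hA'N.trans (filter_subset _ _))
    have hpair : ∀ a ∈ O ∪ A', ∀ b ∈ O ∪ A', T v a b ≠ true := by
      intro a ha b hb h
      have haN : a ∈ N := mem_Nb.mpr ⟨hXR ha, b, hXR hb, h⟩
      have h' : T v b a = true := by rw [hT.swap23]; exact h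
      have hbN : b ∈ N := mem_Nb.mpr ⟨hXR hb, a, hXR ha, h'⟩
      -- a neighbour in the state is allowed
      have hal : ∀ x ∈ O ∪ A', al T O x := by
        intro x hx
        apply hXi.subset
        exact insert_subset hx subset_union_left
      have haJ : a ∈ J := mem_Jset.mpr ⟨haN, hal a ha, b, hbN, hal b hb, h⟩
      rcases mem_union.mp ha with ha' | ha'
      · exact hdis a ha' haN
      · exact (mem_sdiff.mp (hA (mem_filter.mp ha').1)).2 haJ
    have hins : Ind T (insert v (O ∪ A')) := by
      apply Ind.of_no_true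
      intro a ha b hb c hc h
      have n1 := hT.ne _ _ _ h
      have n2 : b ≠ c := by rw [hT.rot] at h; exact hT.ne _ _ _ h
      have n3 : a ≠ c := by rw [hT.swap23] at h; exact hT.ne _ _ _ h
      rcases mem_insert.mp ha with ha' | ha'
      · subst ha'
        rcases mem_insert.mp hb with hb' | hb'
        · exact n1 hb'.symm
        · rcases mem_insert.mp hc with hc' | hc'
          · exact n3 hc'.symm
          · exact hpair b hb' c hc' h
      · rcases mem_insert.mp hb with hb' | hb'
        · subst hb'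
          rcases mem_insert.mp hc with hc' | hc'
          · exact n2 hc'.symm
          · rw [hT.swap12] at h
            exact hpair a ha' c hc' h
        · rcases mem_insert.mp hc with hc' | hc'
          · subst hc'
            rw [hT.swap13] at h
            exact hpair b hb' a ha' h
          · exact hXi.not_true ha' hb' hc' h
    unfold Kv
    rw [if_pos hins]
    simp
  rw [sum_congr rfl key, sum_const, card_powerset, nsmul_eq_mul, card_sdiff_of_subset hJN]
  push_cast
  rw [← Nat.sub_add_cancel (card_le_card hJN), pow_add, Nat.add_sub_cancel]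
  apply le_of_eq
  field_simp

/-- the number of allowed neighbours with allowed partner, seen from the state `I` -/
def mJ (T : X → X → X → Bool) (R : Finset X) (v : X) (I : Finset X) : ℕ :=
  (Jset T R v ((I.erase v) \ Nb T R v)).card

/-- the indicator: `v` is not occupied, and many pairs are collinear with `v` -/
def F1 (T : X → X → X → Bool) (v : X) (k : ℕ) (I : Finset X) : ℝ :=
  if v ∉ I ∧ k ≤ pr T v I then 1 else 0

/-- the indicator: `v` is occupied -/
def F2 (v : X) (I : Finset X) : ℝ := if v ∈ I then 1 else 0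

theorem F1_nonneg (k : ℕ) (I : Finset X) : 0 ≤ F1 T v k I := by unfold F1; split_ifs <;> norm_num
theorem F1_le (k : ℕ) (I : Finset X) : F1 T v k I ≤ 1 := by unfold F1; split_ifs <;> norm_num
theorem F2_nonneg (I : Finset X) : 0 ≤ F2 v I := by unfold F2; split_ifs <;> norm_num
theorem F2_le (I : Finset X) : F2 v I ≤ 1 := by unfold F2; split_ifs <;> norm_num

theorem Kv_ge_half {G : Finset X → ℝ} (hG : ∀ I, 0 ≤ G I) {I : Finset X} (hI : I ∈ Om T R) :
    G (I.erase v) / 2 ≤ Kv T v G I := by
  unfold Kv
  split_ifs with h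
  · have := hG (insert v I)
    linarith
  · have hvI : v ∉ I := fun h' => h (by rw [insert_eq_self.mpr h']; exact (mem_Om.mp hI).2)
    rw [erase_eq_of_notMem hvI]
    have := hG I
    linarith

theorem nb_sub (l : List X) (hl : l = (Nb T R v).toList) : l.Nodup ∧ (∀ a ∈ l, a ∈ Nb T R v) ∧
    l.toFinset = Nb T R v ∧ l.length = (Nb T R v).card := by
  subst hl
  refine ⟨nodup_toList _, fun a ha => mem_toList.mp ha, toList_toFinset _, length_toList _⟩

theorem local_formula (hT : LS T) (hg : Good T R v) {F : Finset X → ℝ} (hF : ∀ I, 0 ≤ F I)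
    {I : Finset X} (hI : I ∈ Om T R) :
    (1 / 2 : ℝ) * ((∑ A ∈ (Nb T R v).powerset,
      F (((I.erase v) \ Nb T R v) ∪ A.filter (al T ((I.erase v) \ Nb T R v)))) /
        2 ^ (Nb T R v).card) ≤ Kf T (v :: (Nb T R v).toList) F I := by
  simp only [Kf]
  have h1 := Kv_ge_half (T := T) (R := R) (v := v) (G := Kf T (Nb T R v).toList F)
    (Kf_nonneg _ hF) hI
  refine le_trans (le_of_eq ?_) h1
  obtain ⟨n1, n2, n3, n4⟩ := nb_sub (T := T) (R := R) (v := v) _ rfl
  have hOm := mem_Om.mp hI
  rw [Kf_formula hT hg F _ n1 n2 (I.erase v)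
    (mem_Om.mpr ⟨(erase_subset _ _).trans hOm.1, hOm.2.subset (erase_subset _ _)⟩)
    (notMem_erase _ _), n3, n4]
  ring

theorem local1 (hT : LS T) (hg : Good T R v) {k : ℕ} (hk : 0 < k) {I : Finset X}
    (hI : I ∈ Om T R) :
    (1 / 14 : ℝ) * (if 8 * k ≤ mJ T R v I then 1 else 0) ≤
      Kf T (v :: (Nb T R v).toList) (F1 T v k) I := by
  have h1 := local_formula hT hg (F1_nonneg (T := T) (v := v) k) hI
  refine le_trans ?_ h1
  split_ifs with h
  · have h2 := many_pairs hT (R := R) (v := v) (O := (I.erase v) \ Nb T R v)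
      (fun h => notMem_erase v I (mem_sdiff.mp h).1) (k := k) h hk
    unfold F1
    rw [← mul_div_assoc, le_div_iff₀ (by positivity)]
    linarith
  · rw [mul_zero]
    have : 0 ≤ ∑ A ∈ (Nb T R v).powerset, F1 T v k (((I.erase v) \ Nb T R v) ∪
        A.filter (al T ((I.erase v) \ Nb T R v))) := sum_nonneg fun A _ => F1_nonneg _ _
    positivity

theorem local2 (hT : LS T) (hg : Good T R v) {I : Finset X} (hI : I ∈ Om T R) :
    (1 / 4 : ℝ) / 2 ^ mJ T R v I ≤ Kf T (v :: ((Nb T R v).toList ++ [v])) (F2 v) I := by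
  have h0 : Kf T (v :: ((Nb T R v).toList ++ [v])) (F2 v) =
      Kf T (v :: (Nb T R v).toList) (Kv T v (F2 v)) := by
    rw [← List.cons_append, Kf_append]
    rfl
  rw [h0]
  have h1 := local_formula hT hg (Kv_nonneg (T := T) (v := v) (F2_nonneg (v := v))) hI
  refine le_trans ?_ h1
  have hOm := mem_Om.mp hI
  have h2 := few_pairs hT hg (O := (I.erase v) \ Nb T R v)
    ((sdiff_subset.trans (erase_subset _ _)).trans hOm.1)
    (hOm.2.subset (sdiff_subset.trans (erase_subset _ _)))
    (fun h => notMem_erase v I (mem_sdiff.mp h).1) (fun x hx => (mem_sdiff.mp hx).2)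
  have h3 : (1 / 4 : ℝ) / 2 ^ mJ T R v I = 1 / 2 * ((1 / 2 * 2 ^ (Nb T R v).card /
      2 ^ (mJ T R v I)) / 2 ^ (Nb T R v).card) := by
    field_simp
    norm_num
  rw [h3]
  apply mul_le_mul_of_nonneg_left _ (by norm_num)
  apply div_le_div_of_nonneg_right _ (by positivity)
  exact h2

end Pool.Agent.Work.MP_a23c49_lc
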