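import Pool.Agent.Work.MP_a23c49_lc.Parse

/-!
# The main theorem
-/

namespace Pool.Agent.Work.MP_a23c49_lc

open Finset TMLib

/-! ### Collinearity -/

/-- the determinant test -/
def col3 (p q r : ℚ × ℚ) : Prop := (q.1 - p.1) * (r.2 - p.2) = (r.1 - p.1) * (q.2 - p.2)

theorem col3_swap12 {p q r : ℚ × ℚ} (h : col3 p q r) : col3 q p r := by
  unfold col3 at *; linear_combination -h

theorem col3_swap23 {p q r : ℚ × ℚ} (h : col3 p q r) : col3 p r q := by
  unfold col3 at *; linear_combination -h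

theorem col3_trans {p q r s : ℚ × ℚ} (hpq : p ≠ q) (h1 : col3 p q r) (h2 : col3 p q s) :
    col3 p r s := by
  unfold col3 at *
  have h : q.1 - p.1 ≠ 0 ∨ q.2 - p.2 ≠ 0 := by
    by_contra hcon
    push Not at hcon
    apply hpq
    ext
    · linarith [hcon.1]
    · linarith [hcon.2]
  rcases h with h | h
  · apply mul_left_cancel₀ h
    linear_combination (r.1 - p.1) * h2 - (s.1 - p.1) * h1
  · apply mul_left_cancel₀ h
    linear_combination (r.2 - p.2) * h2 - (s.2 - p.2) * h1

theorem col3_iff {p q r : ℚ × ℚ} (hpq : p ≠ q) :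
    Collinear ℝ {pt p, pt q, pt r} ↔ col3 p q r := by
  rw [collinear_iff_of_mem (p₀ := pt p) (by simp)]
  constructor
  · rintro ⟨v, hv⟩
    obtain ⟨a, ha⟩ := hv (pt q) (by simp)
    obtain ⟨b, hb⟩ := hv (pt r) (by simp)
    have a0 := congrArg (fun z : EuclideanSpace ℝ (Fin 2) => z 0) ha
    have a1 := congrArg (fun z : EuclideanSpace ℝ (Fin 2) => z 1) ha
    have b0 := congrArg (fun z : EuclideanSpace ℝ (Fin 2) => z 0) hb
    have b1 := congrArg (fun z : EuclideanSpace ℝ (Fin 2) => z 1) hb
    simp [pt] at a0 a1 b0 b1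
    unfold col3
    have : ((q.1 : ℝ) - p.1) * (r.2 - p.2) = (r.1 - p.1) * (q.2 - p.2) := by
      rw [a0, a1, b0, b1]; ring
    exact_mod_cast this
  · intro h
    refine ⟨pt q -ᵥ pt p, ?_⟩
    have h' : ((q.1 : ℝ) - p.1) * (r.2 - p.2) = (r.1 - p.1) * (q.2 - p.2) := by
      unfold col3 at h
      exact_mod_cast h
    intro x hx
    simp only [Set.mem_insert_iff, Set.mem_singleton_iff] at hx
    rcases hx with rfl | rfl | rfl
    · exact ⟨0, by simp⟩
    · exact ⟨1, by simp⟩
    · have hne : (q.1 : ℝ) - p.1 ≠ 0 ∨ (q.2 : ℝ) - p.2 ≠ 0 := by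
        by_contra hcon
        push Not at hcon
        apply hpq
        ext
        · have : (q.1 : ℝ) = p.1 := by linarith [hcon.1]
          exact_mod_cast this.symm
        · have : (q.2 : ℝ) = p.2 := by linarith [hcon.2]
          exact_mod_cast this.symm
      rcases hne with hne | hne
      · refine ⟨((r.1 : ℝ) - p.1) / (q.1 - p.1), ?_⟩
        ext i
        fin_cases i
        · simp [pt]; field_simp; ring
        · simp [pt]; field_simp; linear_combination h'
      · refine ⟨((r.2 : ℝ) - p.2) / (q.2 - p.2), ?_⟩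
        ext i
        fin_cases i
        · simp [pt]; field_simp; linear_combination -h'
        · simp [pt]; field_simp; ring

/-! ### The relation on indices -/

variable {S : List (ℚ × ℚ)}

/-- the relation of the table -/
def TS (S : List (ℚ × ℚ)) : ℕ → ℕ → ℕ → Bool := TL (table (S.map rawP))

/-- the point with a given index -/
def at' (S : List (ℚ × ℚ)) (i : ℕ) : ℚ × ℚ := S.getD i (0, 0)

theorem TS_iff (i j k : ℕ) : TS S i j k = true ↔
    (i < S.length ∧ j < S.length ∧ k < S.length) ∧ (i ≠ j ∧ j ≠ k ∧ i ≠ k) ∧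
      col3 (at' S i) (at' S j) (at' S k) := by
  unfold TS
  rw [TL_iff, mem_table, List.length_map]
  have key : ∀ i, i < S.length → (S.map rawP).getD i [] = rawP (at' S i) := by
    intro i hi
    unfold at'
    rw [List.getD_eq_getElem _ _ (by simpa using hi), List.getD_eq_getElem _ _ hi,
      List.getElem_map]
  constructor
  · rintro ⟨⟨hi, hj, hk⟩, h1, h2⟩
    rw [key i hi, key j hj, key k hk, colR_raw, decide_eq_true_iff] at h2
    exact ⟨⟨hi, hj, hk⟩, h1, h2⟩
  · rintro ⟨⟨hi, hj, hk⟩, h1, h2⟩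
    refine ⟨⟨hi, hj, hk⟩, h1, ?_⟩
    rw [key i hi, key j hj, key k hk, colR_raw, decide_eq_true_iff]
    exact h2

theorem at'_inj (hS : S.Nodup) {i j : ℕ} (hi : i < S.length) (hj : j < S.length)
    (h : at' S i = at' S j) : i = j := by
  unfold at' at h
  rw [List.getD_eq_getElem _ _ hi, List.getD_eq_getElem _ _ hj] at h
  exact (hS.getElem_inj_iff).mp h

theorem bool_ext {a b : Bool} (h : a = true ↔ b = true) : a = b := by
  cases a <;> cases b <;> simp at h ⊢

theorem TS_LS (hS : S.Nodup) : LS (TS S) := by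
  refine ⟨?_, ?_, ?_, ?_⟩
  · intro a b c
    apply bool_ext
    rw [TS_iff, TS_iff]
    constructor <;> rintro ⟨⟨h1, h2, h3⟩, ⟨h4, h5, h6⟩, h7⟩
    · exact ⟨⟨h2, h1, h3⟩, ⟨h4.symm, h6, h5⟩, col3_swap12 h7⟩
    · exact ⟨⟨h2, h1, h3⟩, ⟨h4.symm, h6, h5⟩, col3_swap12 h7⟩
  · intro a b c
    apply bool_ext
    rw [TS_iff, TS_iff]
    constructor <;> rintro ⟨⟨h1, h2, h3⟩, ⟨h4, h5, h6⟩, h7⟩
    · exact ⟨⟨h1, h3, h2⟩, ⟨h6, h5.symm, h4⟩, col3_swap23 h7⟩
    · exact ⟨⟨h1, h3, h2⟩, ⟨h6, h5.symm, h4⟩, col3_swap23 h7⟩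
  · intro a b c h
    rw [TS_iff] at h
    exact h.2.1.1
  · intro a b c d h1 h2 hcd
    rw [TS_iff] at h1 h2 ⊢
    refine ⟨⟨h1.1.1, h1.1.2.2, h2.1.2.2⟩, ⟨h1.2.1.2.2, hcd, h2.2.1.2.2⟩, ?_⟩
    refine col3_trans (fun h => h1.2.1.1 (at'_inj hS h1.1.1 h1.1.2.1 h)) h1.2.2 h2.2.2

theorem alg_facts (hS : S.Nodup) (K : ℕ) (l : List Bool) :
    (alg (TS S) K (List.range S.length) l).Nodup ∧
    Ind (TS S) (alg (TS S) K (List.range S.length) l).toFinset ∧
    ∀ v ∈ alg (TS S) K (List.range S.length) l, v < S.length := by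
  have h := (alg_inv (TS_LS hS) List.nodup_range K l (S := List.range S.length)).1
  exact ⟨h.1, h.2.1, fun v hv => List.mem_range.mp (h.2.2 v hv)⟩

/-! ### Averages and counting -/

theorem bav_eq_count (k : ℕ) : ∀ F : List Bool → ℝ,
    bav k F = (∑ ω : Fin k → Bool, F (List.ofFn ω)) / 2 ^ k := by
  induction k with
  | zero => intro F; simp [bav]
  | succ k ih =>
    intro F
    simp only [bav]
    rw [ih, ih]
    have h : ∑ ω : Fin (k + 1) → Bool, F (List.ofFn ω) =
        ∑ ω : Fin k → Bool, F (true :: List.ofFn ω) + ∑ ω : Fin k → Bool, F (false :: List.ofFn ω) := by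
      rw [← (Fin.consEquiv fun _ => Bool).sum_comp, Fintype.sum_prod_type, Fintype.sum_bool]
      simp [Fin.consEquiv, List.ofFn_succ]
    rw [h, pow_succ]
    field_simp

/-! ### Range of the output, for arbitrary relations -/

section mem

variable {X : Type} [DecidableEq X] {T : X → X → X → Bool}

theorem run_mem (P : X → Prop) (w : List X) : ∀ s : List Bool × List X × List X,
    (∀ v ∈ w, P v) → (∀ v ∈ s.2.1, P v) → (∀ v ∈ s.2.2, P v) →
    ∀ v ∈ (w.foldl (stp T) s).2.2, P v := by
  induction w with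
  | nil => intro s _ _ h; exact h
  | cons v w ih =>
    intro s hP h1 h2
    rw [List.foldl_cons]
    have h3 : ∀ u ∈ upd T (s.1.headD false) v s.2.1, P u := by
      intro u hu
      rcases upd_sub hu with h | h
      · rw [h]; exact hP v List.mem_cons_self
      · exact h1 u h
    apply ih _ (fun u hu => hP u (List.mem_cons_of_mem _ hu))
    · exact h3
    · simp only [stp]
      rcases lg_cases s.2.2 (upd T (s.1.headD false) v s.2.1) with h | h
      · rw [h]; exact h3
      · rw [h]; exact h2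

theorem att_mem {S : List X} (K t j : ℕ) (l : List Bool) : ∀ v ∈ att T K t j S l, v ∈ S := by
  unfold att
  simp only
  apply run_mem (fun v => v ∈ S)
  · intro v hv
    rw [List.mem_flatten] at hv
    obtain ⟨w, hw, hv⟩ := hv
    rw [List.eq_of_mem_replicate hw] at hv
    exact sst_inv j (fun v => v ∈ S) (prune T t S) (l, [])
      (fun v hv => (prune_sub t S).subset hv) (by simp) v hv
  · simp
  · simp

theorem grd_mem (w : List X) : ∀ (G : List X) (P : X → Prop), (∀ v ∈ w, P v) → (∀ v ∈ G, P v) →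
    ∀ v ∈ w.foldl (gst T) G, P v := by
  induction w with
  | nil => intro G P _ h; exact h
  | cons u w ih =>
    intro G P h1 h2
    rw [List.foldl_cons]
    apply ih _ P fun v hv => h1 v (List.mem_cons_of_mem _ hv)
    unfold gst
    cases canAdd T G u
    · exact h2
    · intro v hv
      rcases List.mem_cons.mp hv with h | h
      · rw [h]; exact h1 u List.mem_cons_self
      · exact h2 v h

theorem alg_mem {S : List X} (K : ℕ) (l : List Bool) : ∀ v ∈ alg T K S l, v ∈ S :=
  (foldl_lg (fun x : ℕ × ℕ => att T K x.1 x.2 S l) (fun B => ∀ v ∈ B, v ∈ S)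
    ((List.range (S.length + 1)).flatMap fun t => (List.range (S.length + 1)).map fun j =>
    (t, j)) (grd T S) (grd_mem S [] (fun v => v ∈ S) (fun v hv => hv) (by simp))
    fun x _ => att_mem K x.1 x.2 l).1

end mem

/-! ### The theorem -/

theorem exists_index {p : ℚ × ℚ} (hp : p ∈ S) : ∃ i < S.length, at' S i = p := by
  obtain ⟨i, hi, h⟩ := List.getElem_of_mem hp
  refine ⟨i, hi, ?_⟩
  unfold at'
  rw [List.getD_eq_getElem _ _ hi, h]

theorem at'_mem {i : ℕ} (hi : i < S.length) : at' S i ∈ S := by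
  unfold at'
  rw [List.getD_eq_getElem _ _ hi]
  exact List.getElem_mem hi

/-- sets in general position correspond to independent sets of indices -/
theorem transfer (hS : S.Nodup) {O : Finset (ℚ × ℚ)} (hOS : O ⊆ S.toFinset) (hO : GenPos O) :
    ∃ O' : Finset ℕ, Ind (TS S) O' ∧ O' ⊆ (List.range S.length).toFinset ∧ O'.card = O.card := by
  classical
  refine ⟨(Finset.range S.length).filter fun i => at' S i ∈ O, ?_, ?_, ?_⟩
  · apply Ind.of_no_true
    intro i hi j hj k hk h
    rw [mem_filter, Finset.mem_range] at hi hj hk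
    rw [TS_iff] at h
    obtain ⟨_, ⟨hij, hjk, hik⟩, hc⟩ := h
    have n1 : at' S i ≠ at' S j := fun h => hij (at'_inj hS hi.1 hj.1 h)
    have n2 : at' S j ≠ at' S k := fun h => hjk (at'_inj hS hj.1 hk.1 h)
    have n3 : at' S i ≠ at' S k := fun h => hik (at'_inj hS hi.1 hk.1 h)
    exact hO _ hi.2 _ hj.2 _ hk.2 n1 n2 n3 ((col3_iff n1).mpr hc)
  · intro i hi
    rw [mem_filter, Finset.mem_range] at hi
    rw [List.mem_toFinset, List.mem_range]
    exact hi.1
  · apply card_bij (fun i _ => at' S i)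
    · intro i hi
      exact (mem_filter.mp hi).2
    · intro i hi j hj h
      rw [mem_filter, Finset.mem_range] at hi hj
      exact at'_inj hS hi.1 hj.1 h
    · intro p hp
      obtain ⟨i, hi, h⟩ := exists_index (List.mem_toFinset.mp (hOS hp))
      refine ⟨i, ?_, h⟩
      rw [mem_filter, Finset.mem_range]
      exact ⟨hi, by rw [h]; exact hp⟩

theorem theA_facts (hS : S.Nodup) (ω : List Bool) : (theA (S, ω)).Nodup ∧
    (theA (S, ω)).toFinset ⊆ S.toFinset ∧ GenPos (theA (S, ω)).toFinset := by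
  obtain ⟨h1, h2, h3⟩ := alg_facts hS (KK S.length) ω
  have e : theA (S, ω) = (alg (TS S) (KK S.length) (List.range S.length) ω).map (at' S) := rfl
  rw [e]
  set A := alg (TS S) (KK S.length) (List.range S.length) ω with hA
  refine ⟨?_, ?_, ?_⟩
  · refine List.Nodup.map_on ?_ h1
    intro i hi j hj h
    exact at'_inj hS (h3 i hi) (h3 j hj) h
  · intro p hp
    rw [List.mem_toFinset, List.mem_map] at hp
    obtain ⟨i, hi, rfl⟩ := hp
    exact List.mem_toFinset.mpr (at'_mem (h3 i hi))
  · intro p hp q hq r hr hpq hqr hpr hc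
    rw [List.mem_toFinset, List.mem_map] at hp hq hr
    obtain ⟨i, hi, rfl⟩ := hp
    obtain ⟨j, hj, rfl⟩ := hq
    obtain ⟨k, hk, rfl⟩ := hr
    have h4 : TS S i j k = true := by
      rw [TS_iff]
      refine ⟨⟨h3 i hi, h3 j hj, h3 k hk⟩, ⟨?_, ?_, ?_⟩, (col3_iff hpq).mp hc⟩
      · rintro rfl; exact hpq rfl
      · rintro rfl; exact hqr rfl
      · rintro rfl; exact hpr rfl
    rw [h2 i (List.mem_toFinset.mpr hi) j (List.mem_toFinset.mpr hj) k
      (List.mem_toFinset.mpr hk)] at h4
    cases h4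

theorem exists_MG (S : Finset (ℚ × ℚ)) : ∃ O ⊆ S, GenPos O ∧ O.card = MG S := by
  classical
  unfold MG
  have hne : (S.powerset.filter GenPos).Nonempty := by
    refine ⟨∅, ?_⟩
    rw [mem_filter, mem_powerset]
    exact ⟨empty_subset _, fun p hp => by simp at hp⟩
  obtain ⟨O, hO, h⟩ := exists_mem_eq_sup _ hne Finset.card
  rw [mem_filter, mem_powerset] at hO
  exact ⟨O, hO.1, hO.2, h.symm⟩

/-- the number of random bits, as a polynomial -/
noncomputable def qP : Polynomial ℕ :=
  Polynomial.X * Polynomial.X +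
    64 * Polynomial.X * (12000 * Polynomial.X ^ 3) ^ 2 * Polynomial.X

theorem qP_eval (n : ℕ) : qP.eval n = qq n := by
  unfold qP qq KK
  simp

/-- a randomized polynomial-time approximation algorithm with ratio `O(√(n / log n))` -/
theorem main : ∃ (A : List (ℚ × ℚ) × List Bool → List (ℚ × ℚ)) (q : Polynomial ℕ) (C : ℝ),
    PolyTime encInput encPoints A ∧
    (∀ (S : List (ℚ × ℚ)) (ω : List Bool), S.Nodup → (A (S, ω)).Nodup ∧
      (A (S, ω)).toFinset ⊆ S.toFinset ∧ GenPos (A (S, ω)).toFinset) ∧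
    ∀ S : List (ℚ × ℚ), S.Nodup → 2 ≤ S.length →
      9 / 10 * (2 : ℝ) ^ q.eval S.length ≤
        (Finset.univ.filter fun ω : Fin (q.eval S.length) → Bool =>
          (MG S.toFinset : ℝ) ≤ C * √(S.length / Real.log S.length) *
            (A (S, List.ofFn ω)).length).card := by
  classical
  refine ⟨theA, qP, 14000, polyTime_theA fun x i hi => ?_, fun S ω hS => theA_facts hS ω,
    fun S hS hn => ?_⟩
  · exact List.mem_range.mp (alg_mem _ _ i hi)
  · rw [qP_eval]
    obtain ⟨O, hOS, hO, hc⟩ := exists_MG S.toFinset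
    obtain ⟨O', hO', hO'S, hc'⟩ := transfer hS hOS hO
    have h1 := alg_ratio (TS_LS hS) (S := List.range S.length) List.nodup_range (by
        intro a b c h
        rw [TS_iff] at h
        exact ⟨List.mem_range.mpr h.1.1, List.mem_range.mpr h.1.2.1⟩)
      (by rw [List.length_range]; exact hn) hO' hO'S
      (fun l => (MG S.toFinset : ℝ) ≤ 14000 * √(S.length / Real.log S.length) *
            (theA (S, l)).length) (by
        intro l hl
        rw [hc', hc, List.length_range] at hl
        have e : (theA (S, l)).length =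
            (alg (TS S) (KK S.length) (List.range S.length) l).length := List.length_map _
        rw [e]
        exact hl)
    rw [List.length_range, bav_eq_count] at h1
    have hp : (0 : ℝ) < 2 ^ qq S.length := by positivity
    rw [div_le_iff₀ hp] at h1
    set q := qq S.length with hq
    have h2 : ∑ ω : Fin q → Bool, (if (MG S.toFinset : ℝ) ≤ 14000 *
        √(S.length / Real.log S.length) * (theA (S, List.ofFn ω)).length then (0 : ℝ) else 1) =
        2 ^ q - (Finset.univ.filter fun ω : Fin q → Bool =>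
          (MG S.toFinset : ℝ) ≤ 14000 * √(S.length / Real.log S.length) *
            (theA (S, List.ofFn ω)).length).card := by
      have h3 : ∀ ω : Fin q → Bool, (if (MG S.toFinset : ℝ) ≤ 14000 *
        √(S.length / Real.log S.length) * (theA (S, List.ofFn ω)).length then (0 : ℝ) else 1) =
        1 - (if (MG S.toFinset : ℝ) ≤ 14000 *
        √(S.length / Real.log S.length) * (theA (S, List.ofFn ω)).length then (1 : ℝ) else 0) := by
        intro ω
        split_ifs <;> norm_num
      rw [sum_congr rfl fun ω _ => h3 ω, sum_sub_distrib, ← sum_filter]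
      simp
    rw [h2] at h1
    linarith

end Pool.Agent.Work.MP_a23c49_lc
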