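import Pool.Agent.Work.MP_a23c49_lc.AlgPoly
import Pool.Agent.Work.MP_a23c49_lc.Bits
import Pool.Agent.Work.MP_a23c49_lc.Defs
import Pool.Agent.Work.TMLib.FP

/-!
# Parsing the input, the table of collinear triples
-/

namespace Pool.Agent.Work.MP_a23c49_lc

open Turing Polynomial TMLib

set_option linter.unusedSimpArgs false
set_option linter.unusedSectionVars false

variable {α β γ δ : Type} [DE α] [DE β] [DE γ] [DE δ]

@[fun_prop]
theorem PolyF.finVal {N : ℕ} {f : α → Fin N} (hf : PolyF f) : PolyF (fun a => (f a).val) :=
  PolyF.comp (f := fun i : Fin N => i.val) (PolyF.of_G (PolyG.refl _) fun _ => rfl) hf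

/-- the state of the parser: have the points been read; the digits of the current number; the
numbers of the current point; the points; the random bits -/
abbrev PS := Bool × List Bool × RP × List RP × List Bool

/-- one step of the parser -/
def pstep (s : PS) (c : Fin 5) : PS :=
  bif s.1 then (true, [], [], s.2.2.2.1, s.2.2.2.2 ++ [decide (c.val = 1)])
  else bif decide (c.val = 4) then (true, [], [], s.2.2.2.1, [])
  else bif decide (c.val = 3) then (false, [], [], s.2.2.2.1 ++ [s.2.2.1], [])
  else bif decide (c.val = 2) then (false, [], s.2.2.1 ++ [s.2.1], s.2.2.2.1, [])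
  else (false, s.2.1 ++ [decide (c.val = 1)], s.2.2.1, s.2.2.2.1, [])

/-- the parser -/
def parse (w : List (Fin 5)) : PS := w.foldl pstep (false, [], [], [], [])

theorem PolyF.parse : PolyF (fun w : List (Fin 5) => MP_a23c49_lc.parse w) := by
  unfold MP_a23c49_lc.parse
  refine PolyF.foldl_add (l := fun w : List (Fin 5) => w)
    (g := fun _ => (false, ([] : List Bool), ([] : RP), ([] : List RP), ([] : List Bool)))
    (h := fun _ s c => pstep s c) (by fun_prop) (by fun_prop) (by unfold pstep; fun_prop) 12 ?_
  rintro w ⟨b, cur, nums, pts, om⟩ c _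
  have e1 := sz_append om [decide (c.val = 1)]
  have e2 := sz_append pts [nums]
  have e3 := sz_append nums [cur]
  have e4 := sz_append cur [decide (c.val = 1)]
  have e5 := sz_bool_le (decide (c.val = 1))
  have e6 := sz_pos cur
  have e7 := sz_pos nums
  have e8 := sz_pos pts
  have e9 := sz_pos om
  have e10 := sz_pos b
  simp only [sz_cons, sz_nil] at e1 e2 e3 e4
  unfold pstep
  simp only [eval_ofNat]
  cases b
  · simp only [cond_false]
    by_cases h4 : c.val = 4
    · rw [decide_eq_true h4]
      simp only [cond_true, sz_pair, sz_nil, sz_true, sz_false]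
      omega
    · rw [decide_eq_false h4]
      by_cases h3 : c.val = 3
      · rw [decide_eq_true h3]
        simp only [cond_true, cond_false, sz_pair, sz_nil, sz_true, sz_false]
        omega
      · rw [decide_eq_false h3]
        by_cases h2 : c.val = 2
        · rw [decide_eq_true h2]
          simp only [cond_true, cond_false, sz_pair, sz_nil, sz_true, sz_false]
          omega
        · rw [decide_eq_false h2]
          simp only [cond_true, cond_false, sz_pair, sz_nil, sz_true, sz_false]
          omega
  · simp only [cond_true, sz_pair, sz_nil, sz_true, sz_false]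
    omega

theorem pstep_bits (l : List Bool) : ∀ (cur : List Bool) (nums : RP) (pts : List RP),
    (l.map fun b => (bif b then 1 else 0 : Fin 5)).foldl pstep (false, cur, nums, pts, []) =
      (false, cur ++ l, nums, pts, []) := by
  induction l with
  | nil => intro cur nums pts; simp
  | cons b l ih =>
    intro cur nums pts
    rw [List.map_cons, List.foldl_cons]
    have : pstep (false, cur, nums, pts, []) (bif b then 1 else 0) =
        (false, cur ++ [b], nums, pts, []) := by
      cases b <;> rfl
    rw [this, ih, List.append_assoc]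
    rfl

theorem pstep_nat (n : ℕ) (nums : RP) (pts : List RP) :
    (encNat n).foldl pstep (false, [], nums, pts, []) = (false, [], nums ++ [n.bits], pts, []) := by
  unfold encNat
  rw [List.foldl_append, pstep_bits]
  rfl

theorem pstep_rat (x : ℚ) (nums : RP) (pts : List RP) :
    (encRat x).foldl pstep (false, [], nums, pts, []) = (false, [], nums ++ rawQ x, pts, []) := by
  unfold encRat rawQ
  rw [List.foldl_append, List.foldl_append, pstep_nat, pstep_nat, pstep_nat]
  simp

theorem pstep_points (S : List (ℚ × ℚ)) : ∀ pts : List RP,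
    (encPoints S).foldl pstep (false, [], [], pts, []) = (false, [], [], pts ++ S.map rawP, []) := by
  induction S with
  | nil => intro pts; simp [encPoints]
  | cons p S ih =>
    intro pts
    have h : encPoints (p :: S) = encRat p.1 ++ encRat p.2 ++ [3] ++ encPoints S := by
      simp [encPoints]
    rw [h, List.foldl_append, List.foldl_append, List.foldl_append, pstep_rat, pstep_rat]
    have h2 : ([3] : List (Fin 5)).foldl pstep (false, [], [] ++ rawQ p.1 ++ rawQ p.2, pts, []) =
        (false, [], [], pts ++ [rawP p], []) := rfl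
    rw [h2, ih]
    simp

theorem pstep_om (l : List Bool) : ∀ (pts : List RP) (om : List Bool),
    (l.map fun b => (bif b then 1 else 0 : Fin 5)).foldl pstep (true, [], [], pts, om) =
      (true, [], [], pts, om ++ l) := by
  induction l with
  | nil => intro pts om; simp
  | cons b l ih =>
    intro pts om
    rw [List.map_cons, List.foldl_cons]
    have : pstep (true, [], [], pts, om) (bif b then 1 else 0) =
        (true, [], [], pts, om ++ [b]) := by
      cases b <;> rfl
    rw [this, ih, List.append_assoc]
    rfl

theorem parse_enc (x : List (ℚ × ℚ) × List Bool) :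
    parse (encInput x) = (true, [], [], x.1.map rawP, x.2) := by
  unfold parse encInput
  rw [List.foldl_append, List.foldl_append, pstep_points]
  have h : ([4] : List (Fin 5)).foldl pstep (false, [], [], [] ++ x.1.map rawP, []) =
      (true, [], [], x.1.map rawP, []) := rfl
  rw [h, pstep_om]
  simp

/-! ### The table -/

/-- the collinear triples of indices -/
def table (P : List RP) : List (ℕ × ℕ × ℕ) :=
  (List.range P.length).flatMap fun i => (List.range P.length).flatMap fun j =>
    ((List.range P.length).filter fun k => (!decide (i = j) && !decide (j = k) && !decide (i = k)) &&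
      colR (P.getD i []) (P.getD j []) (P.getD k [])).map fun k => (i, j, k)

theorem PolyF.table : PolyF (fun P : List RP => MP_a23c49_lc.table P) := by
  unfold MP_a23c49_lc.table
  refine PolyF.flatMap (l := fun P : List RP => List.range P.length) (f := fun P i =>
    (List.range P.length).flatMap fun j =>
    ((List.range P.length).filter fun k => (!decide (i = j) && !decide (j = k) && !decide (i = k)) &&
      MP_a23c49_lc.colR (P.getD i []) (P.getD j []) (P.getD k [])).map fun k => (i, j, k)) (by fun_prop) ?_
  refine PolyF.flatMap (l := fun p : List RP × ℕ => List.range p.1.length) (f := fun p j =>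
    ((List.range p.1.length).filter fun k => (!decide (p.2 = j) && !decide (j = k) &&
      !decide (p.2 = k)) &&
      MP_a23c49_lc.colR (p.1.getD p.2 []) (p.1.getD j []) (p.1.getD k [])).map fun k => (p.2, j, k))
    (by fun_prop) ?_
  refine PolyF.map (l := fun p : (List RP × ℕ) × ℕ =>
    (List.range p.1.1.length).filter fun k => (!decide (p.1.2 = p.2) && !decide (p.2 = k) &&
      !decide (p.1.2 = k)) &&
      MP_a23c49_lc.colR (p.1.1.getD p.1.2 []) (p.1.1.getD p.2 []) (p.1.1.getD k []))
    (f := fun p k => (p.1.2, p.2, k)) ?_ (by fun_prop)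
  refine PolyF.filter (l := fun p : (List RP × ℕ) × ℕ => List.range p.1.1.length)
    (f := fun p k => (!decide (p.1.2 = p.2) && !decide (p.2 = k) &&
      !decide (p.1.2 = k)) &&
      MP_a23c49_lc.colR (p.1.1.getD p.1.2 []) (p.1.1.getD p.2 []) (p.1.1.getD k [])) (by fun_prop) ?_
  fun_prop

theorem mem_table (P : List RP) (i j k : ℕ) : (i, j, k) ∈ table P ↔
    (i < P.length ∧ j < P.length ∧ k < P.length) ∧ (i ≠ j ∧ j ≠ k ∧ i ≠ k) ∧
      colR (P.getD i []) (P.getD j []) (P.getD k []) = true := by
  unfold table
  simp only [List.mem_flatMap, List.mem_range, List.mem_map, List.mem_filter, Bool.and_eq_true,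
    Bool.not_eq_true', decide_eq_false_iff_not, Prod.mk.injEq]
  constructor
  · rintro ⟨i', hi, j', hj, k', ⟨hk, ⟨⟨h1, h2⟩, h3⟩, h4⟩, rfl, rfl, rfl⟩
    exact ⟨⟨hi, hj, hk⟩, ⟨h1, h2, h3⟩, h4⟩
  · rintro ⟨⟨hi, hj, hk⟩, ⟨h1, h2, h3⟩, h4⟩
    exact ⟨i, hi, j, hj, k, ⟨hk, ⟨⟨h1, h2⟩, h3⟩, h4⟩, rfl, rfl, rfl⟩

/-! ### The machine -/

/-- encoding of a raw point -/
def encR (r : RP) : List (Fin 5) :=
  (r.flatMap fun b => (b.map fun x => (bif x then 1 else 0 : Fin 5)) ++ [2]) ++ [3]

theorem encR_raw (p : ℚ × ℚ) : encR (rawP p) = encRat p.1 ++ encRat p.2 ++ [3] := by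
  simp [encR, rawP, rawQ, encRat, encNat]

theorem PolyF.encR : PolyF (fun r : RP => MP_a23c49_lc.encR r) := by
  unfold MP_a23c49_lc.encR
  refine PolyF.append ?_ (by fun_prop)
  refine PolyF.flatMap (l := fun r : RP => r) (f := fun _ b =>
    (b.map fun x => (bif x then 1 else 0 : Fin 5)) ++ [2]) (by fun_prop) ?_
  refine PolyF.append ?_ (by fun_prop)
  exact PolyF.map (l := fun p : RP × List Bool => p.2) (f := fun _ x => (bif x then 1 else 0 : Fin 5))
    (by fun_prop) (by fun_prop)

/-- the function computed by the machine, on strings -/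
def theG (w : List (Fin 5)) : List (Fin 5) :=
  (alg (TL (table (parse w).2.2.2.1)) (KK (parse w).2.2.2.1.length)
    (List.range (parse w).2.2.2.1.length) (parse w).2.2.2.2).flatMap fun i =>
      encR ((parse w).2.2.2.1.getD i [])

theorem PolyF.theG : PolyF (fun w : List (Fin 5) => MP_a23c49_lc.theG w) := by
  have hp : PolyF (fun w : List (Fin 5) => (MP_a23c49_lc.parse w).2.2.2.1) := by
    have := PolyF.parse
    fun_prop
  have ho : PolyF (fun w : List (Fin 5) => (MP_a23c49_lc.parse w).2.2.2.2) := by
    have := PolyF.parse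
    fun_prop
  have ht : PolyF (fun w : List (Fin 5) => MP_a23c49_lc.table (MP_a23c49_lc.parse w).2.2.2.1) :=
    PolyF.comp (f := fun P : List RP => MP_a23c49_lc.table P)
      (g := fun w : List (Fin 5) => (MP_a23c49_lc.parse w).2.2.2.1) PolyF.table hp
  unfold MP_a23c49_lc.theG
  refine PolyF.flatMap (l := fun w => MP_a23c49_lc.alg (MP_a23c49_lc.TL (MP_a23c49_lc.table (MP_a23c49_lc.parse w).2.2.2.1))
    (MP_a23c49_lc.KK (MP_a23c49_lc.parse w).2.2.2.1.length)
    (List.range (MP_a23c49_lc.parse w).2.2.2.1.length) (MP_a23c49_lc.parse w).2.2.2.2)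
    (f := fun w i => MP_a23c49_lc.encR ((MP_a23c49_lc.parse w).2.2.2.1.getD i [])) ?_ ?_
  · fun_prop
  · have hp2 : PolyF (fun p : List (Fin 5) × ℕ => (MP_a23c49_lc.parse p.1).2.2.2.1) :=
      PolyF.comp (f := fun w : List (Fin 5) => (MP_a23c49_lc.parse w).2.2.2.1)
        (g := fun p : List (Fin 5) × ℕ => p.1) hp (by fun_prop)
    exact PolyF.comp (f := fun r : RP => MP_a23c49_lc.encR r)
      (g := fun p : List (Fin 5) × ℕ => (MP_a23c49_lc.parse p.1).2.2.2.1.getD p.2 [])
      PolyF.encR (by fun_prop)

/-- the algorithm -/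
def theA (x : List (ℚ × ℚ) × List Bool) : List (ℚ × ℚ) :=
  (alg (TL (table (x.1.map rawP))) (KK x.1.length) (List.range x.1.length) x.2).map
    fun i => x.1.getD i (0, 0)

theorem polyTime_theA (hlt : ∀ x : List (ℚ × ℚ) × List Bool,
    ∀ i ∈ alg (TL (table (x.1.map rawP))) (KK x.1.length) (List.range x.1.length) x.2,
      i < x.1.length) : PolyTime encInput encPoints theA := by
  refine PolyTime.of_PolyF (Equiv.refl (Fin 5)) (Equiv.refl (Fin 5)) PolyF.theG fun x => ?_
  have e1 : (encInput x).map (Equiv.refl (Fin 5)) = encInput x := by simp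
  have e2 : (encPoints (theA x)).map (Equiv.refl (Fin 5)) = encPoints (theA x) := by simp
  rw [e1, e2]
  unfold theG
  rw [parse_enc]
  simp only [List.length_map]
  unfold encPoints theA
  rw [List.flatMap_map]
  apply List.flatMap_congr
  intro i hi
  have hi' := hlt x i hi
  have e3 : (x.1.map rawP).getD i [] = rawP (x.1.getD i (0, 0)) := by
    rw [List.getD_eq_getElem _ _ (by simpa using hi'), List.getD_eq_getElem _ _ hi',
      List.getElem_map]
  rw [e3, encR_raw]

end Pool.Agent.Work.MP_a23c49_lc
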