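import Pool.Agent.Work.MP_a23c49_lc.Local

/-!
# The dynamics finds a large independent set
-/

namespace Pool.Agent.Work.MP_a23c49_lc

open Finset

set_option linter.unusedSectionVars false

variable {X : Type} [DecidableEq X] {T : X → X → X → Bool} {R : Finset X} {v : X}

/-- the properties of the random subset `R` that are used -/
structure GoodR (T : X → X → X → Bool) (R : Finset X) (m k : ℕ) : Prop where
  pos : 0 < R.card
  kpos : 0 < k
  bad : ∃ G ⊆ R, (∀ v ∈ G, Good T R v) ∧ 99 / 100 * (R.card : ℝ) ≤ G.card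
  uni : ∀ I ∈ Om T R, I.card ≤ m →
    (((R \ I).filter fun v => k ≤ pr T v I).card : ℝ) ≤ R.card / 1000
  small : (m : ℝ) ≤ R.card / (10 * 2 ^ (8 * k))

/-- an almost invariant law charges large sets -/
theorem step_hit (hT : LS T) {m k : ℕ} (hR : GoodR T R m k) {μ : Finset X → ℝ}
    (hμ : ∀ I, 0 ≤ μ I) (h1 : ∑ I ∈ Om T R, μ I = 1) {e : ℝ}
    (he : ∀ v ∈ R, nrm T R (fun I => Kv T v μ I - μ I) ≤ e)
    (he2 : (R.card + 2) * e ≤ 1 / (1000 * 2 ^ (8 * k))) :
    1 / (16 * 2 ^ (8 * k)) < ∑ I ∈ Om T R, μ I * (if m < I.card then (1 : ℝ) else 0) := by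
  classical
  by_contra hcon
  push Not at hcon
  obtain ⟨G, hGR, hGg, hGc⟩ := hR.bad
  set r : ℝ := (R.card : ℝ) with hr
  set q := ∑ I ∈ Om T R, μ I * (if m < I.card then (1 : ℝ) else 0) with hq
  have hr0 : 0 < r := by rw [hr]; exact_mod_cast hR.pos
  set L : ℝ := 2 ^ (8 * k) with hL
  have hL0 : 0 < L := by positivity
  have hL1 : 256 ≤ L := by
    have h8 : 8 ≤ 8 * k := by have := hR.kpos; omega
    calc (256 : ℝ) = 2 ^ 8 := by norm_num
      _ ≤ 2 ^ (8 * k) := pow_le_pow_right₀ (by norm_num) h8
  have hGr : (G.card : ℝ) ≤ r := by rw [hr]; exact_mod_cast card_le_card hGR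
  have he0 : 0 ≤ e := (nrm_nonneg _).trans (he _ (card_pos.mp hR.pos).choose_spec)
  have hNb : ∀ v, ((Nb T R v).card : ℝ) ≤ r := fun v => by
    rw [hr]; exact_mod_cast card_le_card (filter_subset _ _)
  -- the two local estimates, integrated
  set p : X → ℝ := fun v => ∑ I ∈ Om T R, μ I * (if 8 * k ≤ mJ T R v I then (1 : ℝ) else 0) with hp
  have s1 : ∀ v ∈ G, 1 / 14 * p v ≤ ∑ I ∈ Om T R, μ I * F1 T v k I + (r + 2) * e := by
    intro v hv
    have hvR := hGR hv
    have a1 : ∑ I ∈ Om T R, μ I * (1 / 14 * (if 8 * k ≤ mJ T R v I then (1 : ℝ) else 0)) ≤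
        ∑ I ∈ Om T R, μ I * Kf T (v :: (Nb T R v).toList) (F1 T v k) I :=
      sum_le_sum fun I hI => mul_le_mul_of_nonneg_left (local1 hT (hGg v hv) hR.kpos hI) (hμ I)
    have hsub : ∀ a ∈ v :: (Nb T R v).toList, a ∈ R := by
      intro a ha
      rcases List.mem_cons.mp ha with h | h
      · rw [h]; exact hvR
      · exact (mem_Nb.mp (mem_toList.mp h)).1
    have a2 := near (T := T) (R := R) (μ := μ) (e := e) (v :: (Nb T R v).toList) hsub
      (fun a ha => he a (hsub a ha)) (F1_nonneg (T := T) (v := v) k) (F1_le (T := T) (v := v) k)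
    have a3 : ((v :: (Nb T R v).toList).length : ℝ) * e ≤ (r + 2) * e := by
      apply mul_le_mul_of_nonneg_right _ he0
      rw [List.length_cons, length_toList]
      push_cast
      linarith [hNb v]
    have a4 : ∑ I ∈ Om T R, μ I * (1 / 14 * (if 8 * k ≤ mJ T R v I then (1 : ℝ) else 0)) =
        1 / 14 * p v := by
      rw [hp]
      simp only
      rw [mul_sum]
      apply sum_congr rfl
      intro I _
      ring
    linarith
  have s2 : ∀ v ∈ G, 1 / 4 / L * (1 - p v) ≤ ∑ I ∈ Om T R, μ I * F2 v I + (r + 2) * e := by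
    intro v hv
    have hvR := hGR hv
    have a1 : ∑ I ∈ Om T R, μ I * (1 / 4 / L * (1 - (if 8 * k ≤ mJ T R v I then (1 : ℝ) else 0))) ≤
        ∑ I ∈ Om T R, μ I * Kf T (v :: ((Nb T R v).toList ++ [v])) (F2 v) I := by
      apply sum_le_sum
      intro I hI
      apply mul_le_mul_of_nonneg_left _ (hμ I)
      refine le_trans ?_ (local2 hT (hGg v hv) hI)
      split_ifs with h
      · rw [sub_self, mul_zero]; positivity
      · rw [sub_zero, mul_one]
        apply div_le_div_of_nonneg_left (by norm_num) (by positivity)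
        rw [hL]
        exact pow_le_pow_right₀ (by norm_num) (by omega)
    have hsub : ∀ a ∈ v :: ((Nb T R v).toList ++ [v]), a ∈ R := by
      intro a ha
      rcases List.mem_cons.mp ha with h | h
      · rw [h]; exact hvR
      · rcases List.mem_append.mp h with h | h
        · exact (mem_Nb.mp (mem_toList.mp h)).1
        · rw [List.mem_singleton.mp h]; exact hvR
    have a2 := near (T := T) (R := R) (μ := μ) (e := e) (v :: ((Nb T R v).toList ++ [v])) hsub
      (fun a ha => he a (hsub a ha)) (F2_nonneg (v := v)) (F2_le (v := v))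
    have a3 : ((v :: ((Nb T R v).toList ++ [v])).length : ℝ) * e ≤ (r + 2) * e := by
      apply mul_le_mul_of_nonneg_right _ he0
      rw [List.length_cons, List.length_append, length_toList]
      push_cast
      simp only [List.length_cons, List.length_nil]
      push_cast
      linarith [hNb v]
    have a4 : ∑ I ∈ Om T R, μ I * (1 / 4 / L * (1 - (if 8 * k ≤ mJ T R v I then (1 : ℝ) else 0))) =
        1 / 4 / L * (1 - p v) := by
      have a5 : ∑ I ∈ Om T R, μ I * (1 / 4 / L *
          (1 - (if 8 * k ≤ mJ T R v I then (1 : ℝ) else 0))) =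
          1 / 4 / L * ∑ I ∈ Om T R, μ I - 1 / 4 / L * p v := by
        rw [hp]
        simp only
        rw [mul_sum, mul_sum, ← sum_sub_distrib]
        apply sum_congr rfl
        intro I _
        ring
      rw [a5, h1]
      ring
    linarith
  -- sum of the first estimate
  have t1 : ∑ v ∈ G, ∑ I ∈ Om T R, μ I * F1 T v k I ≤ r / 1000 + r * q := by
    rw [sum_comm]
    have a1 : ∀ I ∈ Om T R, ∑ v ∈ G, μ I * F1 T v k I ≤
        μ I * (r / 1000) + r * (μ I * (if m < I.card then (1 : ℝ) else 0)) := by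
      intro I hI
      rw [← mul_sum]
      have a2 : ∑ v ∈ G, F1 T v k I ≤ r / 1000 + r * (if m < I.card then (1 : ℝ) else 0) := by
        split_ifs with h
        · have : ∑ v ∈ G, F1 T v k I ≤ ∑ v ∈ G, 1 := by
            apply sum_le_sum; intro v _
            exact_mod_cast F1_le k I
          calc ∑ v ∈ G, F1 T v k I ≤ ∑ v ∈ G, (1 : ℝ) := by exact_mod_cast this
            _ = G.card := by simp
            _ ≤ r / 1000 + r * 1 := by linarith
        · rw [mul_zero, add_zero]
          refine le_trans ?_ (hR.uni I hI (not_lt.mp h))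
          have : ∑ v ∈ G, F1 T v k I = ((G.filter fun v => v ∉ I ∧ k ≤ pr T v I).card : ℝ) := by
            unfold F1
            rw [← sum_filter, sum_const, nsmul_eq_mul, mul_one]
          rw [this]
          have : (G.filter fun v => v ∉ I ∧ k ≤ pr T v I).card ≤
              ((R \ I).filter fun v => k ≤ pr T v I).card := by
            apply card_le_card
            intro v hv
            rw [mem_filter] at hv ⊢
            exact ⟨mem_sdiff.mpr ⟨hGR hv.1, hv.2.1⟩, hv.2.2⟩
          exact_mod_cast this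
      have := mul_le_mul_of_nonneg_left a2 (hμ I)
      linarith
    refine (sum_le_sum a1).trans (le_of_eq ?_)
    rw [sum_add_distrib, ← sum_mul, h1, ← mul_sum, ← hq]
    ring
  have t2 : ∑ v ∈ G, ∑ I ∈ Om T R, μ I * F2 v I ≤ m + r * q := by
    rw [sum_comm]
    have a1 : ∀ I ∈ Om T R, ∑ v ∈ G, μ I * F2 v I ≤
        μ I * m + r * (μ I * (if m < I.card then (1 : ℝ) else 0)) := by
      intro I hI
      rw [← mul_sum]
      have a2 : ∑ v ∈ G, F2 v I ≤ m + r * (if m < I.card then (1 : ℝ) else 0) := by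
        have a3 : ∑ v ∈ G, F2 v I ≤ I.card := by
          unfold F2
          rw [← sum_filter, sum_const, nsmul_eq_mul, mul_one]
          have : (G.filter fun v => v ∈ I).card ≤ I.card :=
            card_le_card fun v hv => (mem_filter.mp hv).2
          exact_mod_cast this
        split_ifs with h
        · have a4 : (I.card : ℝ) ≤ r := by
            rw [hr]; exact_mod_cast card_le_card (mem_Om.mp hI).1
          have : (0 : ℝ) ≤ m := Nat.cast_nonneg m
          linarith
        · have : (I.card : ℝ) ≤ m := by exact_mod_cast not_lt.mp h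
          linarith
      have := mul_le_mul_of_nonneg_left a2 (hμ I)
      linarith
    refine (sum_le_sum a1).trans (le_of_eq ?_)
    rw [sum_add_distrib, ← sum_mul, h1, ← mul_sum, ← hq]
    ring
  have u1 : 1 / 14 * ∑ v ∈ G, p v ≤ r / 1000 + r * q + r * ((r + 2) * e) := by
    rw [mul_sum]
    refine (sum_le_sum s1).trans ?_
    rw [sum_add_distrib, sum_const, nsmul_eq_mul]
    have : (G.card : ℝ) * ((r + 2) * e) ≤ r * ((r + 2) * e) :=
      mul_le_mul_of_nonneg_right hGr (by positivity)
    linarith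
  have u2 : 1 / 4 / L * (G.card - ∑ v ∈ G, p v) ≤ m + r * q + r * ((r + 2) * e) := by
    have a1 : ∑ v ∈ G, 1 / 4 / L * (1 - p v) = 1 / 4 / L * (G.card - ∑ v ∈ G, p v) := by
      rw [← mul_sum, sum_sub_distrib]
      simp
    rw [← a1]
    refine (sum_le_sum s2).trans ?_
    rw [sum_add_distrib, sum_const, nsmul_eq_mul]
    have : (G.card : ℝ) * ((r + 2) * e) ≤ r * ((r + 2) * e) :=
      mul_le_mul_of_nonneg_right hGr (by positivity)
    linarith
  -- numerics
  have v1 : r * q ≤ r * (1 / (16 * L)) := mul_le_mul_of_nonneg_left hcon hr0.le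
  have v2 : r * ((r + 2) * e) ≤ r * (1 / (1000 * L)) := mul_le_mul_of_nonneg_left he2 hr0.le
  set x := r / L with hx
  have hx0 : 0 < x := by positivity
  have hxr : 256 * x ≤ r := by
    rw [hx, ← mul_div_assoc, div_le_iff₀ hL0]
    nlinarith
  have w1 : r * (1 / (16 * L)) = x / 16 := by rw [hx]; field_simp
  have w2 : r * (1 / (1000 * L)) = x / 1000 := by rw [hx]; field_simp
  have w3 : (m : ℝ) ≤ x / 10 := by
    refine hR.small.trans (le_of_eq ?_)
    rw [hx, ← hL, ← hr]; field_simp
  have w4 : ∑ v ∈ G, p v ≤ 2 / 100 * r := by linarith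
  have w5 : 97 / 100 * r ≤ G.card - ∑ v ∈ G, p v := by linarith
  have w6 : 1 / 4 / L * (97 / 100 * r) ≤ 1 / 4 / L * (G.card - ∑ v ∈ G, p v) :=
    mul_le_mul_of_nonneg_left w5 (by positivity)
  have w7 : 1 / 4 / L * (97 / 100 * r) = 97 / 400 * x := by rw [hx]; field_simp; norm_num
  linarith

/-- from any start, a phase of many sweeps finds a large set with fair probability -/
theorem phase (hT : LS T) {m k : ℕ} (hR : GoodR T R m k) (w : List X) (hwR : ∀ v, v ∈ w ↔ v ∈ R)
    (hlen : w.length = R.card) {S : ℕ} (hS : 0 < S)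
    (hS2 : (R.card + 2) * (4 * R.card / √S) ≤ 1 / (1000 * 2 ^ (8 * k))) {I₀ : Finset X}
    (hI₀ : I₀ ∈ Om T R) :
    ∃ j < S, 1 / (16 * 2 ^ (8 * k)) <
      Kf T (List.replicate j w).flatten (fun I => if m < I.card then (1 : ℝ) else 0) I₀ := by
  classical
  set μ : Finset X → ℝ := fun I => if I = I₀ then 1 else 0 with hμ
  have hμ0 : ∀ I, 0 ≤ μ I := fun I => by rw [hμ]; simp only; split_ifs <;> norm_num
  have h1 : ∑ I ∈ Om T R, μ I = 1 := by
    rw [hμ]; simp only; rw [sum_ite_eq', if_pos hI₀]
  have hw : ∀ v ∈ w, v ∈ R := fun v hv => (hwR v).mp hv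
  obtain ⟨j, hj, hD⟩ := exists_sweep (T := T) (R := R) w hw hlen hμ0 h1 hS
  refine ⟨j, hj, ?_⟩
  have hwk : ∀ v ∈ (List.replicate j w).flatten, v ∈ R := by
    intro v hv
    rw [List.mem_flatten] at hv
    obtain ⟨l, hl, hv⟩ := hv
    rw [List.eq_of_mem_replicate hl] at hv
    exact hw v hv
  have h2 := step_hit hT hR (μ := Kl T (List.replicate j w).flatten μ) (Kl_nonneg _ hμ0)
    (by rw [sum_Kl _ hwk, h1]) (e := 4 * R.card / √S) (by
      intro v hv
      refine (nrm_le_Dl w hw _ ((hwR v).mpr hv)).trans ?_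
      have : 4 * (R.card : ℝ) / √S = 2 * (2 * R.card / √S) := by ring
      rw [this]
      linarith) hS2
  rw [Kl_adj _ hwk] at h2
  rw [hμ] at h2
  simp only [ite_mul, one_mul, zero_mul] at h2
  rw [sum_ite_eq', if_pos hI₀] at h2
  exact h2

/-- the probability that no set of more than `m` points is seen after an update -/
noncomputable def nh (T : X → X → X → Bool) (m : ℕ) : List X → Finset X → ℝ
  | [], _ => 1
  | v :: w, I => Kv T v (fun I' => if m < I'.card then 0 else nh T m w I') I

theorem nh_nonneg (m : ℕ) (w : List X) : ∀ I, 0 ≤ nh T m w I := by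
  induction w with
  | nil => intro I; exact zero_le_one
  | cons v w ih =>
    intro I
    simp only [nh]
    apply Kv_nonneg
    intro I'
    split_ifs
    · exact le_refl _
    · exact ih I'

theorem nh_le_one (m : ℕ) (w : List X) : ∀ I, nh T m w I ≤ 1 := by
  induction w with
  | nil => intro I; exact le_refl _
  | cons v w ih =>
    intro I
    simp only [nh]
    apply Kv_le
    intro I'
    split_ifs
    · exact zero_le_one
    · exact ih I'

theorem nh_le_Kf (m : ℕ) (w w' : List X) : ∀ I, I.card ≤ m →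
    nh T m (w ++ w') I ≤ Kf T w (fun I => if m < I.card then (0 : ℝ) else 1) I := by
  induction w with
  | nil =>
    intro I hI
    simp only [List.nil_append, Kf]
    rw [if_neg (not_lt.mpr hI)]
    exact nh_le_one _ _ _
  | cons v w ih =>
    intro I hI
    simp only [List.cons_append, nh, Kf]
    apply Kv_mono
    intro I'
    split_ifs with h
    · apply Kf_nonneg
      intro J; split_ifs <;> norm_num
    · exact ih I' (not_lt.mp h)

theorem Kf_one_sub (w : List X) (F : Finset X → ℝ) (I : Finset X) :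
    Kf T w (fun I => 1 - F I) I = 1 - Kf T w F I := by
  induction w generalizing I with
  | nil => rfl
  | cons v w ih =>
    simp only [Kf]
    have : Kf T w (fun I => 1 - F I) = fun I => 1 - Kf T w F I := funext ih
    rw [this]
    unfold Kv
    split_ifs
    · ring
    · rfl

theorem Kv_mono_Om {f g : Finset X → ℝ} (hv : v ∈ R) (h : ∀ I ∈ Om T R, f I ≤ g I) :
    ∀ I ∈ Om T R, Kv T v f I ≤ Kv T v g I := by
  intro I hI
  have hOm := mem_Om.mp hI
  unfold Kv
  split_ifs with hi
  · have h1 := h (I.erase v) (mem_Om.mpr ⟨(erase_subset _ _).trans hOm.1,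
      hOm.2.subset (erase_subset _ _)⟩)
    have h2 := h (insert v I) (mem_Om.mpr ⟨insert_subset hv hOm.1, hi⟩)
    linarith
  · exact h I hI

theorem nh_append (m : ℕ) (w w' : List X) (hw : ∀ v ∈ w, v ∈ R) {c : ℝ}
    (h : ∀ I ∈ Om T R, I.card ≤ m → nh T m w' I ≤ c) : ∀ I ∈ Om T R, I.card ≤ m →
    nh T m (w ++ w') I ≤ c * nh T m w I := by
  induction w with
  | nil =>
    intro I hI hm
    simp only [List.nil_append, nh, mul_one]
    exact h I hI hm
  | cons v w ih =>
    intro I hI hm
    have hv := hw v List.mem_cons_self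
    simp only [List.cons_append, nh]
    have h1 : ∀ J ∈ Om T R, (fun I' : Finset X => if m < I'.card then 0 else nh T m (w ++ w') I') J ≤
        (fun I' : Finset X => c * (if m < I'.card then 0 else nh T m w I')) J := by
      intro J hJ
      simp only
      split_ifs with h2
      · simp
      · exact ih (fun u hu => hw u (List.mem_cons_of_mem _ hu)) J hJ (not_lt.mp h2)
    refine (Kv_mono_Om hv h1 I hI).trans (le_of_eq ?_)
    unfold Kv
    split_ifs <;> ring

/-- after `Φ` phases a large set has been found with high probability -/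
theorem phases (hT : LS T) {m k : ℕ} (hR : GoodR T R m k) (w : List X) (hwR : ∀ v, v ∈ w ↔ v ∈ R)
    (hlen : w.length = R.card) {S : ℕ} (hS : 0 < S)
    (hS2 : (R.card + 2) * (4 * R.card / √S) ≤ 1 / (1000 * 2 ^ (8 * k))) (Φ : ℕ) :
    ∀ I ∈ Om T R, I.card ≤ m → nh T m (List.replicate (Φ * S) w).flatten I ≤
      (1 - 1 / (16 * 2 ^ (8 * k))) ^ Φ := by
  have hL : (1 : ℝ) ≤ 2 ^ (8 * k) := one_le_pow₀ (by norm_num)
  have hc : (0 : ℝ) ≤ 1 - 1 / (16 * 2 ^ (8 * k)) := by
    rw [sub_nonneg, div_le_one (by positivity)]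
    linarith
  have hwk : ∀ j, ∀ v ∈ (List.replicate j w).flatten, v ∈ R := by
    intro j v hv
    rw [List.mem_flatten] at hv
    obtain ⟨l, hl, hv⟩ := hv
    rw [List.eq_of_mem_replicate hl] at hv
    exact (hwR v).mp hv
  have hone : ∀ I ∈ Om T R, I.card ≤ m →
      nh T m (List.replicate S w).flatten I ≤ 1 - 1 / (16 * 2 ^ (8 * k)) := by
    intro I hI hm
    obtain ⟨j, hj, h1⟩ := phase hT hR w hwR hlen hS hS2 hI
    have e1 : (List.replicate S w).flatten = (List.replicate j w).flatten ++
        (List.replicate (S - j) w).flatten := by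
      rw [← List.flatten_append, ← List.replicate_add]
      congr 2
      omega
    rw [e1]
    refine (nh_le_Kf m _ _ I hm).trans ?_
    have e2 : (fun I : Finset X => if m < I.card then (0 : ℝ) else 1) =
        fun I => 1 - (if m < I.card then (1 : ℝ) else 0) := by
      funext I
      split_ifs <;> norm_num
    rw [e2, Kf_one_sub]
    linarith
  induction Φ with
  | zero =>
    intro I _ _
    rw [pow_zero]
    exact nh_le_one _ _ _
  | succ Φ ih =>
    intro I hI hm
    have e1 : (List.replicate ((Φ + 1) * S) w).flatten =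
        (List.replicate S w).flatten ++ (List.replicate (Φ * S) w).flatten := by
      rw [← List.flatten_append, ← List.replicate_add]
      congr 2
      ring
    rw [e1, pow_succ]
    refine (nh_append m _ _ (hwk S) ih I hI hm).trans ?_
    exact mul_le_mul_of_nonneg_left (hone I hI hm) (pow_nonneg hc Φ)

end Pool.Agent.Work.MP_a23c49_lc
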