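import Pool.Agent.Work.MP_a23c49_lc.Algo

/-!
# Pruning and the greedy algorithm
-/

namespace Pool.Agent.Work.MP_a23c49_lc

open Finset

set_option linter.unusedSectionVars false

variable {X : Type} [DecidableEq X] {T : X → X → X → Bool}

/-- at most two points of an independent set are on a line -/
theorem line_le_two (hT : LS T) {O : Finset X} (hO : Ind T O) (a b : X) :
    (O.filter fun c => T a b c = true).card ≤ 2 := by
  by_contra h
  push Not at h
  obtain ⟨c, hc, d, hd, e, he, hcd, hce, hde⟩ := two_lt_card.mp h
  rw [mem_filter] at hc hd he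
  have h1 : T a c d = true := hT.trans a b c d hc.2 hd.2 hcd
  have h2 : T a c e = true := hT.trans a b c e hc.2 he.2 hce
  have h3 : T c a d = true := by rw [hT.swap12]; exact h1
  have h4 : T c a e = true := by rw [hT.swap12]; exact h2
  have h5 : T c d e = true := hT.trans c a d e h3 h4 hde
  rw [hO c hc.1 d hd.1 e he.1] at h5
  cases h5

theorem pst_sub (t : ℕ) (cur : List X) (x : X × X) : (pst T t cur x).Sublist cur := by
  unfold pst
  cases decide (t < (cur.filter fun c => T x.1 x.2 c).length)
  · exact List.Sublist.refl _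
  · exact List.filter_sublist

theorem foldl_pst_sub (t : ℕ) (P : List (X × X)) : ∀ cur : List X,
    (P.foldl (pst T t) cur).Sublist cur := by
  induction P with
  | nil => intro cur; exact List.Sublist.refl _
  | cons x P ih =>
    intro cur
    rw [List.foldl_cons]
    exact (ih _).trans (pst_sub t cur x)

theorem pst_cod (t : ℕ) (cur : List X) (x : X × X) :
    ((pst T t cur x).filter fun c => T x.1 x.2 c).length ≤ t := by
  unfold pst
  by_cases h : t < (cur.filter fun c => T x.1 x.2 c).length
  · rw [decide_eq_true h, cond_true, List.filter_filter]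
    have : (fun c => T x.1 x.2 c && !(T x.1 x.2 c)) = fun _ => false := by
      funext c
      cases T x.1 x.2 c <;> rfl
    rw [this]
    simp
  · rw [decide_eq_false h, cond_false]
    exact not_lt.mp h

theorem foldl_pst_cod (t : ℕ) (P : List (X × X)) : ∀ (cur : List X) (x : X × X), x ∈ P →
    ((P.foldl (pst T t) cur).filter fun c => T x.1 x.2 c).length ≤ t := by
  induction P with
  | nil => intro cur x hx; simp at hx
  | cons y P ih =>
    intro cur x hx
    rw [List.foldl_cons]
    rcases List.mem_cons.mp hx with h | h
    · subst h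
      refine le_trans ?_ (pst_cod (T := T) t cur x)
      exact ((foldl_pst_sub t P _).filter _).length_le
    · exact ih _ x h

/-- the loss of the pruning -/
theorem foldl_pst_loss (hT : LS T) {O : Finset X} (hO : Ind T O) (t : ℕ) (P : List (X × X)) :
    ∀ cur : List X, t * (O ∩ cur.toFinset).card + 2 * (P.foldl (pst T t) cur).length ≤
      t * (O ∩ (P.foldl (pst T t) cur).toFinset).card + 2 * cur.length := by
  induction P with
  | nil => intro cur; exact le_refl _
  | cons x P ih =>
    intro cur
    rw [List.foldl_cons]
    have h1 := ih (pst T t cur x)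
    have h2 : t * (O ∩ cur.toFinset).card + 2 * (pst T t cur x).length ≤
        t * (O ∩ (pst T t cur x).toFinset).card + 2 * cur.length := by
      unfold pst
      by_cases h : t < (cur.filter fun c => T x.1 x.2 c).length
      · rw [decide_eq_true h, cond_true]
        have e1 : (cur.filter fun c => T x.1 x.2 c).length +
            (cur.filter fun c => !(T x.1 x.2 c)).length = cur.length :=
          (List.length_eq_length_filter_add _).symm
        have e2 : (O ∩ cur.toFinset).card ≤
            (O ∩ (cur.filter fun c => !(T x.1 x.2 c)).toFinset).card + 2 := by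
          have e3 : O ∩ cur.toFinset ⊆ (O ∩ (cur.filter fun c => !(T x.1 x.2 c)).toFinset) ∪
              (O.filter fun c => T x.1 x.2 c = true) := by
            intro c hc
            rw [mem_inter, List.mem_toFinset] at hc
            rw [mem_union, mem_inter, mem_filter, List.mem_toFinset, List.mem_filter]
            cases hTc : T x.1 x.2 c
            · left; exact ⟨hc.1, hc.2, rfl⟩
            · right; exact ⟨hc.1, rfl⟩
          refine (card_le_card e3).trans ((card_union_le _ _).trans ?_)
          exact Nat.add_le_add_left (line_le_two hT hO _ _) _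
        have e4 : t * (O ∩ cur.toFinset).card ≤
            t * (O ∩ (cur.filter fun c => !(T x.1 x.2 c)).toFinset).card + t * 2 := by
          rw [← Nat.mul_add]; exact Nat.mul_le_mul_left t e2
        omega
      · rw [decide_eq_false h, cond_false]
    omega

theorem prune_sub (t : ℕ) (S : List X) : (prune T t S).Sublist S := foldl_pst_sub _ _ _

theorem prune_cod (t : ℕ) (S : List X) (hS : S.Nodup) (hsup : ∀ a b c, T a b c = true → a ∈ S ∧ b ∈ S)
    (a b : X) : (((prune T t S).toFinset.filter fun c => T a b c = true).card : ℝ) ≤ t := by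
  by_cases h : ∃ c, T a b c = true
  · obtain ⟨c, hc⟩ := h
    obtain ⟨ha, hb⟩ := hsup a b c hc
    have h1 : (a, b) ∈ S.flatMap fun a => S.map fun b => (a, b) := by
      rw [List.mem_flatMap]
      exact ⟨a, ha, List.mem_map.mpr ⟨b, hb, rfl⟩⟩
    have h2 := foldl_pst_cod (T := T) t _ S (a, b) h1
    have h3 : ((prune T t S).toFinset.filter fun c => T a b c = true) =
        ((prune T t S).filter fun c => T a b c).toFinset := by
      ext c
      simp
    rw [h3, List.toFinset_card_of_nodup ((hS.sublist (prune_sub t S)).filter _)]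
    exact_mod_cast h2
  · push Not at h
    have : ((prune T t S).toFinset.filter fun c => T a b c = true) = ∅ := by
      apply filter_eq_empty_iff.mpr
      intro c _ hc
      exact h c hc
    rw [this]
    simp

theorem prune_loss (hT : LS T) {O : Finset X} (hO : Ind T O) (t : ℕ) (S : List X)
    (hOS : O ⊆ S.toFinset) : t * O.card + 2 * (prune T t S).length ≤
      t * (O ∩ (prune T t S).toFinset).card + 2 * S.length := by
  have := foldl_pst_loss hT hO t (S.flatMap fun a => S.map fun b => (a, b)) S
  rw [inter_eq_left.mpr hOS] at this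
  exact this

/-! ### Greedy -/

/-- the greedy step -/
def gst (T : X → X → X → Bool) (G : List X) (v : X) : List X := bif canAdd T G v then v :: G else G

theorem grd_eq (S : List X) : grd T S = S.foldl (gst T) [] := rfl

theorem gst_mono (w : List X) : ∀ G : List X, ∀ v ∈ G, v ∈ w.foldl (gst T) G := by
  induction w with
  | nil => intro G v hv; exact hv
  | cons u w ih =>
    intro G v hv
    rw [List.foldl_cons]
    apply ih
    unfold gst
    cases canAdd T G u
    · exact hv
    · exact List.mem_cons_of_mem _ hv

theorem gst_inv (hT : LS T) (w : List X) : ∀ G : List X, w.Nodup → G.Nodup → Ind T G.toFinset →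
    (∀ v ∈ w, v ∉ G) → (w.foldl (gst T) G).Nodup ∧ Ind T (w.foldl (gst T) G).toFinset ∧
      (∀ v ∈ w.foldl (gst T) G, v ∈ w ∨ v ∈ G) ∧
      (∀ v ∈ w, v ∈ w.foldl (gst T) G ∨ ∃ a ∈ w.foldl (gst T) G, ∃ b ∈ w.foldl (gst T) G,
        T a b v = true) := by
  induction w with
  | nil =>
    intro G _ h1 h2 _
    exact ⟨h1, h2, fun v hv => Or.inr hv, fun v hv => by simp at hv⟩
  | cons u w ih =>
    intro G hw hG hI hd
    rw [List.foldl_cons]
    have hw' := List.nodup_cons.mp hw
    cases hc : canAdd T G u
    · have e : gst T G u = G := by unfold gst; rw [hc]; rfl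
      rw [e]
      obtain ⟨a1, a2, a3, a4⟩ := ih G hw'.2 hG hI fun v hv => hd v (List.mem_cons_of_mem _ hv)
      refine ⟨a1, a2, ?_, ?_⟩
      · intro v hv
        rcases a3 v hv with h | h
        · exact Or.inl (List.mem_cons_of_mem _ h)
        · exact Or.inr h
      · intro v hv
        rcases List.mem_cons.mp hv with h | h
        · subst h
          right
          have h1 : ¬ ∀ a ∈ G, ∀ b ∈ G, T a b v = false := by
            intro h2
            have : canAdd T G v = true := by simpa [canAdd] using h2
            rw [hc] at this; cases this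
          push Not at h1
          obtain ⟨a, ha, b, hb, hab⟩ := h1
          exact ⟨a, gst_mono w G a ha, b, gst_mono w G b hb, by simpa using hab⟩
        · exact a4 v h
    · have e : gst T G u = u :: G := by unfold gst; rw [hc]; rfl
      rw [e]
      have huG : u ∉ G := hd u List.mem_cons_self
      obtain ⟨a1, a2, a3, a4⟩ := ih (u :: G) hw'.2 (List.nodup_cons.mpr ⟨huG, hG⟩)
        (by rw [List.toFinset_cons]; exact (canAdd_iff hT hI).mp hc) (by
          intro v hv hv'
          rcases List.mem_cons.mp hv' with h | h
          · rw [h] at hv; exact hw'.1 hv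
          · exact hd v (List.mem_cons_of_mem _ hv) h)
      refine ⟨a1, a2, ?_, ?_⟩
      · intro v hv
        rcases a3 v hv with h | h
        · exact Or.inl (List.mem_cons_of_mem _ h)
        · rcases List.mem_cons.mp h with h | h
          · left; rw [h]; exact List.mem_cons_self
          · exact Or.inr h
      · intro v hv
        rcases List.mem_cons.mp hv with h | h
        · left
          rw [h]
          exact gst_mono w _ u List.mem_cons_self
        · exact a4 v h

theorem grd_inv (hT : LS T) {S : List X} (hS : S.Nodup) :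
    (grd T S).Nodup ∧ Ind T (grd T S).toFinset ∧ ∀ v ∈ grd T S, v ∈ S := by
  obtain ⟨a1, a2, a3, _⟩ := gst_inv hT S [] hS List.nodup_nil (by intro a ha; simp at ha) (by simp)
  refine ⟨a1, a2, fun v hv => ?_⟩
  rcases a3 v hv with h | h
  · exact h
  · simp at h

theorem grd_large (hT : LS T) {S : List X} (hS : S.Nodup) {O : Finset X} (hO : Ind T O)
    (hOS : O ⊆ S.toFinset) : O.card ≤ 3 * (grd T S).length ^ 2 := by
  obtain ⟨a1, a2, a3, a4⟩ := gst_inv hT S [] hS List.nodup_nil (by intro a ha; simp at ha) (by simp)
  rw [grd_eq]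
  set G := S.foldl (gst T) [] with hG
  have h1 : O ⊆ G.toFinset ∪ (G.toFinset ×ˢ G.toFinset).biUnion
      fun x => O.filter fun c => T x.1 x.2 c = true := by
    intro v hv
    rw [mem_union, mem_biUnion]
    have hvS : v ∈ S := List.mem_toFinset.mp (hOS hv)
    rcases a4 v hvS with h | ⟨a, ha, b, hb, hab⟩
    · left; exact List.mem_toFinset.mpr h
    · right
      refine ⟨(a, b), mem_product.mpr ⟨List.mem_toFinset.mpr ha, List.mem_toFinset.mpr hb⟩, ?_⟩
      rw [mem_filter]
      exact ⟨hv, hab⟩
  have h2 := card_le_card h1
  have h3 : ((G.toFinset ×ˢ G.toFinset).biUnion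
      fun x => O.filter fun c => T x.1 x.2 c = true).card ≤ (G.toFinset ×ˢ G.toFinset).card * 2 :=
    card_biUnion_le_card_mul _ _ _ fun x _ => line_le_two hT hO _ _
  have h4 : G.toFinset.card = G.length := List.toFinset_card_of_nodup a1
  rw [card_product, h4] at h3
  have h5 := card_union_le G.toFinset ((G.toFinset ×ˢ G.toFinset).biUnion
      fun x => O.filter fun c => T x.1 x.2 c = true)
  rw [h4] at h5
  have h6 : G.length ≤ G.length ^ 2 := Nat.le_self_pow (by norm_num) _
  have h7 : G.length * G.length * 2 = 2 * G.length ^ 2 := by ring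
  omega

/-! ### The whole procedure -/

theorem att_inv (hT : LS T) {S : List X} (K t j : ℕ) (l : List Bool) :
    (att T K t j S l).Nodup ∧ Ind T (att T K t j S l).toFinset ∧ ∀ v ∈ att T K t j S l, v ∈ S := by
  unfold att
  simp only
  apply run_inv hT (fun v => v ∈ S)
  · intro v hv
    rw [List.mem_flatten] at hv
    obtain ⟨w, hw, hv⟩ := hv
    rw [List.eq_of_mem_replicate hw] at hv
    exact sst_inv j (fun v => v ∈ S) (prune T t S) (l, [])
      (fun v hv => (prune_sub t S).subset hv) (by simp) v hv
  · exact ⟨List.nodup_nil, by intro a ha; simp at ha, by simp⟩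
  · exact ⟨List.nodup_nil, by intro a ha; simp at ha, by simp⟩

theorem foldl_lg {ι : Type} (f : ι → List X) (P : List X → Prop) (w : List ι) : ∀ B : List X, P B →
    (∀ i ∈ w, P (f i)) → P (w.foldl (fun B x => lg B (f x)) B) ∧
      B.length ≤ (w.foldl (fun B x => lg B (f x)) B).length ∧
      ∀ i ∈ w, (f i).length ≤ (w.foldl (fun B x => lg B (f x)) B).length := by
  induction w with
  | nil => intro B h _; exact ⟨h, le_refl _, fun i hi => by simp at hi⟩
  | cons i w ih =>
    intro B h1 h2
    rw [List.foldl_cons]
    have h3 : P (lg B (f i)) := by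
      rcases lg_cases B (f i) with h | h
      · rw [h]; exact h2 i List.mem_cons_self
      · rw [h]; exact h1
    obtain ⟨a1, a2, a3⟩ := ih (lg B (f i)) h3 fun i hi => h2 i (List.mem_cons_of_mem _ hi)
    rw [lg_length] at a2
    refine ⟨a1, (le_max_left _ _).trans a2, ?_⟩
    intro i' hi'
    rcases List.mem_cons.mp hi' with h | h
    · rw [h]; exact (le_max_right _ _).trans a2
    · exact a3 i' h

theorem alg_inv (hT : LS T) {S : List X} (hS : S.Nodup) (K : ℕ) (l : List Bool) :
    ((alg T K S l).Nodup ∧ Ind T (alg T K S l).toFinset ∧ ∀ v ∈ alg T K S l, v ∈ S) ∧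
      (grd T S).length ≤ (alg T K S l).length ∧
      ∀ t j, t ≤ S.length → j ≤ S.length → (att T K t j S l).length ≤ (alg T K S l).length := by
  obtain ⟨a1, a2, a3⟩ := foldl_lg (fun x : ℕ × ℕ => att T K x.1 x.2 S l)
    (fun B => B.Nodup ∧ Ind T B.toFinset ∧ ∀ v ∈ B, v ∈ S)
    ((List.range (S.length + 1)).flatMap fun t => (List.range (S.length + 1)).map fun j =>
    (t, j)) (grd T S) (grd_inv hT hS) fun x _ => att_inv hT K x.1 x.2 l
  refine ⟨a1, a2, fun t j ht hj => ?_⟩
  apply a3 (t, j)
  rw [List.mem_flatMap]
  refine ⟨t, List.mem_range.mpr (by omega), List.mem_map.mpr ⟨j, List.mem_range.mpr (by omega), rfl⟩⟩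

end Pool.Agent.Work.MP_a23c49_lc
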