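import Pool.Agent.Work.MP_a23c49_lc.Prune

/-!
# The approximation ratio of the procedure
-/

namespace Pool.Agent.Work.MP_a23c49_lc

open Finset

set_option linter.unusedSectionVars false

variable {X : Type} [DecidableEq X] {T : X → X → X → Bool}

/-- the number of sweeps -/
def KK (n : ℕ) : ℕ := 64 * n * (12000 * n ^ 3) ^ 2

/-- the number of random bits -/
def qq (n : ℕ) : ℕ := n * n + KK n * n

/-- one attempt succeeds if the optimum is large -/
theorem attempt (hT : LS T) {S : List X} (hS : S.Nodup)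
    (hsup : ∀ a b c, T a b c = true → a ∈ S ∧ b ∈ S) {O : Finset X} (hO : Ind T O)
    (hOS : O ⊆ S.toFinset) {L : ℝ} (hL : L = Real.log S.length) (hL200 : 200 ≤ L)
    (hg : Real.exp (9 / 10 * L) ≤ O.card) :
    ∃ t j m : ℕ, t ≤ S.length ∧ j ≤ S.length ∧
      bav (qq S.length) (fun l => short m (att T (KK S.length) t j S l)) ≤ 4 / 50 ∧
      ∀ A : ℕ, m < A → (O.card : ℝ) ≤ 14000 * √(S.length / L) * A := by
  classical
  set n : ℕ := S.length with hn
  set g : ℝ := (O.card : ℝ) with hgd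
  have hL0 : 0 < L := by linarith
  have hn0 : (0 : ℝ) < n := by
    rcases Nat.eq_zero_or_pos n with h | h
    · rw [h] at hL; simp at hL; linarith
    · exact_mod_cast h
  have hnL : (n : ℝ) = Real.exp L := by rw [hL, Real.exp_log hn0]
  clear hL
  have hgn : g ≤ n := by
    rw [hgd, hn, ← List.toFinset_card_of_nodup hS]
    exact_mod_cast card_le_card hOS
  have hg181 : 181 ≤ g := by
    have hg1 : Real.exp 180 ≤ g := le_trans (Real.exp_le_exp.mpr (by linarith)) hg
    have := Real.add_one_le_exp (180 : ℝ)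
    linarith
  have hg0 : 0 < g := by linarith
  -- the line bound
  set t : ℕ := ⌈4 * (n : ℝ) / g⌉₊ with ht
  have ht1 : 4 * (n : ℝ) / g ≤ t := Nat.le_ceil _
  have ht2 : (t : ℝ) ≤ 5 * n / g := by
    have h1 : (t : ℝ) < 4 * n / g + 1 := Nat.ceil_lt_add_one (by positivity)
    have h2 : (1 : ℝ) ≤ n / g := by rw [le_div_iff₀ hg0]; linarith
    have h3 : 5 * (n : ℝ) / g = 4 * n / g + n / g := by ring
    linarith
  have ht4 : 4 * (n : ℝ) ≤ t * g := by rwa [div_le_iff₀ hg0] at ht1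
  have ht0 : (0 : ℝ) < t := by
    by_contra h
    push Not at h
    have : (t : ℝ) * g ≤ 0 := mul_nonpos_of_nonpos_of_nonneg h hg0.le
    linarith
  have ht5 : (t : ℝ) * g ≤ 5 * n := by rwa [le_div_iff₀ hg0] at ht2
  have htN : (1 : ℝ) ≤ t := by
    have : 0 < t := by exact_mod_cast ht0
    exact_mod_cast this
  have htn : (t : ℝ) ≤ n := by
    by_contra h
    push Not at h
    nlinarith
  -- the pruned set
  set V := prune T t S with hV
  set N : ℝ := (V.length : ℝ) with hN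
  have hVnd : V.Nodup := hS.sublist (prune_sub t S)
  have hNn : N ≤ n := by
    rw [hN, hn]
    exact_mod_cast (prune_sub t S).length_le
  have hNg : g / 2 ≤ N := by
    have h1 := prune_loss hT hO t S hOS
    rw [← hV] at h1
    have h2 : (O ∩ V.toFinset).card ≤ V.length := by
      rw [← List.toFinset_card_of_nodup hVnd]
      exact card_le_card inter_subset_right
    have h3 : (t : ℝ) * g + 2 * N ≤ t * (O ∩ V.toFinset).card + 2 * n := by
      rw [hgd, hN]
      exact_mod_cast h1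
    have h4 : ((O ∩ V.toFinset).card : ℝ) ≤ N := by rw [hN]; exact_mod_cast h2
    have h5 : (t : ℝ) * (O ∩ V.toFinset).card ≤ t * N := mul_le_mul_of_nonneg_left h4 ht0.le
    have h6 : (t : ℝ) * (g / 2) ≤ t * N := by
      have : 0 ≤ N := by linarith [(Nat.cast_nonneg V.length : (0 : ℝ) ≤ V.length)]
      nlinarith
    exact le_of_mul_le_mul_left h6 ht0
  set M : ℝ := N / t with hM
  have hN0 : 0 < N := by linarith
  have hM0 : 0 < M := div_pos hN0 ht0
  have hMN : M * t = N := by rw [hM]; field_simp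
  have hMle : M ≤ N := by
    rw [hM]; exact div_le_self hN0.le htN
  have hMge : g ^ 2 / (10 * n) ≤ M := by
    rw [hM, div_le_div_iff₀ (by positivity) ht0]
    calc g ^ 2 * t = g * (t * g) := by ring
      _ ≤ g * (5 * n) := mul_le_mul_of_nonneg_left ht5 hg0.le
      _ = g / 2 * (10 * n) := by ring
      _ ≤ N * (10 * n) := mul_le_mul_of_nonneg_right hNg (by positivity)
  have hMexp : Real.exp (39 / 50 * L) ≤ M := by
    refine le_trans ?_ hMge
    rw [le_div_iff₀ (by positivity)]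
    have h1 : Real.exp (9 / 10 * L) ^ 2 ≤ g ^ 2 := pow_le_pow_left₀ (Real.exp_pos _).le hg 2
    have h2 : Real.exp (9 / 10 * L) ^ 2 = Real.exp (9 / 5 * L) := by
      rw [← Real.exp_nat_mul]; congr 1; push_cast; ring
    have h3 : (10 : ℝ) ≤ Real.exp (1 / 50 * L) := by
      have h4 : Real.exp 4 ≤ Real.exp (1 / 50 * L) := Real.exp_le_exp.mpr (by linarith)
      have h5 : (10 : ℝ) ≤ Real.exp 4 := by
        have := Real.exp_one_gt_d9
        have h3 : Real.exp 4 = Real.exp 1 ^ 4 := by rw [← Real.exp_nat_mul]; norm_num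
        rw [h3]
        calc (10 : ℝ) ≤ (2.7182818283 : ℝ) ^ 4 := by norm_num
          _ ≤ Real.exp 1 ^ 4 := pow_le_pow_left₀ (by norm_num) this.le 4
      linarith
    rw [h2] at h1
    refine le_trans ?_ h1
    calc Real.exp (39 / 50 * L) * (10 * n) ≤
          Real.exp (39 / 50 * L) * (Real.exp (1 / 50 * L) * Real.exp L) := by
          apply mul_le_mul_of_nonneg_left _ (Real.exp_pos _).le
          rw [hnL]
          exact mul_le_mul_of_nonneg_right h3 (Real.exp_pos _).le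
      _ = Real.exp (9 / 5 * L) := by
          rw [← Real.exp_add, ← Real.exp_add]; congr 1; ring
  -- the scale
  have hM220 : (2 : ℝ) ^ 220 ≤ M := by
    refine le_trans ?_ hMexp
    have h1 : Real.exp 156 ≤ Real.exp (39 / 50 * L) := Real.exp_le_exp.mpr (by linarith)
    refine le_trans ?_ h1
    have h3 : Real.exp 156 = Real.exp 1 ^ 156 := by rw [← Real.exp_nat_mul]; norm_num
    rw [h3]
    have := Real.exp_one_gt_d9
    calc (2 : ℝ) ^ 220 ≤ (2.7182818283 : ℝ) ^ 156 := by norm_num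
      _ ≤ Real.exp 1 ^ 156 := pow_le_pow_left₀ (by norm_num) this.le 156
  obtain ⟨b, hb⟩ : ∃ b : ℕ, b = 2 ^ 220 := ⟨_, rfl⟩
  have hb1 : 1 < b := by rw [hb]; norm_num
  have hbr : (b : ℝ) = 2 ^ 220 := by rw [hb, Nat.cast_pow, Nat.cast_ofNat]
  rw [← hbr] at hM220
  have hMf : b ≤ ⌊M⌋₊ := Nat.le_floor hM220
  clear hM220
  obtain ⟨k, hk⟩ : ∃ k, k = Nat.log b ⌊M⌋₊ := ⟨_, rfl⟩
  have hk1 : 0 < k := by rw [hk]; exact Nat.log_pos hb1 hMf
  have hMk : (2 : ℝ) ^ (220 * k) ≤ M := by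
    have h1 : b ^ k ≤ ⌊M⌋₊ := by
      rw [hk]
      exact Nat.pow_log_le_self _ (by omega)
    have h2 : ((b ^ k : ℕ) : ℝ) ≤ M := (Nat.cast_le.mpr h1).trans (Nat.floor_le hM0.le)
    rw [pow_mul, ← hbr]
    exact_mod_cast h2
  have hMk2 : M < 2 ^ (440 * k) := by
    have h1 : ⌊M⌋₊ < b ^ (k + 1) := by rw [hk]; exact Nat.lt_pow_succ_log_self hb1 _
    have h2 : M < ((b ^ (k + 1) : ℕ) : ℝ) := (Nat.floor_lt hM0.le).mp h1
    refine lt_of_lt_of_le h2 ?_
    rw [Nat.cast_pow, hbr, ← pow_mul]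
    exact pow_le_pow_right₀ (by norm_num) (by omega)
  have hkL : 39 / 50 * L ≤ 440 * 0.6932 * k := by
    have h1 : Real.exp (39 / 50 * L) ≤ 2 ^ (440 * k) := hMexp.trans hMk2.le
    have h2 := (Real.le_log_iff_exp_le (by positivity)).mpr h1
    rw [Real.log_pow] at h2
    have h3 := Real.log_two_lt_d9
    refine h2.trans ?_
    push_cast
    have : (0 : ℝ) ≤ k := Nat.cast_nonneg k
    nlinarith
  -- the target size
  clear hb hb1 hbr hMf
  clear_value M
  obtain ⟨m, hm⟩ : ∃ m, m = ⌊√(k * M / 42000)⌋₊ := ⟨_, rfl⟩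
  have hkR : (0 : ℝ) < k := by exact_mod_cast hk1
  have hm1 : (m : ℝ) ^ 2 ≤ k * M / 42000 := by
    have h1 : (m : ℝ) ≤ √(k * M / 42000) := by rw [hm]; exact Nat.floor_le (Real.sqrt_nonneg _)
    calc (m : ℝ) ^ 2 ≤ √(k * M / 42000) ^ 2 := pow_le_pow_left₀ (Nat.cast_nonneg _) h1 2
      _ = k * M / 42000 := Real.sq_sqrt (by positivity)
  have hm2 : 42000 * (m : ℝ) ^ 2 * t ≤ k * V.length := by
    rw [← hN, ← hMN]
    calc 42000 * (m : ℝ) ^ 2 * t ≤ 42000 * (k * M / 42000) * t := by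
          apply mul_le_mul_of_nonneg_right _ ht0.le
          linarith
      _ = k * (M * t) := by ring
  -- the sampling rate
  have hex : ∃ j : ℕ, t * N * ((1 / 2) ^ j) ^ 2 ≤ (2 : ℝ) ^ (22 * k) := by
    refine ⟨n, ?_⟩
    have h1 : (n : ℝ) ≤ 2 ^ n := by exact_mod_cast Nat.lt_two_pow_self.le
    have h2 : (t : ℝ) * N ≤ 2 ^ n * 2 ^ n :=
      mul_le_mul (htn.trans h1) (hNn.trans h1) hN0.le (by positivity)
    calc t * N * ((1 / 2) ^ n) ^ 2 ≤ (2 ^ n * 2 ^ n) * ((1 / 2) ^ n) ^ 2 :=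
          mul_le_mul_of_nonneg_right h2 (by positivity)
      _ = (2 * (1 / 2)) ^ n * (2 * (1 / 2)) ^ n := by rw [mul_pow]; ring
      _ = 1 := by norm_num
      _ ≤ 2 ^ (22 * k) := one_le_pow₀ (by norm_num)
  set j := Nat.find hex with hj
  have hj1 : t * N * ((1 / 2) ^ j) ^ 2 ≤ (2 : ℝ) ^ (22 * k) := Nat.find_spec hex
  have hjn : j ≤ n := by
    apply Nat.find_min' hex
    have h1 : (n : ℝ) ≤ 2 ^ n := by exact_mod_cast Nat.lt_two_pow_self.le
    have h2 : (t : ℝ) * N ≤ 2 ^ n * 2 ^ n :=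
      mul_le_mul (htn.trans h1) (hNn.trans h1) hN0.le (by positivity)
    calc t * N * ((1 / 2) ^ n) ^ 2 ≤ (2 ^ n * 2 ^ n) * ((1 / 2) ^ n) ^ 2 :=
          mul_le_mul_of_nonneg_right h2 (by positivity)
      _ = (2 * (1 / 2)) ^ n * (2 * (1 / 2)) ^ n := by rw [mul_pow]; ring
      _ = 1 := by norm_num
      _ ≤ 2 ^ (22 * k) := one_le_pow₀ (by norm_num)
  have hNt : (2 : ℝ) ^ (220 * k) ≤ t * N := by
    refine hMk.trans (hMle.trans ?_)
    nlinarith
  have hj0 : j ≠ 0 := by
    intro h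
    rw [h] at hj1
    simp only [pow_zero, one_pow, mul_one] at hj1
    have h1 : (2 : ℝ) ^ (22 * k) < 2 ^ (220 * k) := pow_lt_pow_right₀ (by norm_num) (by omega)
    linarith
  have hj2 : (2 : ℝ) ^ (20 * k) ≤ t * N * ((1 / 2) ^ j) ^ 2 := by
    obtain ⟨i, hi⟩ : ∃ i, j = i + 1 := ⟨j - 1, by omega⟩
    have h1 : ¬ t * N * ((1 / 2) ^ i) ^ 2 ≤ (2 : ℝ) ^ (22 * k) := by
      apply Nat.find_min hex
      omega
    push Not at h1
    rw [hi, pow_succ]
    have h2 : (2 : ℝ) ^ (22 * k) = 2 ^ (20 * k) * 2 ^ (2 * k) := by rw [← pow_add]; congr 1; ring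
    have h3 : (4 : ℝ) ≤ 2 ^ (2 * k) := by
      calc (4 : ℝ) = 2 ^ 2 := by norm_num
        _ ≤ 2 ^ (2 * k) := pow_le_pow_right₀ (by norm_num) (by omega)
    have h4 : (2 : ℝ) ^ (20 * k) * 4 ≤ 2 ^ (22 * k) := by
      rw [h2]; exact mul_le_mul_of_nonneg_left h3 (by positivity)
    calc (2 : ℝ) ^ (20 * k) ≤ 2 ^ (22 * k) / 4 := by linarith
      _ ≤ t * N * ((1 / 2) ^ i) ^ 2 / 4 := by linarith
      _ = t * N * ((1 / 2) ^ i * (1 / 2)) ^ 2 := by ring
  have hj3 : (2 : ℝ) ^ (120 * k) ≤ (1 / 2) ^ j * N := by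
    apply abs_le_of_sq_le_sq' _ (by positivity) |>.2
    have h1 : ((1 / 2 : ℝ) ^ j * N) ^ 2 = (t * N * ((1 / 2) ^ j) ^ 2) * M := by
      rw [← hMN]; ring
    rw [h1, ← pow_mul, show 120 * k * 2 = 20 * k + 220 * k by ring, pow_add]
    exact mul_le_mul hj2 hMk (by positivity) (by positivity)
  have hkn : (2 : ℝ) ^ (8 * k) ≤ n := by
    have h1 : (2 : ℝ) ^ (8 * k) ≤ 2 ^ (220 * k) := pow_le_pow_right₀ (by norm_num) (by omega)
    linarith
  refine ⟨t, j, m, by exact_mod_cast htn, hjn, ?_, ?_⟩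
  · have hVn : V.length ≤ n := by rw [hN] at hNn; exact_mod_cast hNn
    have h1 := att_fail (K := KK n) (q := qq n) hT V hVnd (prune_cod t S hS hsup) hk1 hj2 hj1 hj3
      hm2 hVn hkn rfl (by
        unfold qq
        exact Nat.add_le_add_right (Nat.mul_le_mul hjn hVn) _)
    exact h1
  · intro A hA
    have hA1 : √(k * M / 42000) ≤ A := by
      have h1 : √(k * M / 42000) < m + 1 := by rw [hm]; exact Nat.lt_floor_add_one _
      have h2 : ((m + 1 : ℕ) : ℝ) ≤ A := by exact_mod_cast hA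
      push_cast at h2
      linarith
    have hA2 : k * M / 42000 ≤ (A : ℝ) ^ 2 := by
      calc k * M / 42000 = √(k * M / 42000) ^ 2 := (Real.sq_sqrt (by positivity)).symm
        _ ≤ (A : ℝ) ^ 2 := pow_le_pow_left₀ (Real.sqrt_nonneg _) hA1 2
    apply abs_le_of_sq_le_sq' _ (by positivity) |>.2
    rw [mul_pow, mul_pow, Real.sq_sqrt (by positivity)]
    -- g^2 ≤ 14000^2 * (n / L) * A^2
    have h1 : g ^ 2 ≤ M * (10 * n) := by rwa [div_le_iff₀ (by positivity)] at hMge
    have h2 : L * g ^ 2 ≤ 14000 ^ 2 * n * (A : ℝ) ^ 2 := by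
      have h3 : L ≤ 391.1 * k := by nlinarith
      have h4 : L * g ^ 2 ≤ 391.1 * k * (M * (10 * n)) :=
        mul_le_mul h3 h1 (by positivity) (by positivity)
      have h5 : k * M ≤ 42000 * (A : ℝ) ^ 2 := by linarith
      have h6 : 391.1 * k * (M * (10 * n)) = 3911 * n * (k * M) := by ring
      have h7 : 3911 * (n : ℝ) * (k * M) ≤ 3911 * n * (42000 * (A : ℝ) ^ 2) :=
        mul_le_mul_of_nonneg_left h5 (by positivity)
      have h8 : 0 ≤ (n : ℝ) * (A : ℝ) ^ 2 := by positivity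
      nlinarith
    rw [mul_div_assoc', div_mul_eq_mul_div, le_div_iff₀ hL0]
    linarith

/-- the greedy algorithm is enough if the optimum is small -/
theorem greedy_enough {n g A : ℝ} (hn : 2 ≤ n) (hg0 : 0 ≤ g) (hA : 0 ≤ A) (hgn : g ≤ n)
    (hgr : g ≤ 3 * A ^ 2) (h : Real.log n < 200 ∨ g < Real.exp (9 / 10 * Real.log n)) :
    g ≤ 14000 * √(n / Real.log n) * A := by
  have hL0 : 0 < Real.log n := Real.log_pos (by linarith)
  have hnL : n = Real.exp (Real.log n) := by rw [Real.exp_log (by linarith)]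
  generalize Real.log n = L at *
  apply abs_le_of_sq_le_sq' _ (by positivity) |>.2
  rw [mul_pow, mul_pow, Real.sq_sqrt (by positivity)]
  have h1 : g * L ≤ 200 * n := by
    rcases h with h | h
    · nlinarith
    · have h2 : L ≤ 10 * Real.exp (1 / 10 * L) := by
        have := Real.add_one_le_exp (1 / 10 * L)
        linarith
      have h3 : g * L ≤ Real.exp (9 / 10 * L) * (10 * Real.exp (1 / 10 * L)) :=
        mul_le_mul h.le h2 hL0.le (Real.exp_pos _).le
      have h4 : Real.exp (9 / 10 * L) * (10 * Real.exp (1 / 10 * L)) = 10 * n := by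
        rw [hnL, mul_left_comm, ← Real.exp_add]
        congr 2
        ring
      linarith
  have h2 : L * g ^ 2 ≤ 14000 ^ 2 * n * A ^ 2 := by
    have h3 : L * g ^ 2 = g * L * g := by ring
    have h4 : g * L * g ≤ (200 * n) * (3 * A ^ 2) := mul_le_mul h1 hgr hg0 (by positivity)
    have h5 : 0 ≤ n * A ^ 2 := by positivity
    nlinarith
  rw [mul_div_assoc', div_mul_eq_mul_div, le_div_iff₀ hL0]
  linarith

/-- the ratio of the procedure -/
theorem alg_ratio (hT : LS T) {S : List X} (hS : S.Nodup)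
    (hsup : ∀ a b c, T a b c = true → a ∈ S ∧ b ∈ S) (hn2 : 2 ≤ S.length) {O : Finset X}
    (hO : Ind T O) (hOS : O ⊆ S.toFinset) (P : List Bool → Prop) [DecidablePred P]
    (hP : ∀ l, (O.card : ℝ) ≤ 14000 * √(S.length / Real.log S.length) *
      (alg T (KK S.length) S l).length → P l) :
    bav (qq S.length) (fun l => if P l then (0 : ℝ) else 1) ≤ 4 / 50 := by
  have hgn : (O.card : ℝ) ≤ S.length := by
    rw [← List.toFinset_card_of_nodup hS]
    exact_mod_cast card_le_card hOS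
  by_cases h : Real.log S.length < 200 ∨ (O.card : ℝ) < Real.exp (9 / 10 * Real.log S.length)
  · have h1 : ∀ l, P l := by
      intro l
      apply hP
      apply greedy_enough (by exact_mod_cast hn2) (Nat.cast_nonneg _) (Nat.cast_nonneg _) hgn _ h
      have h2 := grd_large hT hS hO hOS
      have h3 := (alg_inv hT hS (KK S.length) l).2.1
      have h4 : (O.card : ℝ) ≤ 3 * ((grd T S).length : ℝ) ^ 2 := by exact_mod_cast h2
      have h5 : ((grd T S).length : ℝ) ^ 2 ≤ ((alg T (KK S.length) S l).length : ℝ) ^ 2 :=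
        pow_le_pow_left₀ (Nat.cast_nonneg _) (by exact_mod_cast h3) 2
      linarith
    have h2 : (fun l => if P l then (0 : ℝ) else 1) = fun _ => 0 := by
      funext l; rw [if_pos (h1 l)]
    rw [h2, bav_const]
    norm_num
  · push Not at h
    obtain ⟨t, j, m, ht, hj, h1, h2⟩ := attempt hT hS hsup hO hOS rfl h.1 h.2
    refine le_trans (bav_mono _ _ _ fun l _ => ?_) h1
    unfold short
    split_ifs with c1 c2 c2
    · exact zero_le_one
    · exact le_refl _
    · exact le_refl _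
    · exfalso
      apply c1
      apply hP
      apply h2
      exact lt_of_lt_of_le (not_le.mp c2) ((alg_inv hT hS (KK S.length) l).2.2 t j ht hj)

end Pool.Agent.Work.MP_a23c49_lc
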