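import Pool.Agent.Work.MP_a23c49_lc.Phase

/-!
# A random sample has the properties used by the dynamics
-/

namespace Pool.Agent.Work.MP_a23c49_lc

open Finset

set_option linter.unusedSectionVars false

variable {X : Type} [DecidableEq X] {T : X → X → X → Bool} {R : Finset X} {v : X}

/-- expectation over a random subset of `V`: every point is kept with probability `p` -/
noncomputable def Es (p : ℝ) : List X → (Finset X → ℝ) → ℝ
  | [], F => F ∅
  | v :: V, F => p * Es p V (fun A => F (insert v A)) + (1 - p) * Es p V F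

variable {p : ℝ} {V : List X}

theorem Es_add (V : List X) : ∀ F G : Finset X → ℝ,
    Es p V (fun A => F A + G A) = Es p V F + Es p V G := by
  induction V with
  | nil => intro F G; rfl
  | cons v V ih =>
    intro F G
    simp only [Es]
    rw [ih, ih]
    ring

theorem Es_smul (c : ℝ) (V : List X) : ∀ F : Finset X → ℝ,
    Es p V (fun A => c * F A) = c * Es p V F := by
  induction V with
  | nil => intro F; rfl
  | cons v V ih =>
    intro F
    simp only [Es]
    rw [ih, ih]
    ring

theorem Es_const (c : ℝ) (V : List X) : Es p V (fun _ => c) = c := by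
  induction V with
  | nil => rfl
  | cons v V ih =>
    simp only [Es]
    rw [ih]
    ring

theorem Es_sum {ι : Type} (s : Finset ι) (F : ι → Finset X → ℝ) :
    Es p V (fun A => ∑ i ∈ s, F i A) = ∑ i ∈ s, Es p V (F i) := by
  classical
  induction s using Finset.induction_on with
  | empty => simp [Es_const]
  | insert a s ha ih =>
    simp only [sum_insert ha]
    rw [Es_add, ih]

theorem Es_mono (hp0 : 0 ≤ p) (hp1 : p ≤ 1) (V : List X) : ∀ F G : Finset X → ℝ,
    (∀ A ⊆ V.toFinset, F A ≤ G A) → Es p V F ≤ Es p V G := by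
  induction V with
  | nil => intro F G h; exact h ∅ (by simp)
  | cons v V ih =>
    intro F G h
    simp only [Es]
    have h1 := ih (fun A => F (insert v A)) (fun A => G (insert v A)) (fun A hA => h _ (by
      rw [List.toFinset_cons]
      exact insert_subset_insert _ hA))
    have h2 := ih F G (fun A hA => h _ (by
      rw [List.toFinset_cons]
      exact hA.trans (subset_insert _ _)))
    have := mul_le_mul_of_nonneg_left h1 hp0
    have := mul_le_mul_of_nonneg_left h2 (sub_nonneg.mpr hp1)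
    linarith

theorem Es_sub (V : List X) (hV : V.Nodup) : ∀ A : Finset X,
    Es p V (fun R => if A ⊆ R then (1 : ℝ) else 0) = if A ⊆ V.toFinset then p ^ A.card else 0 := by
  induction V with
  | nil =>
    intro A
    simp only [Es]
    by_cases h : A ⊆ ∅
    · have h' : A ⊆ ([] : List X).toFinset := h
      rw [if_pos h, if_pos h', subset_empty.mp h]; simp
    · have h' : ¬ A ⊆ ([] : List X).toFinset := h
      rw [if_neg h, if_neg h']
  | cons v V ih =>
    intro A
    have hvV : v ∉ V.toFinset := by rw [List.mem_toFinset]; exact (List.nodup_cons.mp hV).1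
    have ih := ih (List.nodup_cons.mp hV).2
    simp only [Es]
    have h1 : (fun R : Finset X => if A ⊆ insert v R then (1 : ℝ) else 0) =
        fun R => if A.erase v ⊆ R then 1 else 0 := by
      funext R
      simp only [subset_insert_iff]
    rw [h1, ih, ih, List.toFinset_cons]
    by_cases hv : v ∈ A
    · have h2 : ¬ A ⊆ V.toFinset := fun h => hvV (h hv)
      rw [if_neg h2, mul_zero, add_zero]
      by_cases h3 : A ⊆ insert v V.toFinset
      · rw [if_pos h3, if_pos (subset_insert_iff.mp h3), ← card_erase_add_one hv, pow_succ]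
        ring
      · rw [if_neg h3, if_neg fun h => h3 (subset_insert_iff.mpr h), mul_zero]
    · rw [erase_eq_of_notMem hv]
      by_cases h3 : A ⊆ V.toFinset
      · rw [if_pos h3, if_pos (h3.trans (subset_insert _ _))]
        ring
      · rw [if_neg h3, if_neg fun h => h3 ((subset_insert_iff_of_notMem hv).mp h)]
        ring

theorem Es_sub_le (hp0 : 0 ≤ p) (V : List X) (hV : V.Nodup) (A : Finset X) :
    Es p V (fun R => if A ⊆ R then (1 : ℝ) else 0) ≤ p ^ A.card := by
  rw [Es_sub V hV]
  split_ifs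
  · exact le_refl _
  · positivity

/-- the second moment of the size of the sample -/
theorem Es_var (V : List X) (hV : V.Nodup) :
    Es p V (fun R => ((R ∩ V.toFinset).card - p * V.length : ℝ) ^ 2) =
      p * (1 - p) * V.length := by
  set W := V.toFinset with hW
  have hWc : W.card = V.length := List.toFinset_card_of_nodup hV
  have e0 : ∀ R : Finset X, ((R ∩ W).card : ℝ) = ∑ v ∈ W, if {v} ⊆ R then (1 : ℝ) else 0 := by
    intro R
    rw [← sum_filter, sum_const, nsmul_eq_mul, mul_one]
    congr 2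
    ext v
    simp [and_comm]
  have e1 : ∀ R : Finset X, ((R ∩ W).card : ℝ) ^ 2 =
      ∑ u ∈ W, ∑ v ∈ W, if ({u, v} : Finset X) ⊆ R then (1 : ℝ) else 0 := by
    intro R
    rw [sq, e0, sum_mul_sum]
    apply sum_congr rfl; intro u _
    apply sum_congr rfl; intro v _
    by_cases hu : u ∈ R
    · by_cases hv : v ∈ R
      · simp [hu, hv, insert_subset_iff]
      · simp [hv, insert_subset_iff]
    · simp [hu, insert_subset_iff]
  have e2 : (fun R : Finset X => ((R ∩ W).card - p * V.length : ℝ) ^ 2) = fun R =>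
      (∑ u ∈ W, ∑ v ∈ W, if ({u, v} : Finset X) ⊆ R then (1 : ℝ) else 0) +
      (((-2 * (p * V.length)) * ∑ v ∈ W, if {v} ⊆ R then (1 : ℝ) else 0) +
        (p * V.length) ^ 2) := by
    funext R
    rw [← e1, ← e0]
    ring
  rw [e2, Es_add, Es_add, Es_const, Es_smul, Es_sum, Es_sum]
  have e3 : ∀ v ∈ W, Es p V (fun R => if {v} ⊆ R then (1 : ℝ) else 0) = p := by
    intro v hv
    rw [Es_sub V hV, if_pos (singleton_subset_iff.mpr hv)]
    simp
  rw [sum_congr rfl e3]
  have e4 : ∀ u ∈ W, Es p V (fun R => ∑ v ∈ W, if ({u, v} : Finset X) ⊆ R then (1 : ℝ) else 0) =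
      p ^ 2 * (V.length - 1) + p := by
    intro u hu
    rw [Es_sum]
    have e5 : ∀ v ∈ W, Es p V (fun R => if ({u, v} : Finset X) ⊆ R then (1 : ℝ) else 0) =
        p ^ 2 + if u = v then p - p ^ 2 else 0 := by
      intro v hv
      rw [Es_sub V hV, if_pos (by
        intro x hx
        rw [mem_insert, mem_singleton] at hx
        rcases hx with h | h
        · rw [h]; exact hu
        · rw [h]; exact hv)]
      by_cases h : u = v
      · rw [if_pos h, h]; simp
      · rw [if_neg h, card_pair h]; ring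
    rw [sum_congr rfl e5, sum_add_distrib, sum_ite_eq, if_pos hu, sum_const, hWc, nsmul_eq_mul]
    ring
  rw [sum_congr rfl e4, sum_const, sum_const, hWc, nsmul_eq_mul, nsmul_eq_mul]
  ring

/-! ### Bad points -/

/-- the tuples that witness a line with four points -/
def c1 (T : X → X → X → Bool) (v : X) (x : X × X × X) : Prop :=
  T v x.1 x.2.1 = true ∧ T v x.1 x.2.2 = true ∧ x.2.1 ≠ x.2.2

/-- the points of the tuple -/
def s1 (v : X) (x : X × X × X) : Finset X := {v, x.1, x.2.1, x.2.2}

/-- the tuples `(a, b, a', b', c)` that witness a triangle of lines -/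
def c2 (T : X → X → X → Bool) (v : X) (x : X × X × X × X × X) : Prop :=
  T v x.1 x.2.2.1 = true ∧ T v x.2.1 x.2.2.2.1 = true ∧ T x.1 x.2.1 x.2.2.2.2 = true ∧
  ({v, x.1, x.2.1, x.2.2.1, x.2.2.2.1, x.2.2.2.2} : Finset X).card = 6

/-- the points of the tuple -/
def s2 (v : X) (x : X × X × X × X × X) : Finset X :=
  {v, x.1, x.2.1, x.2.2.1, x.2.2.2.1, x.2.2.2.2}

instance (v : X) (x : X × X × X) : Decidable (c1 T v x) := by unfold c1; infer_instance
instance (v : X) (x : X × X × X × X × X) : Decidable (c2 T v x) := by unfold c2; infer_instance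

theorem c1_card (hT : LS T) {x : X × X × X} (h : c1 T v x) : (s1 v x).card = 4 := by
  obtain ⟨h1, h2, h3⟩ := h
  have n1 := hT.ne _ _ _ h1
  have n2 := hT.ne _ _ _ ((hT.swap23 v x.1 x.2.1).symm.trans h1)
  have n3 := hT.ne _ _ _ ((hT.rot v x.1 x.2.1).symm.trans h1)
  have n4 := hT.ne _ _ _ ((hT.swap23 v x.1 x.2.2).symm.trans h2)
  have n5 := hT.ne _ _ _ ((hT.rot v x.1 x.2.2).symm.trans h2)
  unfold s1
  rw [card_insert_of_notMem, card_insert_of_notMem, card_insert_of_notMem, card_singleton]
  · simpa using h3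
  · simp only [mem_insert, mem_singleton, not_or]; exact ⟨n3, n5⟩
  · simp only [mem_insert, mem_singleton, not_or]; exact ⟨n1, n2, n4⟩

/-- a bad point has a witness -/
theorem bad_witness (hT : LS T) (hb : ¬ Good T R v) :
    (∃ x : X × X × X, x.1 ∈ R ∧ x.2.1 ∈ R ∧ x.2.2 ∈ R ∧ c1 T v x) ∨
    (∃ x : X × X × X × X × X, x.1 ∈ R ∧ x.2.1 ∈ R ∧ x.2.2.1 ∈ R ∧ x.2.2.2.1 ∈ R ∧
      x.2.2.2.2 ∈ R ∧ c2 T v x) := by
  by_contra hcon
  push Not at hcon
  obtain ⟨hc1, hc2⟩ := hcon
  have one : ∀ a ∈ R, ∀ b ∈ R, ∀ c ∈ R, T v a b = true → T v a c = true → b = c := by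
    intro a ha b hb c hc h1 h2
    by_contra hbc
    exact hc1 (a, b, c) ha hb hc ⟨h1, h2, hbc⟩
  apply hb
  refine ⟨one, ?_⟩
  intro a ha a' ha' b hb b' hb' c hc h1 h2 h3
  by_contra hcv
  -- all six points are distinct
  have n_va := hT.ne _ _ _ h1
  have n_va' := hT.ne _ _ _ ((hT.swap23 v a a').symm.trans h1)
  have n_aa' := hT.ne _ _ _ ((hT.rot v a a').symm.trans h1)
  have n_vb := hT.ne _ _ _ h2
  have n_vb' := hT.ne _ _ _ ((hT.swap23 v b b').symm.trans h2)
  have n_bb' := hT.ne _ _ _ ((hT.rot v b b').symm.trans h2)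
  have n_ab := hT.ne _ _ _ h3
  have n_ac := hT.ne _ _ _ ((hT.swap23 a b c).symm.trans h3)
  have n_bc := hT.ne _ _ _ ((hT.rot a b c).symm.trans h3)
  -- if `v, a, b` are collinear then `c` is on the line as well
  have key : T v a b ≠ true := by
    intro h
    -- T a b v and T a b c, so T a v c
    have e1 : T a b v = true := by rw [← hT.rot v a b]; exact h
    have e2 : T a v c = true := hT.trans a b v c e1 h3 (fun h => hcv h.symm)
    have e3 : T v a c = true := by rw [hT.swap12]; exact e2
    exact n_bc (one a ha b hb c hc h e3)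
  have m1 : a' ≠ b := by rintro rfl; exact key h1
  have m2 : a ≠ b' := by
    rintro rfl
    apply key
    rw [hT.swap23]; exact h2
  have m3 : a' ≠ b' := by
    rintro rfl
    have e1 : T v a' a = true := by rw [hT.swap23]; exact h1
    have e2 : T v a' b = true := by rw [hT.swap23]; exact h2
    exact n_ab (one a' ha' a ha b hb e1 e2)
  have m4 : a' ≠ c := by
    rintro rfl
    -- T v a c, T a b c
    have e1 : T a a' v = true := by rw [← hT.rot v a a']; exact h1
    have e2 : T a a' b = true := by rw [hT.swap23]; exact h3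
    have e3 : T a v b = true := hT.trans a a' v b e1 e2 n_vb
    apply key
    rw [hT.swap12]; exact e3
  have m5 : b' ≠ c := by
    rintro rfl
    have e1 : T b b' v = true := by rw [← hT.rot v b b']; exact h2
    have e2 : T b b' a = true := by rw [← hT.rot a b b']; exact h3
    have e3 : T b v a = true := hT.trans b b' v a e1 e2 n_va
    apply key
    rw [← hT.rot b v a]; exact e3
  refine hc2 (a, b, a', b', c) ha hb ha' hb' hc ⟨h1, h2, h3, ?_⟩
  simp only
  rw [card_insert_of_notMem, card_insert_of_notMem, card_insert_of_notMem, card_insert_of_notMem,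
    card_insert_of_notMem, card_singleton]
  · simpa using m5
  · simp only [mem_insert, mem_singleton, not_or]; exact ⟨m3, m4⟩
  · simp only [mem_insert, mem_singleton, not_or]; exact ⟨fun h => m1 h.symm, n_bb', n_bc⟩
  · simp only [mem_insert, mem_singleton, not_or]; exact ⟨n_ab, n_aa', m2, n_ac⟩
  · simp only [mem_insert, mem_singleton, not_or]
    exact ⟨n_va, n_vb, n_va', n_vb', fun h => hcv h.symm⟩

/-- the number of witnesses -/
noncomputable def wit (T : X → X → X → Bool) (W R : Finset X) : ℝ :=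
  ∑ v ∈ W, (∑ x ∈ W ×ˢ W ×ˢ W, (if c1 T v x then (if s1 v x ⊆ R then (1 : ℝ) else 0) else 0) +
    ∑ x ∈ W ×ˢ W ×ˢ W ×ˢ W ×ˢ W, (if c2 T v x then (if s2 v x ⊆ R then (1 : ℝ) else 0) else 0))

theorem bad_le_wit (hT : LS T) {W : Finset X} (hRW : R ⊆ W) {B : Finset X} (hBR : B ⊆ R)
    (hB : ∀ v ∈ B, ¬ Good T R v) : (B.card : ℝ) ≤ wit T W R := by
  have h0 : ∀ v ∈ W, 0 ≤ (∑ x ∈ W ×ˢ W ×ˢ W, (if c1 T v x then (if s1 v x ⊆ R then (1 : ℝ) else 0)
      else 0) + ∑ x ∈ W ×ˢ W ×ˢ W ×ˢ W ×ˢ W,
      (if c2 T v x then (if s2 v x ⊆ R then (1 : ℝ) else 0) else 0)) := by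
    intro v _
    apply add_nonneg <;> apply sum_nonneg <;> intro x _ <;> split_ifs <;> norm_num
  have h1 : (B.card : ℝ) = ∑ v ∈ B, (1 : ℝ) := by simp
  rw [h1]
  refine le_trans (sum_le_sum ?_) (sum_le_sum_of_subset_of_nonneg (hBR.trans hRW)
    fun v hv _ => h0 v hv)
  intro v hv
  have hvR := hBR hv
  rcases bad_witness hT (hB v hv) with ⟨x, m1, m2, m3, hx⟩ | ⟨x, m1, m2, m3, m4, m5, hx⟩
  · have h2 : (1 : ℝ) ≤ ∑ x ∈ W ×ˢ W ×ˢ W,
        (if c1 T v x then (if s1 v x ⊆ R then (1 : ℝ) else 0) else 0) := by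
      have h3 : (if c1 T v x then (if s1 v x ⊆ R then (1 : ℝ) else 0) else 0) = 1 := by
        rw [if_pos hx, if_pos]
        unfold s1
        simp only [insert_subset_iff, singleton_subset_iff]
        exact ⟨hvR, m1, m2, m3⟩
      refine h3.symm.le.trans ?_
      apply single_le_sum (f := fun x => (if c1 T v x then (if s1 v x ⊆ R then (1 : ℝ) else 0) else 0))
      · intro x _; split_ifs <;> norm_num
      · simp only [mem_product]
        exact ⟨hRW m1, hRW m2, hRW m3⟩
    have h4 : (0 : ℝ) ≤ ∑ x ∈ W ×ˢ W ×ˢ W ×ˢ W ×ˢ W,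
        (if c2 T v x then (if s2 v x ⊆ R then (1 : ℝ) else 0) else 0) := by
      apply sum_nonneg; intro x _; split_ifs <;> norm_num
    linarith
  · have h2 : (1 : ℝ) ≤ ∑ x ∈ W ×ˢ W ×ˢ W ×ˢ W ×ˢ W,
        (if c2 T v x then (if s2 v x ⊆ R then (1 : ℝ) else 0) else 0) := by
      have h3 : (if c2 T v x then (if s2 v x ⊆ R then (1 : ℝ) else 0) else 0) = 1 := by
        rw [if_pos hx, if_pos]
        unfold s2
        simp only [insert_subset_iff, singleton_subset_iff]
        exact ⟨hvR, m1, m2, m3, m4, m5⟩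
      refine h3.symm.le.trans ?_
      apply single_le_sum (f := fun x => (if c2 T v x then (if s2 v x ⊆ R then (1 : ℝ) else 0) else 0))
      · intro x _; split_ifs <;> norm_num
      · simp only [mem_product]
        exact ⟨hRW m1, hRW m2, hRW m3, hRW m4, hRW m5⟩
    have h4 : (0 : ℝ) ≤ ∑ x ∈ W ×ˢ W ×ˢ W,
        (if c1 T v x then (if s1 v x ⊆ R then (1 : ℝ) else 0) else 0) := by
      apply sum_nonneg; intro x _; split_ifs <;> norm_num
    linarith

/-- the expected number of witnesses -/
theorem Es_wit_le (hT : LS T) (hp0 : 0 ≤ p) (V : List X) (hV : V.Nodup) {t : ℕ}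
    (hcod : ∀ a b, ((V.toFinset.filter fun c => T a b c = true).card : ℝ) ≤ t) :
    Es p V (wit T V.toFinset) ≤ V.length ^ 2 * t ^ 2 * p ^ 4 + V.length ^ 3 * t ^ 3 * p ^ 6 := by
  set W := V.toFinset with hW
  have hWc : (W.card : ℝ) = V.length := by rw [hW, List.toFinset_card_of_nodup hV]
  have h0 : Es p V (wit T W) = ∑ v ∈ W,
      (∑ x ∈ W ×ˢ W ×ˢ W, Es p V (fun R => if c1 T v x then (if s1 v x ⊆ R then (1 : ℝ) else 0) else 0) +
      ∑ x ∈ W ×ˢ W ×ˢ W ×ˢ W ×ˢ W,
        Es p V (fun R => if c2 T v x then (if s2 v x ⊆ R then (1 : ℝ) else 0) else 0)) := by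
    unfold wit
    rw [Es_sum]
    apply sum_congr rfl
    intro v _
    rw [Es_add, Es_sum, Es_sum]
  rw [h0]
  have ht0 : (0 : ℝ) ≤ t := Nat.cast_nonneg t
  -- the basic counting step
  have step : ∀ (a b : X) (c : ℝ), 0 ≤ c →
      ∑ x ∈ W, (if T a b x = true then c else 0) ≤ t * c := by
    intro a b c hc
    rw [← sum_filter, sum_const, nsmul_eq_mul]
    exact mul_le_mul_of_nonneg_right (hcod a b) hc
  have g1 : ∀ v ∈ W, ∑ x ∈ W ×ˢ W ×ˢ W,
      Es p V (fun R => if c1 T v x then (if s1 v x ⊆ R then (1 : ℝ) else 0) else 0) ≤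
      V.length * t ^ 2 * p ^ 4 := by
    intro v _
    have a1 : ∀ x ∈ W ×ˢ W ×ˢ W,
        Es p V (fun R => if c1 T v x then (if s1 v x ⊆ R then (1 : ℝ) else 0) else 0) ≤
        if T v x.1 x.2.1 = true then (if T v x.1 x.2.2 = true then p ^ 4 else 0) else 0 := by
      intro x _
      by_cases h : c1 T v x
      · simp only [if_pos h]
        rw [if_pos h.1, if_pos h.2.1, ← c1_card hT h]
        exact Es_sub_le hp0 V hV _
      · simp only [if_neg h]
        rw [Es_const]
        split_ifs <;> positivity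
    refine (sum_le_sum a1).trans ?_
    rw [sum_product]
    have a2 : ∀ a ∈ W, ∑ y ∈ W ×ˢ W,
        (if T v (a, y).1 (a, y).2.1 = true then (if T v (a, y).1 (a, y).2.2 = true then p ^ 4 else 0)
          else 0) ≤ t ^ 2 * p ^ 4 := by
      intro a _
      rw [sum_product]
      simp only
      have a3 : ∀ b ∈ W, ∑ c ∈ W, (if T v a b = true then (if T v a c = true then p ^ 4 else 0) else 0) ≤
          if T v a b = true then t * p ^ 4 else 0 := by
        intro b _
        split_ifs with h
        · exact step v a _ (by positivity)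
        · simp
      refine (sum_le_sum a3).trans ?_
      refine (step v a _ (by positivity)).trans (le_of_eq ?_)
      ring
    refine (sum_le_sum a2).trans (le_of_eq ?_)
    rw [sum_const, nsmul_eq_mul, hWc]
    ring
  have g2 : ∀ v ∈ W, ∑ x ∈ W ×ˢ W ×ˢ W ×ˢ W ×ˢ W,
      Es p V (fun R => if c2 T v x then (if s2 v x ⊆ R then (1 : ℝ) else 0) else 0) ≤
      V.length ^ 2 * t ^ 3 * p ^ 6 := by
    intro v _
    have a1 : ∀ x ∈ W ×ˢ W ×ˢ W ×ˢ W ×ˢ W,
        Es p V (fun R => if c2 T v x then (if s2 v x ⊆ R then (1 : ℝ) else 0) else 0) ≤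
        if T v x.1 x.2.2.1 = true then (if T v x.2.1 x.2.2.2.1 = true then
          (if T x.1 x.2.1 x.2.2.2.2 = true then p ^ 6 else 0) else 0) else 0 := by
      intro x _
      by_cases h : c2 T v x
      · simp only [if_pos h]
        rw [if_pos h.1, if_pos h.2.1, if_pos h.2.2.1]
        conv_rhs => rw [← h.2.2.2]
        exact Es_sub_le hp0 V hV _
      · simp only [if_neg h]
        rw [Es_const]
        split_ifs <;> positivity
    refine (sum_le_sum a1).trans ?_
    rw [sum_product]
    have a2 : ∀ a ∈ W, ∑ y ∈ W ×ˢ W ×ˢ W ×ˢ W,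
        (if T v a y.2.1 = true then (if T v y.1 y.2.2.1 = true then
          (if T a y.1 y.2.2.2 = true then p ^ 6 else 0) else 0) else 0) ≤
        V.length * t ^ 3 * p ^ 6 := by
      intro a _
      rw [sum_product]
      have a3 : ∀ b ∈ W, ∑ y ∈ W ×ˢ W ×ˢ W,
          (if T v a y.1 = true then (if T v b y.2.1 = true then
          (if T a b y.2.2 = true then p ^ 6 else 0) else 0) else 0) ≤ t ^ 3 * p ^ 6 := by
        intro b _
        rw [sum_product]
        have a4 : ∀ a' ∈ W, ∑ y ∈ W ×ˢ W, (if T v a a' = true then (if T v b y.1 = true then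
            (if T a b y.2 = true then p ^ 6 else 0) else 0) else 0) ≤
            if T v a a' = true then t ^ 2 * p ^ 6 else 0 := by
          intro a' _
          split_ifs with h
          · rw [sum_product]
            have a5 : ∀ b' ∈ W, ∑ c ∈ W, (if T v b b' = true then
                (if T a b c = true then p ^ 6 else 0) else 0) ≤
                if T v b b' = true then t * p ^ 6 else 0 := by
              intro b' _
              split_ifs with h
              · exact step a b _ (by positivity)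
              · simp
            refine (sum_le_sum a5).trans ?_
            refine (step v b _ (by positivity)).trans (le_of_eq ?_)
            ring
          · simp
        refine (sum_le_sum a4).trans ?_
        refine (step v a _ (by positivity)).trans (le_of_eq ?_)
        ring
      refine (sum_le_sum a3).trans (le_of_eq ?_)
      rw [sum_const, nsmul_eq_mul, hWc]
      ring
    refine (sum_le_sum a2).trans (le_of_eq ?_)
    rw [sum_const, nsmul_eq_mul, hWc]
    ring
  refine (sum_le_sum fun v hv => add_le_add (g1 v hv) (g2 v hv)).trans (le_of_eq ?_)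
  rw [sum_const, nsmul_eq_mul, hWc]
  ring

/-! ### The union bound -/

/-- the points outside `I` that are collinear with many pairs of `I` -/
def BI (T : X → X → X → Bool) (W : Finset X) (k : ℕ) (I : Finset X) : Finset X :=
  (W \ I).filter fun v => k ≤ pr T v I

theorem BI_card (hT : LS T) {W : Finset X} {t k : ℕ}
    (hcod : ∀ a b, ((W.filter fun c => T a b c = true).card : ℝ) ≤ t) (I : Finset X) :
    ((BI T W k I).card : ℝ) * k ≤ (I.card : ℝ) ^ 2 * t := by
  have h1 : ((BI T W k I).card : ℝ) * k ≤ ∑ v ∈ BI T W k I, (pr T v I : ℝ) := by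
    rw [← nsmul_eq_mul, ← sum_const]
    apply sum_le_sum
    intro v hv
    unfold BI at hv
    rw [mem_filter] at hv
    exact_mod_cast hv.2
  refine h1.trans ?_
  have h2 : ∀ v, (pr T v I : ℝ) = ∑ x ∈ I ×ˢ I, if T v x.1 x.2 = true then (1 : ℝ) else 0 := by
    intro v
    unfold pr
    rw [← sum_filter, sum_const, nsmul_eq_mul, mul_one]
  simp only [h2]
  rw [sum_comm]
  have h3 : ∀ x ∈ I ×ˢ I, ∑ v ∈ BI T W k I, (if T v x.1 x.2 = true then (1 : ℝ) else 0) ≤ t := by
    intro x _
    rw [← sum_filter, sum_const, nsmul_eq_mul, mul_one]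
    refine le_trans ?_ (hcod x.1 x.2)
    have : ((BI T W k I).filter fun v => T v x.1 x.2 = true) ⊆
        W.filter fun c => T x.1 x.2 c = true := by
      intro v hv
      rw [mem_filter] at hv ⊢
      refine ⟨?_, ?_⟩
      · have := hv.1
        unfold BI at this
        rw [mem_filter, mem_sdiff] at this
        exact this.1.1
      · rw [← hT.rot v x.1 x.2]; exact hv.2
    exact_mod_cast card_le_card this
  refine (sum_le_sum h3).trans (le_of_eq ?_)
  rw [sum_const, nsmul_eq_mul, card_product]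
  push_cast
  ring

/-- the sum of the probabilities in the union bound -/
theorem union_le (hT : LS T) (hp0 : 0 < p) (V : List X) (hV : V.Nodup) {t m k ρ : ℕ}
    (hcod : ∀ a b, ((V.toFinset.filter fun c => T a b c = true).card : ℝ) ≤ t)
    (hk : 0 < k) (hm : 42000 * (m : ℝ) ^ 2 * t ≤ k * V.length)
    (hρ : p * V.length / 2000 ≤ ρ) (hmρ : 72000 * (m : ℝ) ≤ p * V.length) :
    Es p V (fun R => ∑ I ∈ V.toFinset.powerset.filter (fun I => I.card ≤ m),
      ∑ A ∈ (BI T V.toFinset k I).powersetCard ρ, if I ∪ A ⊆ R then (1 : ℝ) else 0) ≤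
    Real.exp (-ρ) := by
  set W := V.toFinset with hW
  have hWc : (W.card : ℝ) = V.length := by rw [hW, List.toFinset_card_of_nodup hV]
  set r : ℝ := p * V.length with hr
  have hr0 : 0 ≤ r := by rw [hr]; positivity
  have hk0 : (0 : ℝ) < k := by exact_mod_cast hk
  rw [Es_sum]
  -- one set
  have h1 : ∀ I ∈ W.powerset.filter (fun I => I.card ≤ m),
      Es p V (fun R => ∑ A ∈ (BI T W k I).powersetCard ρ, if I ∪ A ⊆ R then (1 : ℝ) else 0) ≤
      p ^ I.card * Real.exp (-2 * ρ) := by
    intro I hI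
    rw [mem_filter, mem_powerset] at hI
    rw [Es_sum]
    have a1 : ∀ A ∈ (BI T W k I).powersetCard ρ,
        Es p V (fun R => if I ∪ A ⊆ R then (1 : ℝ) else 0) ≤ p ^ I.card * p ^ ρ := by
      intro A hA
      rw [mem_powersetCard] at hA
      refine (Es_sub_le hp0.le V hV _).trans (le_of_eq ?_)
      rw [card_union_of_disjoint, hA.2, pow_add]
      rw [disjoint_left]
      intro x hx hxA
      have := hA.1 hxA
      unfold BI at this
      rw [mem_filter, mem_sdiff] at this
      exact this.1.2 hx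
    refine (sum_le_sum a1).trans ?_
    rw [sum_const, card_powersetCard, nsmul_eq_mul]
    have a2 : (((BI T W k I).card.choose ρ : ℕ) : ℝ) * p ^ ρ ≤ Real.exp (-2 * ρ) := by
      set β := (BI T W k I).card with hβ
      have b1 : ((β.choose ρ : ℕ) : ℝ) ≤ (β : ℝ) ^ ρ / ρ.factorial := Nat.choose_le_pow_div ρ β
      have b2 : (β : ℝ) * p ≤ ρ / 21 := by
        have c1 := BI_card (k := k) hT hcod I
        rw [← hβ] at c1
        have c2 : (I.card : ℝ) ^ 2 * t ≤ (m : ℝ) ^ 2 * t := by
          apply mul_le_mul_of_nonneg_right _ (Nat.cast_nonneg t)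
          apply pow_le_pow_left₀ (Nat.cast_nonneg _)
          exact_mod_cast hI.2
        have c3 : (β : ℝ) * 42000 ≤ V.length := by
          have : (β : ℝ) * 42000 * k ≤ V.length * k := by
            calc (β : ℝ) * 42000 * k = 42000 * (β * k) := by ring
              _ ≤ 42000 * ((m : ℝ) ^ 2 * t) := by linarith
              _ = 42000 * (m : ℝ) ^ 2 * t := by ring
              _ ≤ V.length * k := by rw [mul_comm (V.length : ℝ)]; exact hm
          exact le_of_mul_le_mul_right this hk0
        have c4 := mul_le_mul_of_nonneg_right c3 hp0.le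
        have c5 : (V.length : ℝ) * p = r := by rw [hr]; ring
        linarith
      have b3 : (ρ : ℝ) ^ ρ / ρ.factorial ≤ Real.exp ρ :=
        Real.pow_div_factorial_le_exp _ (Nat.cast_nonneg ρ) ρ
      have b4 : Real.exp 3 ≤ 21 := by
        have := Real.exp_one_lt_d9
        have h3 : Real.exp 3 = Real.exp 1 ^ 3 := by rw [← Real.exp_nat_mul]; norm_num
        rw [h3]
        calc Real.exp 1 ^ 3 ≤ (2.7182818286 : ℝ) ^ 3 :=
              pow_le_pow_left₀ (Real.exp_pos 1).le this.le 3
          _ ≤ 21 := by norm_num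
      have b5 : (1 / 21 : ℝ) ≤ Real.exp (-3) := by
        rw [Real.exp_neg, one_div]
        exact inv_anti₀ (Real.exp_pos 3) b4
      calc ((β.choose ρ : ℕ) : ℝ) * p ^ ρ ≤ (β : ℝ) ^ ρ / ρ.factorial * p ^ ρ :=
            mul_le_mul_of_nonneg_right b1 (by positivity)
        _ = (β * p) ^ ρ / ρ.factorial := by rw [mul_pow]; ring
        _ ≤ ((ρ : ℝ) / 21) ^ ρ / ρ.factorial := by
            apply div_le_div_of_nonneg_right _ (by positivity)
            exact pow_le_pow_left₀ (by positivity) b2 ρ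
        _ = (1 / 21) ^ ρ * ((ρ : ℝ) ^ ρ / ρ.factorial) := by
            rw [div_eq_mul_one_div (ρ : ℝ) 21, mul_pow]; ring
        _ ≤ Real.exp (-3) ^ ρ * Real.exp ρ := by
            apply mul_le_mul _ b3 (by positivity) (by positivity)
            exact pow_le_pow_left₀ (by norm_num) b5 ρ
        _ = Real.exp (-2 * ρ) := by
            rw [← Real.exp_nat_mul, ← Real.exp_add]
            congr 1
            ring
    calc (((BI T W k I).card.choose ρ : ℕ) : ℝ) * (p ^ I.card * p ^ ρ) =
          p ^ I.card * ((((BI T W k I).card.choose ρ : ℕ) : ℝ) * p ^ ρ) := by ring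
      _ ≤ p ^ I.card * Real.exp (-2 * ρ) := mul_le_mul_of_nonneg_left a2 (by positivity)
  refine (sum_le_sum h1).trans ?_
  rw [← sum_mul]
  -- the sum over all sets
  have h2 : ∑ I ∈ W.powerset.filter (fun I => I.card ≤ m), p ^ I.card ≤
      4000 ^ m * Real.exp (r / 4000) := by
    have a1 : ∀ I ∈ W.powerset.filter (fun I => I.card ≤ m), p ^ I.card ≤
        4000 ^ m * ((p / 4000) ^ I.card * 1 ^ (W.card - I.card)) := by
      intro I hI
      rw [mem_filter] at hI
      rw [one_pow, mul_one, div_pow]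
      have b1 : (4000 : ℝ) ^ I.card ≤ 4000 ^ m := pow_le_pow_right₀ (by norm_num) hI.2
      have b2 : (0 : ℝ) < 4000 ^ I.card := by positivity
      rw [mul_div_assoc', le_div_iff₀ b2]
      calc p ^ I.card * 4000 ^ I.card ≤ p ^ I.card * 4000 ^ m :=
            mul_le_mul_of_nonneg_left b1 (by positivity)
        _ = 4000 ^ m * p ^ I.card := by ring
    refine (sum_le_sum a1).trans ?_
    refine (sum_le_sum_of_subset_of_nonneg (filter_subset _ _) fun I _ _ => by positivity).trans ?_
    rw [← mul_sum, sum_pow_mul_eq_add_pow]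
    apply mul_le_mul_of_nonneg_left _ (by positivity)
    have b1 : p / 4000 + 1 ≤ Real.exp (p / 4000) := Real.add_one_le_exp _
    refine (pow_le_pow_left₀ (by positivity) b1 _).trans (le_of_eq ?_)
    rw [← Real.exp_nat_mul]
    congr 1
    rw [hWc, hr]
    ring
  have h3 : (4000 : ℝ) ^ m ≤ Real.exp (9 * m) := by
    have a1 : (4000 : ℝ) ≤ Real.exp 9 := by
      have := Real.exp_one_gt_d9
      have h3 : Real.exp 9 = Real.exp 1 ^ 9 := by rw [← Real.exp_nat_mul]; norm_num
      rw [h3]
      calc (4000 : ℝ) ≤ (2.7182818283 : ℝ) ^ 9 := by norm_num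
        _ ≤ Real.exp 1 ^ 9 := pow_le_pow_left₀ (by norm_num) this.le 9
    calc (4000 : ℝ) ^ m ≤ Real.exp 9 ^ m := pow_le_pow_left₀ (by norm_num) a1 m
      _ = Real.exp (9 * m) := by rw [← Real.exp_nat_mul]; congr 1; ring
  calc (∑ I ∈ W.powerset.filter (fun I => I.card ≤ m), p ^ I.card) * Real.exp (-2 * ρ)
      ≤ 4000 ^ m * Real.exp (r / 4000) * Real.exp (-2 * ρ) :=
        mul_le_mul_of_nonneg_right h2 (Real.exp_pos _).le
    _ ≤ Real.exp (9 * m) * Real.exp (r / 4000) * Real.exp (-2 * ρ) := by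
        apply mul_le_mul_of_nonneg_right _ (Real.exp_pos _).le
        exact mul_le_mul_of_nonneg_right h3 (Real.exp_pos _).le
    _ = Real.exp (9 * m + r / 4000 + -2 * ρ) := by rw [← Real.exp_add, ← Real.exp_add]
    _ ≤ Real.exp (-ρ) := by
        apply Real.exp_le_exp.mpr
        linarith

/-- the sample is good with high probability -/
theorem sample_good (hT : LS T) (V : List X) (hV : V.Nodup) {t m k : ℕ} (hp0 : 0 < p) (hp1 : p ≤ 1)
    (hcod : ∀ a b, ((V.toFinset.filter fun c => T a b c = true).card : ℝ) ≤ t) (hk : 0 < k)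
    (h1 : (2 : ℝ) ^ (20 * k) ≤ t * V.length * p ^ 2)
    (h2 : t * V.length * p ^ 2 ≤ (2 : ℝ) ^ (22 * k)) (h3 : (2 : ℝ) ^ (120 * k) ≤ p * V.length)
    (hm : 42000 * (m : ℝ) ^ 2 * t ≤ k * V.length) (P : Finset X → Prop) [DecidablePred P]
    (hP : ∀ R, GoodR T R m k → P R) :
    Es p V (fun R => if P R then (0 : ℝ) else 1) ≤ 3 / 50 := by
  classical
  set W := V.toFinset with hW
  have hWc : (W.card : ℝ) = V.length := by rw [hW, List.toFinset_card_of_nodup hV]
  set N : ℝ := (V.length : ℝ) with hN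
  set r : ℝ := p * N with hr
  set D : ℝ := t * N * p ^ 2 with hD
  have hN0 : 0 ≤ N := by rw [hN]; positivity
  have ht0 : (0 : ℝ) ≤ t := Nat.cast_nonneg t
  have hz1 : (1 : ℝ) ≤ 2 ^ k := one_le_pow₀ (by norm_num)
  have hD1 : 1 ≤ D := le_trans (one_le_pow₀ (by norm_num)) h1
  have htp : (0 : ℝ) < t := by
    rcases ht0.lt_or_eq with h | h
    · exact h
    · rw [← h] at hD; simp at hD; linarith
  have hr1 : (2 : ℝ) ^ 120 ≤ r := by
    refine le_trans ?_ h3
    exact pow_le_pow_right₀ (by norm_num) (by omega)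
  have hr0 : 0 < r := lt_of_lt_of_le (by norm_num) hr1
  -- comparison of `m` and `r`
  have hsq : ∀ c : ℝ, 0 ≤ c → c ^ 2 * k ≤ 42000 * 2 ^ (20 * k) → c * m ≤ r := by
    intro c hc hck
    apply abs_le_of_sq_le_sq' _ hr0.le |>.2
    have a1 : (c * m) ^ 2 * (42000 * t) ≤ r ^ 2 * (42000 * t) := by
      calc (c * m) ^ 2 * (42000 * t) = c ^ 2 * (42000 * (m : ℝ) ^ 2 * t) := by ring
        _ ≤ c ^ 2 * (k * N) := mul_le_mul_of_nonneg_left hm (by positivity)
        _ = (c ^ 2 * k) * N := by ring
        _ ≤ (42000 * 2 ^ (20 * k)) * N := mul_le_mul_of_nonneg_right hck hN0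
        _ = 42000 * (2 ^ (20 * k) * N) := by ring
        _ ≤ 42000 * (D * N) := by
            apply mul_le_mul_of_nonneg_left _ (by norm_num)
            exact mul_le_mul_of_nonneg_right h1 hN0
        _ = r ^ 2 * (42000 * t) := by rw [hD, hr]; ring
    exact le_of_mul_le_mul_right a1 (by positivity)
  have hkz : (k : ℝ) ≤ 2 ^ k := by exact_mod_cast Nat.lt_two_pow_self.le
  have hm1 : 72000 * (m : ℝ) ≤ r := by
    apply hsq 72000 (by norm_num)
    have a1 : (2 : ℝ) ^ (20 * k) = 2 ^ k * 2 ^ (19 * k) := by rw [← pow_add]; congr 1; ring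
    have a2 : (524288 : ℝ) ≤ 2 ^ (19 * k) := by
      calc (524288 : ℝ) = 2 ^ 19 := by norm_num
        _ ≤ 2 ^ (19 * k) := pow_le_pow_right₀ (by norm_num) (by omega)
    have a3 : (k : ℝ) * 524288 ≤ 2 ^ k * 2 ^ (19 * k) := mul_le_mul hkz a2 (by norm_num) (by positivity)
    rw [a1]
    have hk0 : (0 : ℝ) ≤ k := Nat.cast_nonneg k
    nlinarith
  have hm2 : 20 * 2 ^ (8 * k) * (m : ℝ) ≤ r := by
    apply hsq (20 * 2 ^ (8 * k)) (by positivity)
    have a1 : (2 : ℝ) ^ (20 * k) = 2 ^ k * (2 ^ (16 * k) * 2 ^ (3 * k)) := by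
      rw [← pow_add, ← pow_add]; congr 1; ring
    have a2 : ((20 : ℝ) * 2 ^ (8 * k)) ^ 2 = 400 * 2 ^ (16 * k) := by
      rw [mul_pow, ← pow_mul, show 8 * k * 2 = 16 * k by ring]; norm_num
    have a3 : (1 : ℝ) ≤ 2 ^ (3 * k) := one_le_pow₀ (by norm_num)
    have a4 : (k : ℝ) * (2 ^ (16 * k) * 1) ≤ 2 ^ k * (2 ^ (16 * k) * 2 ^ (3 * k)) :=
      mul_le_mul hkz (mul_le_mul_of_nonneg_left a3 (by positivity)) (by positivity) (by positivity)
    rw [a1, a2]
    have a5 : (0 : ℝ) ≤ k * 2 ^ (16 * k) := by positivity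
    nlinarith
  set ρ : ℕ := ⌈r / 2000⌉₊ with hρ
  have hρ1 : r / 2000 ≤ ρ := Nat.le_ceil _
  -- the pointwise bound
  set U : Finset X → ℝ := fun R => ∑ I ∈ W.powerset.filter (fun I => I.card ≤ m),
      ∑ A ∈ (BI T W k I).powersetCard ρ, if I ∪ A ⊆ R then (1 : ℝ) else 0 with hU
  have hU0 : ∀ R, 0 ≤ U R := by
    intro R
    rw [hU]
    apply sum_nonneg; intro I _
    apply sum_nonneg; intro A _
    split_ifs <;> norm_num
  have hw0 : ∀ R, 0 ≤ wit T W R := by
    intro R
    unfold wit
    apply sum_nonneg; intro v _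
    apply add_nonneg <;> apply sum_nonneg <;> intro x _ <;> split_ifs <;> norm_num
  have hpt : ∀ R ⊆ W, (if P R then (0 : ℝ) else 1) ≤
      (4 / r ^ 2) * ((R ∩ W).card - p * N) ^ 2 + ((200 / r) * wit T W R + U R) := by
    intro R hRW
    have q1 : 0 ≤ (4 / r ^ 2) * (((R ∩ W).card : ℝ) - p * N) ^ 2 := by positivity
    have q2 : 0 ≤ (200 / r) * wit T W R := mul_nonneg (by positivity) (hw0 R)
    have q3 := hU0 R
    split_ifs with hPR
    · linarith
    have hng : ¬ GoodR T R m k := fun h => hPR (hP R h)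
    by_cases c1 : (R.card : ℝ) < r / 2
    · -- small sample
      have a1 : 1 ≤ (4 / r ^ 2) * (((R ∩ W).card : ℝ) - p * N) ^ 2 := by
        rw [inter_eq_left.mpr hRW, div_mul_eq_mul_div, le_div_iff₀ (by positivity), one_mul, ← hr]
        nlinarith
      linarith
    push Not at c1
    set B := R.filter fun v => ¬ Good T R v with hB
    by_cases c2 : (R.card : ℝ) / 100 < B.card
    · -- many bad points
      have a1 : (B.card : ℝ) ≤ wit T W R := bad_le_wit hT hRW (filter_subset _ _)
        fun v hv => (mem_filter.mp hv).2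
      have a2 : 1 ≤ (200 / r) * wit T W R := by
        rw [div_mul_eq_mul_div, le_div_iff₀ hr0]
        linarith
      linarith
    push Not at c2
    by_cases c3 : ∀ I ∈ Om T R, I.card ≤ m →
      (((R \ I).filter fun v => k ≤ pr T v I).card : ℝ) ≤ R.card / 1000
    · exfalso
      apply hng
      refine ⟨?_, hk, ⟨R.filter fun v => Good T R v, filter_subset _ _,
        fun v hv => (mem_filter.mp hv).2, ?_⟩, c3, ?_⟩
      · have : (0 : ℝ) < R.card := by linarith
        exact_mod_cast this
      · have a1 : (R.filter fun v => Good T R v).card + B.card = R.card := by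
          rw [hB]; exact card_filter_add_card_filter_not _
        have a2 : ((R.filter fun v => Good T R v).card : ℝ) + B.card = R.card := by
          exact_mod_cast a1
        linarith
      · rw [le_div_iff₀ (by positivity)]
        nlinarith
    · push Not at c3
      obtain ⟨I, hI, hIm, hIr⟩ := c3
      have a1 : (ρ : ℕ) ≤ ((R \ I).filter fun v => k ≤ pr T v I).card := by
        rw [hρ, Nat.ceil_le]
        linarith
      obtain ⟨A, hA, hAc⟩ := exists_subset_card_eq a1
      have hIR := (mem_Om.mp hI).1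
      have a2 : A ∈ (BI T W k I).powersetCard ρ := by
        rw [mem_powersetCard]
        refine ⟨hA.trans ?_, hAc⟩
        unfold BI
        intro v hv
        rw [mem_filter, mem_sdiff] at hv ⊢
        exact ⟨⟨hRW hv.1.1, hv.1.2⟩, hv.2⟩
      have a3 : I ∪ A ⊆ R := by
        apply union_subset hIR
        refine hA.trans ?_
        intro v hv
        rw [mem_filter, mem_sdiff] at hv
        exact hv.1.1
      have a4 : I ∈ W.powerset.filter (fun I => I.card ≤ m) := by
        rw [mem_filter, mem_powerset]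
        exact ⟨hIR.trans hRW, hIm⟩
      have a5 : 1 ≤ U R := by
        have b1 : (1 : ℝ) ≤ ∑ A ∈ (BI T W k I).powersetCard ρ, if I ∪ A ⊆ R then (1 : ℝ) else 0 := by
          have b2 : (if I ∪ A ⊆ R then (1 : ℝ) else 0) = 1 := if_pos a3
          refine b2.symm.le.trans ?_
          apply single_le_sum (f := fun A => if I ∪ A ⊆ R then (1 : ℝ) else 0) _ a2
          intro A _; split_ifs <;> norm_num
        refine b1.trans ?_
        rw [hU]
        apply single_le_sum (f := fun I => ∑ A ∈ (BI T W k I).powersetCard ρ,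
          if I ∪ A ⊆ R then (1 : ℝ) else 0) _ a4
        intro I _
        apply sum_nonneg; intro A _; split_ifs <;> norm_num
      linarith
  refine (Es_mono hp0.le hp1 V _ _ hpt).trans ?_
  rw [Es_add, Es_add, Es_smul, Es_smul, hW, Es_var V hV]
  have e1 := Es_wit_le hT hp0.le V hV hcod
  have e2 := union_le (ρ := ρ) hT hp0 V hV hcod hk hm hρ1 hm1
  rw [← hW] at e1 e2 ⊢
  have e3 : 4 / r ^ 2 * (p * (1 - p) * N) ≤ 1 / 100 := by
    have a1 : p * (1 - p) * N ≤ r := by
      rw [hr]
      nlinarith [mul_nonneg (mul_nonneg hp0.le hp0.le) hN0]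
    calc 4 / r ^ 2 * (p * (1 - p) * N) ≤ 4 / r ^ 2 * r :=
          mul_le_mul_of_nonneg_left a1 (by positivity)
      _ = 4 / r := by field_simp
      _ ≤ 1 / 100 := by
          rw [div_le_div_iff₀ hr0 (by norm_num)]
          have : (2 : ℝ) ^ 120 ≥ 400 := by norm_num
          linarith
  have e4 : 200 / r * Es p V (wit T W) ≤ 1 / 100 := by
    have a1 : N ^ 2 * t ^ 2 * p ^ 4 + N ^ 3 * t ^ 3 * p ^ 6 = D ^ 2 + D ^ 3 := by rw [hD]; ring
    have a2 : D ^ 2 + D ^ 3 ≤ 2 * D ^ 3 := by nlinarith [sq_nonneg D]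
    have a3 : D ^ 3 ≤ 2 ^ (66 * k) := by
      calc D ^ 3 ≤ (2 ^ (22 * k)) ^ 3 := pow_le_pow_left₀ (by linarith) h2 3
        _ = 2 ^ (66 * k) := by rw [← pow_mul]; congr 1; ring
    have a4 : (2 : ℝ) ^ (120 * k) = 2 ^ (66 * k) * 2 ^ (54 * k) := by
      rw [← pow_add]; congr 1; ring
    have a5 : (2 : ℝ) ^ 54 ≤ 2 ^ (54 * k) := pow_le_pow_right₀ (by norm_num) (by omega)
    have a6 : (0 : ℝ) < 2 ^ (66 * k) := by positivity
    have a7 : (2 : ℝ) ^ (66 * k) * 2 ^ 54 ≤ r := by
      refine le_trans ?_ h3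
      rw [a4]
      exact mul_le_mul_of_nonneg_left a5 a6.le
    rw [a1] at e1
    calc 200 / r * Es p V (wit T W) ≤ 200 / r * (2 * 2 ^ (66 * k)) := by
          apply mul_le_mul_of_nonneg_left _ (by positivity)
          linarith
      _ ≤ 1 / 100 := by
          rw [div_mul_eq_mul_div, div_le_div_iff₀ hr0 (by norm_num)]
          have : (2 : ℝ) ^ 54 ≥ 40000 := by norm_num
          nlinarith
  have e5 : Real.exp (-(ρ : ℝ)) ≤ 1 / 100 := by
    have a1 : (100 : ℝ) ≤ Real.exp ρ := by
      have := Real.add_one_le_exp (ρ : ℝ)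
      have h120 : (2 : ℝ) ^ 120 / 2000 ≥ 100 := by norm_num
      linarith
    rw [Real.exp_neg, one_div]
    exact inv_anti₀ (by norm_num) a1
  have e6 : Es p V U ≤ 1 / 100 := e2.trans e5
  have e7 : Es p V (fun R => wit T W R) = Es p V (wit T W) := rfl
  have e8 : Es p V (fun R => U R) = Es p V U := rfl
  rw [e7, e8]
  linarith

end Pool.Agent.Work.MP_a23c49_lc
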